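import Pool.Agent.Lib.Burgess.Ineq
import Pool.Agent.Lib.MP_0b15c0_nt.DivisorBound

/-!
# Burgess' theorem: cancellation in sums of length `N ^ (1 / 4 + δ)`
-/

set_option autoImplicit false
open Finset

namespace Pool.Agent.Lib.Burgess

lemma exists_rpow_ge (a c : ℝ) (ha : 0 < a) : ∃ X : ℝ, 1 ≤ X ∧ ∀ x : ℝ, X ≤ x → c ≤ x ^ a := by
  have h := (tendsto_rpow_atTop ha).eventually_ge_atTop c
  obtain ⟨X, hX⟩ := Filter.eventually_atTop.1 h
  exact ⟨max X 1, le_max_right _ _, fun x hx => hX x ((le_max_left _ _).trans hx)⟩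

/-- Burgess' theorem for a multiplicative function modulo `N` satisfying the complete sum
bound. -/
theorem burgess_asymp (δ κ : ℝ) (hδ : 0 < δ) (hκ : 0 < κ) (hκ1 : κ ≤ 1) :
    ∃ r : ℕ, 6 ≤ r ∧ ∃ N₀ : ℝ, 1 ≤ N₀ ∧ ∀ N : ℕ, ∀ _ : NeZero N, N₀ ≤ N → ∀ χ : ZMod N →* ℂ,
      (∀ x, ‖χ x‖ ≤ 1) →
      (∀ A : ℕ, (A : ℝ) / 2 ≤ ((Icc 1 A).filter fun a => Nat.Coprime a N).card) →
      (∀ β β' : Fin r → ℕ, (∀ i, (β i : ℝ) ≤ (N : ℝ) ^ (1 / (2 * r : ℝ))) →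
        (∀ i, (β' i : ℝ) ≤ (N : ℝ) ^ (1 / (2 * r : ℝ))) → UniqL β β' →
        ‖TT χ β β'‖ ≤ (N : ℝ) ^ (δ / 4) * √N) →
      ∀ H : ℕ, (N : ℝ) ^ (1 / 4 + δ) ≤ H → (H : ℝ) ^ 2 ≤ N → ‖SS χ H‖ ≤ κ * H := by
  obtain ⟨r0, hr0⟩ := exists_nat_ge (1 / δ)
  obtain ⟨r, hr⟩ : ∃ r, r = r0 + 6 := ⟨_, rfl⟩
  have hr6 : 6 ≤ r := by omega
  have hrR : (6 : ℝ) ≤ r := by exact_mod_cast hr6
  have hrδ : 1 / δ ≤ (r : ℝ) := by
    rw [hr]; push_cast; linarith
  have hrδ' : 1 / (2 * (r : ℝ)) ≤ δ / 2 := by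
    rw [div_le_iff₀ (by positivity)]
    rw [div_le_iff₀ hδ] at hrδ
    linarith
  have hr12 : 1 / (2 * (r : ℝ)) ≤ 1 / 12 := by
    apply one_div_le_one_div_of_le <;> linarith
  have hr0' : 0 < 1 / (2 * (r : ℝ)) := by positivity
  obtain ⟨C, hC, hdiv⟩ := Pool.Agent.Lib.MP0b15c0.divisor_bound (ε := δ / 4) (by positivity)
  obtain ⟨X1, hX11, hX1⟩ := exists_rpow_ge (1 / 6) (16 / κ) (by norm_num)
  set c0 : ℝ := 32 * C * ((r : ℝ) ^ (2 * r) + 1) / (κ * (κ / 2) ^ (2 * r)) + 1 with hc0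
  obtain ⟨X2, hX21, hX2⟩ := exists_rpow_ge (2 * δ - 1 / (2 * r) - 2 * (δ / 4)) c0 (by linarith)
  refine ⟨r, hr6, max X1 X2, hX11.trans (le_max_left _ _), ?_⟩
  intro N hN0 hN χ hχ hcop hcs H hH hH2
  set x : ℝ := (N : ℝ) with hx
  have hx1 : 1 ≤ x := hX11.trans ((le_max_left _ _).trans hN)
  have hxpos : 0 < x := by linarith
  set b0 : ℝ := x ^ (1 / (2 * r : ℝ)) with hb0
  have hb01 : 1 ≤ b0 := Real.one_le_rpow hx1 hr0'.le
  set B : ℕ := ⌊b0⌋₊ + 1 with hB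
  have hBlo : b0 < B := by rw [hB]; push_cast; exact Nat.lt_floor_add_one b0
  have hBhi : (B : ℝ) ≤ 2 * b0 := by
    have := Nat.floor_le (show 0 ≤ b0 by linarith)
    rw [hB]; push_cast; linarith
  have hBpos : (0 : ℝ) < B := by linarith
  have hHlow : x ^ (1 / 4 : ℝ) ≤ H := by
    refine le_trans ?_ hH
    exact Real.rpow_le_rpow_of_exponent_le hx1 (by linarith)
  have hH1 : (1 : ℝ) ≤ H := le_trans (Real.one_le_rpow hx1 (by norm_num)) hHlow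
  -- the size of `κ H / (8 B)`
  have hκH : 1 ≤ κ * H / (8 * B) := by
    rw [le_div_iff₀ (by positivity), one_mul]
    have h1 : 16 / κ ≤ x ^ (1 / 6 : ℝ) := hX1 x ((le_max_left _ _).trans hN)
    have h2 : b0 ≤ x ^ (1 / 12 : ℝ) := Real.rpow_le_rpow_of_exponent_le hx1 hr12
    have h3 : x ^ (1 / 6 : ℝ) * x ^ (1 / 12 : ℝ) = x ^ (1 / 4 : ℝ) := by
      rw [← Real.rpow_add hxpos]; norm_num
    have h4 : 16 ≤ κ * x ^ (1 / 6 : ℝ) := by
      rw [div_le_iff₀ hκ] at h1; linarith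
    have h5 : 0 < x ^ (1 / 12 : ℝ) := by positivity
    calc 8 * (B : ℝ) ≤ 16 * b0 := by linarith
      _ ≤ (κ * x ^ (1 / 6 : ℝ)) * x ^ (1 / 12 : ℝ) := by
          apply mul_le_mul h4 h2 (by linarith) (by positivity)
      _ = κ * x ^ (1 / 4 : ℝ) := by rw [mul_assoc, h3]
      _ ≤ κ * H := mul_le_mul_of_nonneg_left hHlow hκ.le
  set A : ℕ := ⌊κ * H / (4 * B)⌋₊ with hA
  have hAhi : (A : ℝ) ≤ κ * H / (4 * B) := Nat.floor_le (by positivity)
  have hAlo : κ * H / (8 * B) ≤ A := by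
    have h1 : κ * H / (4 * B) < A + 1 := Nat.lt_floor_add_one _
    have h2 : κ * H / (4 * B) = 2 * (κ * H / (8 * B)) := by field_simp; norm_num
    linarith
  have hA1 : (1 : ℝ) ≤ A := hκH.trans hAlo
  have hAB : (A : ℝ) * B * 4 ≤ κ * H := by
    rw [le_div_iff₀ (by positivity)] at hAhi
    linarith
  have hAH : A * H < N := by
    have h1 : (A : ℝ) * H < x := by
      have h2 : (A : ℝ) * H * 4 ≤ κ * H * H := by
        have : (A : ℝ) * 4 ≤ κ * H := by nlinarith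
        nlinarith
      have h3 : κ * H * H ≤ x := by
        have : κ * H * H ≤ 1 * (H : ℝ) ^ 2 := by nlinarith
        linarith
      nlinarith
    rw [hx] at h1
    exact_mod_cast h1
  set P := (Icc 1 A).filter fun a => Nat.Coprime a N with hP
  have hPcard : (A : ℝ) / 2 ≤ P.card := hcop A
  have hMom := moment_le χ hχ r B (x ^ (δ / 4)) (by positivity) (by
    intro β β' h1 h2 hu
    apply hcs β β' _ _ hu
    · intro i
      have : β i ≤ ⌊b0⌋₊ := by have := h1 i; omega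
      exact (Nat.le_floor_iff (by linarith)).1 this
    · intro i
      have : β' i ≤ ⌊b0⌋₊ := by have := h2 i; omega
      exact (Nat.le_floor_iff (by linarith)).1 this)
  obtain ⟨W, hW0, hW1, hW2⟩ := burgess_ineq χ hχ r (by omega) A B H P
    (by
      intro a ha
      rw [hP, mem_filter, mem_Icc] at ha
      exact ⟨ha.1.1, ha.1.2, ha.2⟩) hAH (C * x ^ (δ / 4))
    (by
      intro m hm1 hm2
      refine (hdiv m (by omega)).trans ?_
      apply mul_le_mul_of_nonneg_left _ hC.le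
      apply Real.rpow_le_rpow (Nat.cast_nonneg _) _ (by positivity)
      have : m ≤ N := by omega
      rw [hx]
      exact_mod_cast this) _ hMom
  by_contra hcon
  push Not at hcon
  -- contradiction
  set Q : ℝ := (P.card : ℝ) with hQ
  have hQpos : 0 < Q := by linarith
  have h10 : (Q * H) * (B * (κ / 2)) ≤ W := by
    have e1 : Q * B * (κ * H) ≤ W + 2 * (A * B) * (Q * B) := by
      refine le_trans ?_ hW1
      exact mul_le_mul_of_nonneg_left hcon.le (by positivity)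
    have e2 : 2 * ((A : ℝ) * B) * (Q * B) ≤ κ * H / 2 * (Q * B) := by
      apply mul_le_mul_of_nonneg_right _ (by positivity)
      linarith
    nlinarith
  have h11 : ((Q * H) * (B * (κ / 2))) ^ (2 * r) ≤ W ^ (2 * r) :=
    pow_le_pow_left₀ (by positivity) h10 _
  have h12 := h11.trans hW2
  have hQH : 0 < Q * H := by positivity
  have h13 : (Q * H) ^ (2 * r) = (Q * H) ^ (2 * r - 1) * (Q * H) := by
    rw [← pow_succ]; congr 1; omega
  have h12' : (Q * H) ^ (2 * r - 1) * ((Q * H) * (B * (κ / 2)) ^ (2 * r)) ≤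
      (Q * H) ^ (2 * r - 1) * (C * x ^ (δ / 4) * ((B : ℝ) ^ r * (r : ℝ) ^ (2 * r) * x +
            (B : ℝ) ^ (2 * r) * (x ^ (δ / 4) * √x))) := by
    calc _ = ((Q * H) * (B * (κ / 2))) ^ (2 * r) := by
          rw [mul_pow (Q * H), h13]; ring
      _ ≤ _ := h12
      _ = _ := by ring
  have h14 := le_of_mul_le_mul_left h12' (by positivity)
  -- the moment in terms of `√x`
  have hsq : √x * √x = x := Real.mul_self_sqrt hxpos.le
  have hsx : √x ≤ (B : ℝ) ^ r := by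
    have e1 : √x = b0 ^ r := by
      rw [hb0, ← Real.rpow_natCast, ← Real.rpow_mul hxpos.le, Real.sqrt_eq_rpow]
      congr 1
      field_simp
    rw [e1]
    exact pow_le_pow_left₀ (by linarith) hBlo.le r
  have hK1 : 1 ≤ x ^ (δ / 4) := Real.one_le_rpow hx1 (by positivity)
  have h15 : (B : ℝ) ^ r * (r : ℝ) ^ (2 * r) * x + (B : ℝ) ^ (2 * r) * (x ^ (δ / 4) * √x) ≤
      (B : ℝ) ^ (2 * r) * (√x * (x ^ (δ / 4) * ((r : ℝ) ^ (2 * r) + 1))) := by
    have e1 : (B : ℝ) ^ r * (r : ℝ) ^ (2 * r) * x ≤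
        (B : ℝ) ^ (2 * r) * (√x * (x ^ (δ / 4) * (r : ℝ) ^ (2 * r))) := by
      have e2 : (B : ℝ) ^ (2 * r) = (B : ℝ) ^ r * (B : ℝ) ^ r := by rw [two_mul, pow_add]
      rw [e2]
      have e3 : (B : ℝ) ^ r * (r : ℝ) ^ (2 * r) * x =
          (B : ℝ) ^ r * (√x * (√x * (1 * (r : ℝ) ^ (2 * r)))) := by
        calc (B : ℝ) ^ r * (r : ℝ) ^ (2 * r) * x
            = (B : ℝ) ^ r * (r : ℝ) ^ (2 * r) * (√x * √x) := by rw [hsq]
          _ = _ := by ring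
      have e4 : (B : ℝ) ^ r * (B : ℝ) ^ r * (√x * (x ^ (δ / 4) * (r : ℝ) ^ (2 * r))) =
          (B : ℝ) ^ r * (√x * ((B : ℝ) ^ r * (x ^ (δ / 4) * (r : ℝ) ^ (2 * r)))) := by ring
      rw [e3, e4]
      gcongr
    nlinarith
  have h16 : (Q * H) * (κ / 2) ^ (2 * r) ≤
      C * x ^ (δ / 4) * (√x * (x ^ (δ / 4) * ((r : ℝ) ^ (2 * r) + 1))) := by
    have e1 : (B : ℝ) ^ (2 * r) * ((Q * H) * (κ / 2) ^ (2 * r)) ≤
        (B : ℝ) ^ (2 * r) *
          (C * x ^ (δ / 4) * (√x * (x ^ (δ / 4) * ((r : ℝ) ^ (2 * r) + 1)))) := by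
      calc (B : ℝ) ^ (2 * r) * ((Q * H) * (κ / 2) ^ (2 * r))
          = Q * H * (B * (κ / 2)) ^ (2 * r) := by rw [mul_pow]; ring
        _ ≤ C * x ^ (δ / 4) * ((B : ℝ) ^ r * (r : ℝ) ^ (2 * r) * x +
            (B : ℝ) ^ (2 * r) * (x ^ (δ / 4) * √x)) := h14
        _ ≤ C * x ^ (δ / 4) *
            ((B : ℝ) ^ (2 * r) * (√x * (x ^ (δ / 4) * ((r : ℝ) ^ (2 * r) + 1)))) :=
            mul_le_mul_of_nonneg_left h15 (by positivity)
        _ = _ := by ring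
    exact le_of_mul_le_mul_left e1 (by positivity)
  have h17 : κ * (H : ℝ) ^ 2 ≤ 32 * b0 * (Q * H) := by
    have e1 : κ * H / (16 * B) ≤ Q := by
      have : κ * H / (16 * B) = κ * H / (8 * B) / 2 := by field_simp; norm_num
      linarith
    rw [div_le_iff₀ (by positivity)] at e1
    have e2 : κ * H * H ≤ Q * (16 * B) * H := mul_le_mul_of_nonneg_right e1 (by linarith)
    have e3 : Q * (16 * B) * H ≤ Q * (32 * b0) * H := by
      have : (16 : ℝ) * B ≤ 32 * b0 := by linarith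
      gcongr
    nlinarith
  have h18 : x ^ (1 / 2 + 2 * δ) ≤ (H : ℝ) ^ 2 := by
    have e1 : x ^ (1 / 2 + 2 * δ) = (x ^ (1 / 4 + δ)) ^ 2 := by
      rw [← Real.rpow_natCast, ← Real.rpow_mul hxpos.le]; congr 1; push_cast; ring
    rw [e1]
    exact pow_le_pow_left₀ (by positivity) hH 2
  have h19 : κ * (κ / 2) ^ (2 * r) * x ^ (1 / 2 + 2 * δ) ≤
      32 * C * ((r : ℝ) ^ (2 * r) + 1) * (b0 * x ^ (δ / 4) * x ^ (δ / 4) * √x) := by
    calc κ * (κ / 2) ^ (2 * r) * x ^ (1 / 2 + 2 * δ)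
        ≤ κ * (κ / 2) ^ (2 * r) * (H : ℝ) ^ 2 := mul_le_mul_of_nonneg_left h18 (by positivity)
      _ = (κ * (H : ℝ) ^ 2) * (κ / 2) ^ (2 * r) := by ring
      _ ≤ (32 * b0 * (Q * H)) * (κ / 2) ^ (2 * r) :=
          mul_le_mul_of_nonneg_right h17 (by positivity)
      _ = 32 * b0 * ((Q * H) * (κ / 2) ^ (2 * r)) := by ring
      _ ≤ 32 * b0 * (C * x ^ (δ / 4) * (√x * (x ^ (δ / 4) * ((r : ℝ) ^ (2 * r) + 1)))) :=
          mul_le_mul_of_nonneg_left h16 (by positivity)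
      _ = _ := by ring
  have h20 : x ^ (1 / 2 + 2 * δ) = x ^ (2 * δ - 1 / (2 * r) - 2 * (δ / 4)) *
      (b0 * x ^ (δ / 4) * x ^ (δ / 4) * √x) := by
    rw [hb0, Real.sqrt_eq_rpow, ← Real.rpow_add hxpos, ← Real.rpow_add hxpos,
      ← Real.rpow_add hxpos, ← Real.rpow_add hxpos]
    congr 1; ring
  have h21 : c0 ≤ x ^ (2 * δ - 1 / (2 * r) - 2 * (δ / 4)) :=
    hX2 x ((le_max_right _ _).trans hN)
  have hpos : 0 < b0 * x ^ (δ / 4) * x ^ (δ / 4) * √x := by positivity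
  rw [h20, ← mul_assoc] at h19
  have h22 := le_of_mul_le_mul_right h19 hpos
  have hkk : 0 < κ * (κ / 2) ^ (2 * r) := by positivity
  have h23 : κ * (κ / 2) ^ (2 * r) * c0 ≤ 32 * C * ((r : ℝ) ^ (2 * r) + 1) :=
    (mul_le_mul_of_nonneg_left h21 hkk.le).trans h22
  rw [hc0, mul_add, mul_one, mul_div_cancel₀ _ hkk.ne'] at h23
  linarith

end Pool.Agent.Lib.Burgess
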