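import Pool.Agent.Lib.Burgess.Asymp

/-!
# Short sums of characters modulo a prime and modulo a product of two primes
-/

set_option autoImplicit false
open Finset

namespace Pool.Agent.Lib.Burgess

lemma coprime_count_prime {q : ℕ} (hq : q.Prime) (hq5 : 5 ≤ q) (A : ℕ) :
    (A : ℝ) / 2 ≤ ((Icc 1 A).filter fun a => Nat.Coprime a q).card := by
  have h1 : (Icc 1 A).card ≤ ((Icc 1 A).filter fun a => Nat.Coprime a q).card +
      ((Ioc 0 A).filter fun a => q ∣ a).card := by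
    rw [← card_filter_add_card_filter_not (s := Icc 1 A) fun a => Nat.Coprime a q]
    apply Nat.add_le_add_left
    apply card_le_card
    intro a ha
    rw [mem_filter, mem_Icc] at ha
    rw [mem_filter, mem_Ioc]
    refine ⟨⟨by omega, by omega⟩, ?_⟩
    by_contra hcon
    exact ha.2 ((Nat.Prime.coprime_iff_not_dvd hq).2 hcon).symm
  rw [Nat.card_Icc, Nat.add_sub_cancel, Nat.Ioc_filter_dvd_card_eq_div] at h1
  have h2 : ((A / q : ℕ) : ℝ) ≤ (A : ℝ) / 5 := by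
    refine Nat.cast_div_le.trans ?_
    apply div_le_div_of_nonneg_left (Nat.cast_nonneg _) (by norm_num)
    exact_mod_cast hq5
  have h3 : (A : ℝ) ≤ ((Icc 1 A).filter fun a => Nat.Coprime a q).card + ((A / q : ℕ) : ℝ) := by
    exact_mod_cast h1
  have h4 : (0 : ℝ) ≤ A := Nat.cast_nonneg _
  linarith

lemma coprime_count_two {p q : ℕ} (hp : p.Prime) (hq : q.Prime) (hp5 : 5 ≤ p) (hq5 : 5 ≤ q)
    (A : ℕ) :
    (A : ℝ) / 2 ≤ ((Icc 1 A).filter fun a => Nat.Coprime a (p * q)).card := by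
  have h1 : (Icc 1 A).card ≤ ((Icc 1 A).filter fun a => Nat.Coprime a (p * q)).card +
      (((Ioc 0 A).filter fun a => p ∣ a).card + ((Ioc 0 A).filter fun a => q ∣ a).card) := by
    rw [← card_filter_add_card_filter_not (s := Icc 1 A) fun a => Nat.Coprime a (p * q)]
    apply Nat.add_le_add_left
    refine le_trans (card_le_card ?_) (card_union_le _ _)
    intro a ha
    rw [mem_filter, mem_Icc] at ha
    rw [mem_union, mem_filter, mem_filter, mem_Ioc]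
    by_contra hcon
    push Not at hcon
    have h5 : 0 < a ∧ a ≤ A := ⟨by omega, by omega⟩
    apply ha.2
    apply Nat.Coprime.mul_right
    · exact ((Nat.Prime.coprime_iff_not_dvd hp).2 (hcon.1 h5)).symm
    · exact ((Nat.Prime.coprime_iff_not_dvd hq).2 (hcon.2 h5)).symm
  rw [Nat.card_Icc, Nat.add_sub_cancel, Nat.Ioc_filter_dvd_card_eq_div,
    Nat.Ioc_filter_dvd_card_eq_div] at h1
  have h2 : ((A / q : ℕ) : ℝ) ≤ (A : ℝ) / 5 := by
    refine Nat.cast_div_le.trans ?_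
    apply div_le_div_of_nonneg_left (Nat.cast_nonneg _) (by norm_num)
    exact_mod_cast hq5
  have h2' : ((A / p : ℕ) : ℝ) ≤ (A : ℝ) / 5 := by
    refine Nat.cast_div_le.trans ?_
    apply div_le_div_of_nonneg_left (Nat.cast_nonneg _) (by norm_num)
    exact_mod_cast hp5
  have h3 : (A : ℝ) ≤ ((Icc 1 A).filter fun a => Nat.Coprime a (p * q)).card +
      (((A / p : ℕ) : ℝ) + ((A / q : ℕ) : ℝ)) := by
    exact_mod_cast h1
  have h4 : (0 : ℝ) ≤ A := Nat.cast_nonneg _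
  linarith

lemma mulChar_norm_le {q : ℕ} [NeZero q] (χ : MulChar (ZMod q) ℂ) (x : ZMod q) : ‖χ x‖ ≤ 1 :=
  DirichletCharacter.norm_le_one χ x

lemma CC_le (r d : ℕ) (hr : 1 ≤ r) (hd : 1 ≤ d) : CC r d ≤ 27 * r * (d : ℝ) ^ 2 := by
  unfold CC
  have h1 : (1 : ℝ) ≤ r := by exact_mod_cast hr
  have h2 : (1 : ℝ) ≤ d := by exact_mod_cast hd
  have h3 : (d : ℝ) ≤ (d : ℝ) ^ 2 := by nlinarith
  have h4 : (0 : ℝ) ≤ (r - 1) * (d : ℝ) ^ 2 := by
    apply mul_nonneg (by linarith) (by positivity)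
  have h5 : (0 : ℝ) ≤ r * ((d : ℝ) ^ 2 - d) := mul_nonneg (by linarith) (by linarith)
  nlinarith

/-- Burgess' theorem for characters of small order modulo a prime. -/
theorem sum_small_prime (δ κ : ℝ) (hδ : 0 < δ) (hκ : 0 < κ) (hκ1 : κ ≤ 1) :
    ∃ N₀ : ℝ, 1 ≤ N₀ ∧ ∀ q : ℕ, ∀ _ : Fact q.Prime, N₀ ≤ q → ∀ χ : MulChar (ZMod q) ℂ, χ ≠ 1 →
      ∀ d : ℕ, χ ^ d = 1 → d ∣ q - 1 → (d : ℝ) ≤ (q : ℝ) ^ (δ / 16) →
      ∀ H : ℕ, (q : ℝ) ^ (1 / 4 + δ) ≤ H → (H : ℝ) ^ 2 ≤ q →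
        ‖SS (χ : ZMod q →* ℂ) H‖ ≤ κ * H := by
  obtain ⟨r, hr6, N₁, hN₁, hmain⟩ := burgess_asymp δ κ hδ hκ hκ1
  obtain ⟨X1, hX11, hX1⟩ := exists_rpow_ge (δ / 8) (27 * r) (by positivity)
  refine ⟨max (max N₁ X1) 5, le_max_of_le_right (by norm_num), ?_⟩
  intro q hq hN χ hχ d hd hdq hdle H hH hH2
  have hNeZero : NeZero q := ⟨hq.out.ne_zero⟩
  have hq5 : (5 : ℝ) ≤ q := (le_max_right _ _).trans hN
  have hq5' : 5 ≤ q := by exact_mod_cast hq5
  have hqpos : (0 : ℝ) < q := by linarith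
  have hd2 := two_le_order χ hχ d hd hdq
  apply hmain q hNeZero (((le_max_left _ _).trans (le_max_left _ _)).trans hN)
  · exact fun x => mulChar_norm_le χ x
  · exact coprime_count_prime hq.out hq5'
  · intro β β' hβ hβ' hu
    have hrR : (6 : ℝ) ≤ r := by exact_mod_cast hr6
    have hlt : (q : ℝ) ^ (1 / (2 * r : ℝ)) < q := by
      calc (q : ℝ) ^ (1 / (2 * r : ℝ)) < (q : ℝ) ^ (1 : ℝ) := by
            apply Real.rpow_lt_rpow_of_exponent_lt (by linarith)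
            rw [div_lt_one (by positivity)]; linarith
        _ = q := Real.rpow_one _
    have h1 : ∀ i, β i < q := by
      intro i
      have := lt_of_le_of_lt (hβ i) hlt
      exact_mod_cast this
    have h2 : ∀ i, β' i < q := by
      intro i
      have := lt_of_le_of_lt (hβ' i) hlt
      exact_mod_cast this
    refine (complete_sum_prime χ hχ d hd hdq β β' q le_rfl h1 h2 hu).trans ?_
    apply mul_le_mul_of_nonneg_right _ (Real.sqrt_nonneg _)
    refine (CC_le r d (by omega) (by omega)).trans ?_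
    have h3 : 27 * (r : ℝ) ≤ (q : ℝ) ^ (δ / 8) :=
      hX1 q (((le_max_right _ _).trans (le_max_left _ _)).trans hN)
    have h4 : (d : ℝ) ^ 2 ≤ (q : ℝ) ^ (δ / 8) := by
      calc (d : ℝ) ^ 2 ≤ ((q : ℝ) ^ (δ / 16)) ^ 2 := pow_le_pow_left₀ (Nat.cast_nonneg _) hdle 2
        _ = (q : ℝ) ^ (δ / 8) := by
            rw [← Real.rpow_natCast, ← Real.rpow_mul hqpos.le]; congr 1; push_cast; ring
    calc 27 * (r : ℝ) * (d : ℝ) ^ 2 ≤ (q : ℝ) ^ (δ / 8) * (q : ℝ) ^ (δ / 8) :=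
          mul_le_mul h3 h4 (by positivity) (by positivity)
      _ = (q : ℝ) ^ (δ / 4) := by rw [← Real.rpow_add hqpos]; congr 1; ring
  · exact hH
  · exact hH2

/-- Burgess' theorem for products of two quadratic characters. -/
theorem sum_small_two (δ κ : ℝ) (hδ : 0 < δ) (hκ : 0 < κ) (hκ1 : κ ≤ 1) :
    ∃ N₀ : ℝ, 1 ≤ N₀ ∧ ∀ p q : ℕ, ∀ _ : Fact p.Prime, ∀ _ : Fact q.Prime, p ≠ q →
      N₀ ≤ (p * q : ℕ) → ((p * q : ℕ) : ℝ) ^ (1 / 12 : ℝ) < p →
      ((p * q : ℕ) : ℝ) ^ (1 / 12 : ℝ) < q →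
      ∀ χ : MulChar (ZMod p) ℂ, ∀ ψ : MulChar (ZMod q) ℂ, χ ≠ 1 → ψ ≠ 1 → χ ^ 2 = 1 → ψ ^ 2 = 1 →
      ∀ H : ℕ, ((p * q : ℕ) : ℝ) ^ (1 / 4 + δ) ≤ H → (H : ℝ) ^ 2 ≤ (p * q : ℕ) →
        ‖SS (prodChar (χ : ZMod p →* ℂ) (ψ : ZMod q →* ℂ)) H‖ ≤ κ * H := by
  obtain ⟨r, hr6, N₁, hN₁, hmain⟩ := burgess_asymp δ κ hδ hκ hκ1
  obtain ⟨X1, hX11, hX1⟩ := exists_rpow_ge (δ / 4) (CC r 2 * CC r 2) (by positivity)
  obtain ⟨X2, hX21, hX2⟩ := exists_rpow_ge (1 / 12) 5 (by norm_num)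
  refine ⟨max (max N₁ X1) X2, le_max_of_le_right hX21, ?_⟩
  intro p q hp hq hpq hN hp12 hq12 χ ψ hχ hψ hχ2 hψ2 H hH hH2
  have hN5 : (5 : ℝ) ≤ ((p * q : ℕ) : ℝ) ^ (1 / 12 : ℝ) := hX2 _ ((le_max_right _ _).trans hN)
  have hp5 : 5 ≤ p := by
    have : (5 : ℝ) < p := lt_of_le_of_lt hN5 hp12
    exact_mod_cast this.le
  have hq5 : 5 ≤ q := by
    have : (5 : ℝ) < q := lt_of_le_of_lt hN5 hq12
    exact_mod_cast this.le
  have hNp : NeZero p := ⟨hp.out.ne_zero⟩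
  have hNq : NeZero q := ⟨hq.out.ne_zero⟩
  have hNeZero : NeZero (p * q) := ⟨mul_ne_zero hp.out.ne_zero hq.out.ne_zero⟩
  have hN1 : (1 : ℝ) ≤ ((p * q : ℕ) : ℝ) :=
    hN₁.trans (((le_max_left _ _).trans (le_max_left _ _)).trans hN)
  apply hmain (p * q) hNeZero (((le_max_left _ _).trans (le_max_left _ _)).trans hN)
  · intro x
    rw [prodChar_apply, norm_mul]
    exact mul_le_one₀ (mulChar_norm_le χ _) (norm_nonneg _) (mulChar_norm_le ψ _)
  · exact coprime_count_two hp.out hq.out hp5 hq5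
  · intro β β' hβ hβ' hu
    have hrR : (6 : ℝ) ≤ r := by exact_mod_cast hr6
    have hle : ((p * q : ℕ) : ℝ) ^ (1 / (2 * r : ℝ)) ≤ ((p * q : ℕ) : ℝ) ^ (1 / 12 : ℝ) := by
      apply Real.rpow_le_rpow_of_exponent_le hN1
      apply one_div_le_one_div_of_le <;> linarith
    have a1 : ∀ i, β i < p := fun i => by
      have := lt_of_le_of_lt ((hβ i).trans hle) hp12
      exact_mod_cast this
    have a2 : ∀ i, β' i < p := fun i => by
      have := lt_of_le_of_lt ((hβ' i).trans hle) hp12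
      exact_mod_cast this
    have b1 : ∀ i, β i < q := fun i => by
      have := lt_of_le_of_lt ((hβ i).trans hle) hq12
      exact_mod_cast this
    have b2 : ∀ i, β' i < q := fun i => by
      have := lt_of_le_of_lt ((hβ' i).trans hle) hq12
      exact_mod_cast this
    have hcop : Nat.Coprime p q := (Nat.coprime_primes hp.out hq.out).2 hpq
    have hd : ∀ s : ℕ, s.Prime → 5 ≤ s → 2 ∣ s - 1 := by
      intro s hs hs5
      have : s % 2 = 1 := hs.eq_two_or_odd.resolve_left (by omega)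
      omega
    have c1 := complete_sum_prime χ hχ 2 hχ2 (hd p hp.out hp5) β β' p le_rfl a1 a2 hu
    have c2 := complete_sum_prime ψ hψ 2 hψ2 (hd q hq.out hq5) β β' q le_rfl b1 b2 hu
    have c3 := TT_prodChar hcop (χ : ZMod p →* ℂ) (ψ : ZMod q →* ℂ) β β'
    have c4 : ‖TT (N := p * q) (prodChar (χ : ZMod p →* ℂ) (ψ : ZMod q →* ℂ)) β β'‖ ≤
        (CC r 2 * √p) * (CC r 2 * √q) := by
      rw [c3, norm_mul]
      exact mul_le_mul c1 c2 (norm_nonneg _) (mul_nonneg (CC_nonneg _ _) (Real.sqrt_nonneg _))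
    refine c4.trans ?_
    have c5 : √((p * q : ℕ) : ℝ) = √p * √q := by
      push_cast
      rw [Real.sqrt_mul (Nat.cast_nonneg _)]
    have c6 : CC r 2 * CC r 2 ≤ ((p * q : ℕ) : ℝ) ^ (δ / 4) :=
      hX1 _ (((le_max_right _ _).trans (le_max_left _ _)).trans hN)
    rw [c5]
    calc (CC r 2 * √p) * (CC r 2 * √q) = CC r 2 * CC r 2 * (√p * √q) := by ring
      _ ≤ _ := mul_le_mul_of_nonneg_right c6 (by positivity)
  · exact hH
  · exact hH2

end Pool.Agent.Lib.Burgess
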