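import Pool.Agent.Lib.Burgess.PolySum

/-!
# Complete sums of products of shifted characters
-/

set_option autoImplicit false
open Polynomial Finset ComplexConjugate

namespace Pool.Agent.Lib.Burgess

/-- the complete sum attached to two tuples of shifts -/
noncomputable def TT {N : ℕ} [NeZero N] (χ : ZMod N →* ℂ) {r : ℕ} (β β' : Fin r → ℕ) : ℂ :=
  ∑ x : ZMod N, (∏ i, χ (x + β i)) * ∏ i, conj (χ (x + β' i))

/-- some value occurs exactly once in the tuple `β` and not in `β'` -/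
def UniqL {r : ℕ} (β β' : Fin r → ℕ) : Prop :=
  ∃ i0, (∀ i, i ≠ i0 → β i ≠ β i0) ∧ ∀ i, β' i ≠ β i0

lemma TT_conj {N : ℕ} [NeZero N] (χ : ZMod N →* ℂ) {r : ℕ} (β β' : Fin r → ℕ) :
    TT χ β' β = conj (TT χ β β') := by
  unfold TT
  rw [map_sum]
  apply sum_congr rfl
  intro x _
  rw [map_mul, map_prod, map_prod, mul_comm]
  simp only [Complex.conj_conj]

/-- the constant -/
def CC (r d : ℕ) : ℝ := 2 * d * (5 * (r * d) + 8) + r * d

lemma CC_nonneg (r d : ℕ) : 0 ≤ CC r d := by unfold CC; positivity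

section prime
variable {p : ℕ} [hp : Fact p.Prime]

lemma two_le_order (χ : MulChar (ZMod p) ℂ) (hχ : χ ≠ 1) (d : ℕ) (hd : χ ^ d = 1)
    (hdp : d ∣ p - 1) : 2 ≤ d := by
  have hp2 := hp.out.two_le
  by_contra h
  have : d = 0 ∨ d = 1 := by omega
  rcases this with rfl | rfl
  · rw [zero_dvd_iff] at hdp; omega
  · rw [pow_one] at hd; exact hχ hd

lemma conj_eq_pow (χ : MulChar (ZMod p) ℂ) (hχ : χ ≠ 1) (d : ℕ) (hd : χ ^ d = 1)
    (hdp : d ∣ p - 1) (y : ZMod p) : conj (χ y) = χ y ^ (d - 1) := by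
  have h2 := two_le_order χ hχ d hd hdp
  by_cases hy : y = 0
  · rw [hy, MulChar.map_zero, map_zero, zero_pow (by omega)]
  · have h1 : χ y ^ d = 1 := by
      have h1 : (χ ^ d) y = 1 := by
        rw [hd]
        exact MulChar.one_apply (isUnit_iff_ne_zero.2 hy)
      rwa [MulChar.pow_apply' χ (by omega)] at h1
    have h3 : ‖χ y‖ = 1 := by
      have h1 : ‖χ y‖ ^ d = 1 := by rw [← norm_pow, h1, norm_one]
      exact (pow_eq_one_iff_of_nonneg (norm_nonneg _) (by omega)).1 h1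
    have h4 : χ y * χ y ^ (d - 1) = 1 := by
      rw [← pow_succ', Nat.sub_add_cancel (by omega), h1]
    have h5 : χ y * conj (χ y) = 1 := by
      rw [Complex.mul_conj, Complex.normSq_eq_norm_sq, h3]; norm_num
    have h6 : χ y ≠ 0 := by
      intro h; rw [h, zero_mul] at h4; exact zero_ne_one h4
    exact mul_left_cancel₀ h6 (h5.trans h4.symm)

lemma complete_sum_aux (χ : MulChar (ZMod p) ℂ) (hχ : χ ≠ 1) (d : ℕ) (hd : χ ^ d = 1)
    (hdp : d ∣ p - 1) {r : ℕ} (b b' : Fin r → ZMod p) (i0 : Fin r)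
    (h1 : ∀ i, i ≠ i0 → b i ≠ b i0) (h2 : ∀ i, b' i ≠ b i0) :
    ‖∑ x : ZMod p, (∏ i, χ (x + b i)) * ∏ i, conj (χ (x + b' i))‖ ≤ CC r d * √p := by
  classical
  have hd2 := two_le_order χ hχ d hd hdp
  have hp2 := hp.out.two_le
  set f1 : (ZMod p)[X] := (∏ i ∈ univ.erase i0, (X + C (b i - b i0))) *
    (∏ i, (X + C (b' i - b i0))) ^ (d - 1) with hf1
  set f : (ZMod p)[X] := X * f1 with hf
  have hf' : f = (∏ i, (X + C (b i - b i0))) * (∏ i, (X + C (b' i - b i0))) ^ (d - 1) := by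
    rw [hf, hf1, ← mul_assoc]
    congr 1
    rw [← mul_prod_erase univ _ (mem_univ i0), sub_self, C_0, add_zero]
  have hc : f1.coeff 0 ≠ 0 := by
    rw [coeff_zero_eq_eval_zero, hf1, eval_mul, eval_prod, eval_pow, eval_prod]
    apply mul_ne_zero
    · rw [prod_ne_zero_iff]
      intro i hi
      rw [mem_erase] at hi
      simp only [eval_add, eval_X, eval_C, zero_add]
      exact sub_ne_zero.2 (h1 i hi.1)
    · apply pow_ne_zero
      rw [prod_ne_zero_iff]
      intro i _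
      simp only [eval_add, eval_X, eval_C, zero_add]
      exact sub_ne_zero.2 (h2 i)
  have hdeg : f.natDegree ≤ r * d := by
    rw [hf']
    have e1 : (∏ i, (X + C (b i - b i0))).natDegree ≤ r := by
      refine (natDegree_prod_le _ _).trans ?_
      refine (sum_le_sum fun i _ => (natDegree_X_add_C _).le).trans ?_
      simp
    have e2 : (∏ i, (X + C (b' i - b i0))).natDegree ≤ r := by
      refine (natDegree_prod_le _ _).trans ?_
      refine (sum_le_sum fun i _ => (natDegree_X_add_C _).le).trans ?_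
      simp
    refine natDegree_mul_le.trans ?_
    have e3 : ((∏ i, (X + C (b' i - b i0))) ^ (d - 1)).natDegree ≤ (d - 1) * r :=
      natDegree_pow_le.trans (Nat.mul_le_mul_left _ e2)
    have e4 : r + (d - 1) * r = r * d := by
      have : r + (d - 1) * r = r * (d - 1 + 1) := by ring
      rw [this, Nat.sub_add_cancel (by omega)]
    omega
  have hsum : ∑ x : ZMod p, (∏ i, χ (x + b i)) * ∏ i, conj (χ (x + b' i)) =
      ∑ x : ZMod p, χ (f.eval x) := by
    rw [← (Equiv.subRight (b i0)).sum_comp]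
    apply sum_congr rfl
    intro x _
    rw [hf', eval_mul, eval_prod, eval_pow, eval_prod, map_mul, map_pow, map_prod, map_prod,
      ← prod_pow]
    congr 1
    · apply prod_congr rfl
      intro i _
      simp only [Equiv.subRight_apply, eval_add, eval_X, eval_C]
      congr 1; ring
    · apply prod_congr rfl
      intro i _
      rw [conj_eq_pow χ hχ d hd hdp]
      simp only [Equiv.subRight_apply, eval_add, eval_X, eval_C]
      congr 2; ring
  rw [hsum]
  refine (char_sum_poly χ hχ d hd hdp (r * d) f f1 hf hc hdeg).trans ?_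
  have h3 : (1 : ℝ) ≤ √p := by
    rw [Real.one_le_sqrt]
    exact_mod_cast (by omega : 1 ≤ p)
  have h4 : (0 : ℝ) ≤ (r : ℝ) * d := by positivity
  unfold CC
  push_cast
  nlinarith

/-- the complete sum bound for a prime modulus -/
theorem complete_sum_prime (χ : MulChar (ZMod p) ℂ) (hχ : χ ≠ 1) (d : ℕ) (hd : χ ^ d = 1)
    (hdp : d ∣ p - 1) {r : ℕ} (β β' : Fin r → ℕ) (B : ℕ) (hB : B ≤ p) (hβ : ∀ i, β i < B)
    (hβ' : ∀ i, β' i < B) (hu : UniqL β β') :
    ‖TT (χ : ZMod p →* ℂ) β β'‖ ≤ CC r d * √p := by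
  obtain ⟨i0, h1, h2⟩ := hu
  have hinj : ∀ a b : ℕ, a < B → b < B → a ≠ b → (a : ZMod p) ≠ (b : ZMod p) := by
    intro a b ha hb hab h
    rw [ZMod.natCast_eq_natCast_iff'] at h
    rw [Nat.mod_eq_of_lt (by omega), Nat.mod_eq_of_lt (by omega)] at h
    exact hab h
  exact complete_sum_aux χ hχ d hd hdp (fun i => (β i : ZMod p)) (fun i => (β' i : ZMod p)) i0
    (fun i hi => hinj _ _ (hβ i) (hβ i0) (h1 i hi))
    (fun i => hinj _ _ (hβ' i) (hβ i0) (h2 i))

end prime

section composite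

/-- product of two characters modulo `p * q` -/
noncomputable def prodChar {p q : ℕ} (χ : ZMod p →* ℂ) (ψ : ZMod q →* ℂ) : ZMod (p * q) →* ℂ :=
  (χ.comp (ZMod.castHom (Dvd.intro _ rfl) (ZMod p) : ZMod (p * q) →+* ZMod p).toMonoidHom) *
    (ψ.comp (ZMod.castHom (Dvd.intro_left _ rfl) (ZMod q) : ZMod (p * q) →+* ZMod q).toMonoidHom)

lemma prodChar_apply {p q : ℕ} (χ : ZMod p →* ℂ) (ψ : ZMod q →* ℂ) (x : ZMod (p * q)) :
    prodChar χ ψ x = χ (ZMod.castHom (Dvd.intro _ rfl) (ZMod p) x) *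
      ψ (ZMod.castHom (Dvd.intro_left _ rfl) (ZMod q) x) := rfl

lemma TT_prodChar {p q : ℕ} [NeZero p] [NeZero q] (h : Nat.Coprime p q) (χ : ZMod p →* ℂ)
    (ψ : ZMod q →* ℂ) {r : ℕ} (β β' : Fin r → ℕ) :
    TT (N := p * q) (prodChar χ ψ) β β' = TT χ β β' * TT ψ β β' := by
  unfold TT
  rw [sum_mul_sum, ← sum_product', univ_product_univ]
  rw [← (ZMod.chineseRemainder h).toEquiv.sum_comp
    (fun z : ZMod p × ZMod q => ((∏ i, χ (z.1 + β i)) * ∏ i, conj (χ (z.1 + β' i))) *
      ((∏ i, ψ (z.2 + β i)) * ∏ i, conj (ψ (z.2 + β' i))))]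
  apply sum_congr rfl
  intro x _
  have h1 : ∀ b : ℕ, prodChar χ ψ (x + b) =
      χ (((ZMod.chineseRemainder h).toEquiv x).1 + b) *
      ψ (((ZMod.chineseRemainder h).toEquiv x).2 + b) := by
    intro b
    have e1 : (ZMod.castHom (Dvd.intro _ rfl) (ZMod p) : ZMod (p * q) →+* ZMod p) (x + b) =
        ((ZMod.chineseRemainder h).toEquiv x).1 + b := by
      have e0 : (ZMod.castHom (Dvd.intro _ rfl) (ZMod p) : ZMod (p * q) →+* ZMod p) =
        (RingHom.fst _ _).comp (ZMod.chineseRemainder h : ZMod (p * q) →+* ZMod p × ZMod q) :=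
        Subsingleton.elim _ _
      rw [map_add, map_natCast, e0]; rfl
    have e2 : (ZMod.castHom (Dvd.intro_left _ rfl) (ZMod q) : ZMod (p * q) →+* ZMod q) (x + b) =
        ((ZMod.chineseRemainder h).toEquiv x).2 + b := by
      have e0 : (ZMod.castHom (Dvd.intro_left _ rfl) (ZMod q) : ZMod (p * q) →+* ZMod q) =
        (RingHom.snd _ _).comp (ZMod.chineseRemainder h : ZMod (p * q) →+* ZMod p × ZMod q) :=
        Subsingleton.elim _ _
      rw [map_add, map_natCast, e0]; rfl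
    rw [prodChar_apply, e1, e2]
  simp only [h1, map_mul, prod_mul_distrib]
  ring

end composite

end Pool.Agent.Lib.Burgess
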