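import Pool.Agent.Lib.Burgess.Stepanov

/-!
# The bound of Stepanov with a square root error term
-/

set_option autoImplicit false
open Polynomial Finset

namespace Pool.Agent.Lib.Burgess

variable {p : ℕ} [hp : Fact p.Prime]

/-- Stepanov's bound for the number of `x` with `f x ^ D = ω`. -/
theorem stepanov (d D m : ℕ) (hdD : d * D = p - 1) (f f1 : (ZMod p)[X])
    (hf : f = X * f1) (hf1 : f1.coeff 0 ≠ 0) (hm : f.natDegree ≤ m) (ω : ZMod p) :
    ((univ.filter fun x : ZMod p => f.eval x ≠ 0 ∧ f.eval x ^ D = ω).card : ℝ) ≤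
      p / d + (5 * m + 8) * √p := by
  have hp2 := hp.out.two_le
  have hd : 0 < d := by
    rcases Nat.eq_zero_or_pos d with h | h
    · rw [h, zero_mul] at hdD; omega
    · exact h
  have hpR : (2 : ℝ) ≤ p := by exact_mod_cast hp2
  have hdR : (1 : ℝ) ≤ d := by exact_mod_cast hd
  have hmR : (0 : ℝ) ≤ m := Nat.cast_nonneg _
  have hsq : √(p : ℝ) ^ 2 = p := Real.sq_sqrt (by linarith)
  have hs0 : 0 ≤ √(p : ℝ) := Real.sqrt_nonneg _
  have hpd : 0 ≤ (p : ℝ) / d := by positivity
  set S := univ.filter fun x : ZMod p => f.eval x ≠ 0 ∧ f.eval x ^ D = ω with hS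
  rcases lt_or_ge (√(p : ℝ)) (m + 5) with hsmall | hbig
  · have h1 : (S.card : ℝ) ≤ p := by
      have : S.card ≤ p := (card_le_univ S).trans (ZMod.card p).le
      exact_mod_cast this
    nlinarith
  · set l := Nat.sqrt p with hl
    have hl1 : l * l ≤ p := Nat.sqrt_le p
    have hl2 : p < (l + 1) * (l + 1) := Nat.lt_succ_sqrt p
    have hlm : m + 5 ≤ l := by
      rw [hl, Nat.le_sqrt]
      have h1 : ((m : ℝ) + 5) * (m + 5) ≤ p := by nlinarith
      exact_mod_cast h1
    set J := l / d + (m + 3) with hJ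
    have hfl : l < d * (l / d + 1) := Nat.lt_mul_div_succ l hd
    have hfl2 : (l / d) * d ≤ l := Nat.div_mul_le_self l d
    have hfl3 : l / d ≤ l := Nat.div_le_self l d
    have hlp : l ≤ p := Nat.sqrt_le_self p
    have hdim : l * (D + m * l + J) < d * (J * D) := by
      have e1 : d * (J * D) = (l / d + 1) * d * D + (m + 2) * (p - 1) := by
        rw [← hdD, hJ]; ring
      have e2 : (l + 1) * D ≤ (l / d + 1) * d * D := by
        apply Nat.mul_le_mul_right
        rw [mul_comm (l / d + 1) d]; exact hfl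
      have e3 : l * (l / d) ≤ p := (Nat.mul_le_mul_left l hfl3).trans hl1
      have e4 : m * (l * l) ≤ m * p := Nat.mul_le_mul_left m hl1
      have e5 : (m + 2) * (p - 1) + (m + 2) = m * p + 2 * p := by
        have : (m + 2) * (p - 1) + (m + 2) = (m + 2) * (p - 1 + 1) := by ring
        rw [this, Nat.sub_add_cancel (by omega)]; ring
      have e6 : l * (m + 5) ≤ l * l := Nat.mul_le_mul_left l hlm
      have e7 : l * (D + m * l + J) = l * D + m * (l * l) + l * (l / d) + l * (m + 3) := by
        rw [hJ]; ring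
      have e8 : l * (m + 5) = l * (m + 3) + 2 * l := by ring
      have e9 : (l + 1) * D = l * D + D := by ring
      rw [e1, e7]
      omega
    have hmain : l * S.card ≤ m * l + m * (p - 1) + D + J * p :=
      stepanov_aux d D m l J hdD f f1 hf hf1 hm ω hlp hdim
    have hDp : D ≤ p := by
      have : D ≤ d * D := Nat.le_mul_of_pos_left D hd
      omega
    have h1 : l * S.card ≤ m * l + m * p + p + J * p := by
      have e1 : m * (p - 1) ≤ m * p := Nat.mul_le_mul_left m (by omega)
      omega
    have h2 : (l : ℝ) * S.card ≤ m * l + m * p + p + (l / d + (m + 3)) * p := by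
      have h3 : ((l * S.card : ℕ) : ℝ) ≤ ((m * l + m * p + p + J * p : ℕ) : ℝ) := by
        exact_mod_cast h1
      push_cast at h3
      have h4 : ((l / d : ℕ) : ℝ) ≤ (l : ℝ) / d := Nat.cast_div_le
      have h5 : (J : ℝ) ≤ (l : ℝ) / d + (m + 3) := by
        rw [hJ]; push_cast; linarith
      have h6 : (J : ℝ) * p ≤ ((l : ℝ) / d + (m + 3)) * p :=
        mul_le_mul_of_nonneg_right h5 (by linarith)
      linarith
    have hlR : (5 : ℝ) ≤ l := by
      have : 5 ≤ l := by omega
      exact_mod_cast this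
    have hlsq : √(p : ℝ) ≤ l + 1 := by
      rw [Real.sqrt_le_left (by linarith)]
      have : (p : ℝ) ≤ (l + 1) * (l + 1) := by exact_mod_cast hl2.le
      nlinarith
    have hpl : (p : ℝ) ≤ 2 * √p * l := by
      nlinarith
    -- conclude
    have h7 : (l : ℝ) * S.card ≤ l * (p / d + (5 * m + 8) * √p) := by
      have e1 : (l : ℝ) / d * p = l * (p / d) := by ring
      have e2 : (m : ℝ) * l ≤ m * l * √p := by
        have : 1 ≤ √(p : ℝ) := by linarith
        nlinarith [mul_nonneg hmR (by linarith : (0:ℝ) ≤ l)]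
      have e3 : (m : ℝ) * p + p + (m + 3) * p ≤ (2 * m + 4) * (2 * √p * l) := by nlinarith
      nlinarith
    exact le_of_mul_le_mul_left h7 (by linarith)

end Pool.Agent.Lib.Burgess
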