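import Pool.Agent.Lib.Burgess.Moment

/-!
# The basic inequality of Burgess
-/

set_option autoImplicit false
open Finset ComplexConjugate

namespace Pool.Agent.Lib.Burgess

variable {N : ℕ} [NeZero N]

/-- the incomplete sum -/
noncomputable def SS (χ : ZMod N →* ℂ) (H : ℕ) : ℂ := ∑ n ∈ Icc 1 H, χ n

lemma norm_sum_Ico_le (χ : ZMod N →* ℂ) (hχ : ∀ x, ‖χ x‖ ≤ 1) (a b : ℕ) :
    ‖∑ n ∈ Ico a b, χ (n : ZMod N)‖ ≤ (b - a : ℕ) := by
  have h : ∀ n ∈ Ico a b, ‖χ (n : ZMod N)‖ ≤ 1 := fun n _ => hχ _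
  refine (norm_sum_le _ _).trans ((sum_le_sum h).trans ?_)
  rw [sum_const, nsmul_eq_mul, mul_one, Nat.card_Ico]

lemma shift_le (χ : ZMod N →* ℂ) (hχ : ∀ x, ‖χ x‖ ≤ 1) (H t : ℕ) :
    ‖SS χ H - ∑ n ∈ Icc 1 H, χ ((n : ZMod N) + t)‖ ≤ 2 * t := by
  have h1 : ∑ n ∈ Icc 1 H, χ ((n : ZMod N) + t) = ∑ n ∈ Ico (1 + t) (H + 1 + t), χ (n : ZMod N) := by
    rw [← sum_Ico_add' (fun n : ℕ => χ (n : ZMod N)) 1 (H + 1) t]
    apply sum_congr
    · ext n; rw [mem_Icc, mem_Ico]; omega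
    · intro n _; push_cast; rfl
  have h2 : SS χ H = ∑ n ∈ Ico 1 (H + 1), χ (n : ZMod N) := by
    unfold SS
    apply sum_congr _ fun _ _ => rfl
    ext n; rw [mem_Icc, mem_Ico]; omega
  have h3 := sum_Ico_consecutive (fun n : ℕ => χ (n : ZMod N)) (show 1 ≤ H + 1 by omega)
    (show H + 1 ≤ H + 1 + t by omega)
  have h4 := sum_Ico_consecutive (fun n : ℕ => χ (n : ZMod N)) (show 1 ≤ 1 + t by omega)
    (show 1 + t ≤ H + 1 + t by omega)
  have h5 : SS χ H - ∑ n ∈ Icc 1 H, χ ((n : ZMod N) + t) =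
      ∑ n ∈ Ico 1 (1 + t), χ (n : ZMod N) - ∑ n ∈ Ico (H + 1) (H + 1 + t), χ (n : ZMod N) := by
    rw [h1, h2]
    linear_combination h3 - h4
  rw [h5]
  refine (norm_sub_le _ _).trans ?_
  have h6 := norm_sum_Ico_le χ hχ 1 (1 + t)
  have h7 := norm_sum_Ico_le χ hχ (H + 1) (H + 1 + t)
  have e6 : 1 + t - 1 = t := by omega
  have e7 : H + 1 + t - (H + 1) = t := by omega
  rw [e6] at h6
  rw [e7] at h7
  linarith

/-- the basic inequality -/
theorem burgess_ineq (χ : ZMod N →* ℂ) (hχ : ∀ x, ‖χ x‖ ≤ 1) (r : ℕ) (hr : 1 ≤ r) (A B H : ℕ)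
    (P : Finset ℕ) (hP : ∀ a ∈ P, 1 ≤ a ∧ a ≤ A ∧ Nat.Coprime a N) (hAH : A * H < N) (Dv : ℝ)
    (hDv : ∀ m, 1 ≤ m → m ≤ A * H → (m.divisors.card : ℝ) ≤ Dv) (M : ℝ)
    (hM : ∑ u : ZMod N, ‖∑ b ∈ range B, χ (u + b)‖ ^ (2 * r) ≤ M) :
    ∃ W : ℝ, 0 ≤ W ∧ (P.card * B : ℝ) * ‖SS χ H‖ ≤ W + 2 * (A * B) * (P.card * B) ∧
      W ^ (2 * r) ≤ ((P.card : ℝ) * H) ^ (2 * r - 1) * Dv * M := by
  classical
  set φ : ZMod N → ℝ := fun u => ‖∑ b ∈ range B, χ (u + b)‖ with hφ
  set Z := P ×ˢ Icc 1 H with hZ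
  set U : ℕ × ℕ → ZMod N := fun z => (z.1 : ZMod N)⁻¹ * z.2 with hU
  have hφ0 : ∀ u, 0 ≤ φ u := fun u => norm_nonneg _
  have hZcard : (Z.card : ℝ) = P.card * H := by
    rw [hZ, card_product, Nat.card_Icc, Nat.add_sub_cancel]; push_cast; rfl
  refine ⟨∑ z ∈ Z, φ (U z), sum_nonneg fun _ _ => hφ0 _, ?_, ?_⟩
  · -- the averaging step
    have h1 : ∀ a ∈ P, ∀ b ∈ range B, ‖SS χ H‖ ≤
        ‖SS χ H - ∑ n ∈ Icc 1 H, χ ((n : ZMod N) + ((a * b : ℕ) : ZMod N))‖ +
        ‖∑ n ∈ Icc 1 H, χ ((n : ZMod N) + ((a * b : ℕ) : ZMod N))‖ := by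
      intro a _ b _
      have := norm_add_le (SS χ H - ∑ n ∈ Icc 1 H, χ ((n : ZMod N) + ((a * b : ℕ) : ZMod N)))
        (∑ n ∈ Icc 1 H, χ ((n : ZMod N) + ((a * b : ℕ) : ZMod N)))
      rwa [sub_add_cancel] at this
    -- use sums before norms
    have h2 : (P.card * B : ℂ) * SS χ H =
        ∑ a ∈ P, ∑ b ∈ range B,
          (SS χ H - ∑ n ∈ Icc 1 H, χ ((n : ZMod N) + ((a * b : ℕ) : ZMod N))) +
        ∑ a ∈ P, ∑ n ∈ Icc 1 H, ∑ b ∈ range B, χ ((n : ZMod N) + ((a * b : ℕ) : ZMod N)) := by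
      rw [← sum_add_distrib]
      have e1 : ∀ a ∈ P, ∑ b ∈ range B,
          (SS χ H - ∑ n ∈ Icc 1 H, χ ((n : ZMod N) + ((a * b : ℕ) : ZMod N))) +
          ∑ n ∈ Icc 1 H, ∑ b ∈ range B, χ ((n : ZMod N) + ((a * b : ℕ) : ZMod N)) =
          B * SS χ H := by
        intro a _
        rw [sum_comm (s := Icc 1 H), ← sum_add_distrib]
        simp only [sub_add_cancel]
        rw [sum_const, card_range, nsmul_eq_mul]
      rw [sum_congr rfl e1, sum_const, nsmul_eq_mul, mul_assoc]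
    have h3 : ‖∑ a ∈ P, ∑ b ∈ range B,
          (SS χ H - ∑ n ∈ Icc 1 H, χ ((n : ZMod N) + ((a * b : ℕ) : ZMod N)))‖ ≤
        2 * (A * B) * (P.card * B) := by
      have e1 : ∀ a ∈ P, ‖∑ b ∈ range B,
          (SS χ H - ∑ n ∈ Icc 1 H, χ ((n : ZMod N) + ((a * b : ℕ) : ZMod N)))‖ ≤
          B * (2 * (A * B)) := by
        intro a ha
        obtain ⟨_, haA, _⟩ := hP a ha
        have e2 : ∀ b ∈ range B,
            ‖SS χ H - ∑ n ∈ Icc 1 H, χ ((n : ZMod N) + ((a * b : ℕ) : ZMod N))‖ ≤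
            2 * ((A : ℝ) * B) := by
          intro b hb
          refine (shift_le χ hχ H (a * b)).trans ?_
          have : a * b ≤ A * B := Nat.mul_le_mul haA (mem_range.1 hb).le
          have : ((a * b : ℕ) : ℝ) ≤ (A : ℝ) * B := by exact_mod_cast this
          linarith
        refine (norm_sum_le _ _).trans ((sum_le_sum e2).trans ?_)
        rw [sum_const, card_range, nsmul_eq_mul]
      refine (norm_sum_le _ _).trans ((sum_le_sum e1).trans ?_)
      rw [sum_const, nsmul_eq_mul]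
      apply le_of_eq; ring
    have h4 : ‖∑ a ∈ P, ∑ n ∈ Icc 1 H, ∑ b ∈ range B,
        χ ((n : ZMod N) + ((a * b : ℕ) : ZMod N))‖ ≤ ∑ z ∈ Z, φ (U z) := by
      rw [hZ, sum_product]
      refine (norm_sum_le _ _).trans (sum_le_sum fun a ha => ?_)
      refine (norm_sum_le _ _).trans (sum_le_sum fun n _ => ?_)
      obtain ⟨_, _, hcop⟩ := hP a ha
      have hunit : (a : ZMod N) * (a : ZMod N)⁻¹ = 1 := ZMod.coe_mul_inv_eq_one a hcop
      have e1 : ∀ b ∈ range B, χ ((n : ZMod N) + ((a * b : ℕ) : ZMod N)) =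
          χ a * χ ((a : ZMod N)⁻¹ * n + b) := by
        intro b _
        rw [← map_mul]
        congr 1
        push_cast
        rw [mul_add, ← mul_assoc, hunit, one_mul]
      rw [sum_congr rfl e1, ← mul_sum, norm_mul]
      calc ‖χ (a : ZMod N)‖ * ‖∑ b ∈ range B, χ ((a : ZMod N)⁻¹ * n + b)‖
          ≤ 1 * ‖∑ b ∈ range B, χ ((a : ZMod N)⁻¹ * n + b)‖ :=
            mul_le_mul_of_nonneg_right (hχ _) (norm_nonneg _)
        _ = φ (U (a, n)) := by rw [one_mul]
    have h5 : (P.card * B : ℝ) * ‖SS χ H‖ = ‖(P.card * B : ℂ) * SS χ H‖ := by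
      rw [norm_mul, norm_mul, Complex.norm_natCast, Complex.norm_natCast]
    rw [h5, h2]
    refine (norm_add_le _ _).trans ?_
    linarith
  · -- the Hoelder step
    obtain ⟨s, rfl⟩ : ∃ s, r = s + 1 := ⟨r - 1, by omega⟩
    rcases Finset.eq_empty_or_nonempty Z with hZe | hZn
    · rw [hZe, sum_empty, zero_pow (by omega)]
      have hM0 : 0 ≤ M := le_trans (sum_nonneg fun _ _ => by positivity) hM
      by_cases hAH0 : 1 ≤ A * H
      · have : 0 ≤ Dv := le_trans (Nat.cast_nonneg _) (hDv 1 le_rfl hAH0)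
        positivity
      · have h0 : (P.card : ℝ) * H = 0 := by
          rw [← hZcard, hZe]; simp
        rw [h0, zero_pow (by omega)]; simp
    have hZpos : 0 < (Z.card : ℝ) := by exact_mod_cast card_pos.2 hZn
    have hj := pow_sum_div_card_le_sum_pow (s := Z) (f := fun z => φ (U z))
      (fun z _ => hφ0 _) s
    rw [div_le_iff₀ (by positivity)] at hj
    -- fibres
    set ν : ZMod N → ℝ := fun u => ((Z.filter fun z => U z = u).card : ℝ) with hν
    have h6 : ∑ z ∈ Z, φ (U z) ^ (s + 1) = ∑ u : ZMod N, ν u * φ u ^ (s + 1) := by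
      rw [← sum_fiberwise_of_maps_to (s := Z) (t := univ) (g := U) (fun z _ => mem_univ _)]
      apply sum_congr rfl
      intro u _
      rw [sum_congr rfl (g := fun _ => φ u ^ (s + 1)), sum_const, nsmul_eq_mul]
      intro z hz
      rw [(mem_filter.1 hz).2]
    have h7 := sum_mul_sq_le_sq_mul_sq univ ν fun u => φ u ^ (s + 1)
    have h8 : ∑ u : ZMod N, (φ u ^ (s + 1)) ^ 2 ≤ M := by
      refine le_trans (le_of_eq ?_) hM
      apply sum_congr rfl
      intro u _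
      rw [← pow_mul, mul_comm (s + 1) 2]
    have h9 : ∑ u : ZMod N, ν u ^ 2 ≤ (P.card : ℝ) * H * Dv := by
      have e1 : ∑ u : ZMod N, ν u ^ 2 = ∑ z ∈ Z, ((Z.filter fun z' => U z = U z').card : ℝ) := by
        rw [← sum_fiberwise_of_maps_to (s := Z) (t := univ) (g := U) (fun z _ => mem_univ _)]
        apply sum_congr rfl
        intro u _
        rw [sum_congr rfl (g := fun _ => ν u), sum_const, nsmul_eq_mul, sq]
        intro z hz
        rw [(mem_filter.1 hz).2]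
        simp only [hν, eq_comm]
      set Q := (Z ×ˢ Z).filter fun q => U q.1 = U q.2 with hQ
      have e2 : ∑ z ∈ Z, ((Z.filter fun z' => U z = U z').card : ℝ) = (Q.card : ℝ) := by
        have h20 := sum_product Z Z (fun q => if U q.1 = U q.2 then 1 else 0)
        have h21 : Q.card = ∑ z ∈ Z, (Z.filter fun z' => U z = U z').card := by
          rw [hQ, card_filter, h20]
          apply sum_congr rfl
          intro z _
          rw [card_filter]
        rw [h21]; push_cast; rfl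
      have e3 : (Q.card : ℝ) = ∑ w ∈ Z, ((Q.filter fun q => (q.1.1, q.2.2) = w).card : ℝ) := by
        have : Q.card = ∑ w ∈ Z, (Q.filter fun q => (q.1.1, q.2.2) = w).card := by
          apply card_eq_sum_card_fiberwise
          intro q hq
          have hq' := mem_coe.1 hq
          rw [hQ, mem_filter, mem_product, hZ, mem_product, mem_product] at hq'
          rw [mem_coe, hZ, mem_product]
          exact ⟨hq'.1.1.1, hq'.1.2.2⟩
        exact_mod_cast this
      rw [e1, e2, e3, ← hZcard, ← nsmul_eq_mul]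
      apply sum_le_card_nsmul
      rintro ⟨a, n'⟩ hw
      rw [hZ, mem_product, mem_Icc] at hw
      obtain ⟨haP, hn1, hnH⟩ := hw
      obtain ⟨ha1, haA, haN⟩ := hP a haP
      dsimp only at haP hn1 hnH
      have hm1 : 1 ≤ a * n' := Nat.mul_pos ha1 hn1
      have hm2 : a * n' ≤ A * H := Nat.mul_le_mul haA hnH
      refine le_trans ?_ (hDv (a * n') hm1 hm2)
      -- the equation satisfied by elements of `Q`
      have heq : ∀ q ∈ Q, q.2.1 * q.1.2 = q.1.1 * q.2.2 := by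
        rintro ⟨⟨a1, n1⟩, ⟨a2, n2⟩⟩ hq
        rw [hQ, mem_filter, mem_product, hZ, mem_product, mem_product, mem_Icc, mem_Icc] at hq
        obtain ⟨⟨⟨h1P, h1n, h1H⟩, ⟨h2P, h2n, h2H⟩⟩, hUU⟩ := hq
        dsimp only at h1P h1n h1H h2P h2n h2H hUU ⊢
        obtain ⟨g1, g2, g3⟩ := hP a1 h1P
        obtain ⟨k1, k2, k3⟩ := hP a2 h2P
        have i1 : (a1 : ZMod N) * (a1 : ZMod N)⁻¹ = 1 := ZMod.coe_mul_inv_eq_one a1 g3
        have i2 : (a2 : ZMod N) * (a2 : ZMod N)⁻¹ = 1 := ZMod.coe_mul_inv_eq_one a2 k3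
        have h10 : (a2 : ZMod N) * n1 = a1 * n2 := by
          have : (a1 : ZMod N)⁻¹ * n1 = (a2 : ZMod N)⁻¹ * n2 := hUU
          calc (a2 : ZMod N) * n1 = a2 * (a1 * (a1 : ZMod N)⁻¹) * n1 := by rw [i1, mul_one]
            _ = a2 * a1 * ((a1 : ZMod N)⁻¹ * n1) := by ring
            _ = a2 * a1 * ((a2 : ZMod N)⁻¹ * n2) := by rw [this]
            _ = a1 * n2 * (a2 * (a2 : ZMod N)⁻¹) := by ring
            _ = a1 * n2 := by rw [i2, mul_one]
        have h11 : ((a2 * n1 : ℕ) : ZMod N) = ((a1 * n2 : ℕ) : ZMod N) := by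
          push_cast; exact h10
        rw [ZMod.natCast_eq_natCast_iff'] at h11
        have l1 : a2 * n1 < N := lt_of_le_of_lt (Nat.mul_le_mul k2 h1H) hAH
        have l2 : a1 * n2 < N := lt_of_le_of_lt (Nat.mul_le_mul g2 h2H) hAH
        rwa [Nat.mod_eq_of_lt l1, Nat.mod_eq_of_lt l2] at h11
      have h12 : (Q.filter fun q => (q.1.1, q.2.2) = (a, n')).card ≤ (a * n').divisors.card := by
        apply card_le_card_of_injOn (fun q => q.2.1)
        · intro q hq
          have hq' := mem_filter.1 (mem_coe.1 hq)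
          have hqe := heq q hq'.1
          have e4 := Prod.ext_iff.1 hq'.2
          dsimp only at e4
          rw [mem_coe, Nat.mem_divisors]
          refine ⟨⟨q.1.2, ?_⟩, by omega⟩
          rw [hqe, e4.1, e4.2]
        · intro q hq q' hq' hqq
          have h13 := mem_filter.1 (mem_coe.1 hq)
          have h14 := mem_filter.1 (mem_coe.1 hq')
          have hqe := heq q h13.1
          have hqe' := heq q' h14.1
          have e4 := Prod.ext_iff.1 h13.2
          have e5 := Prod.ext_iff.1 h14.2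
          dsimp only at e4 e5 hqq
          rw [e4.1, e4.2] at hqe
          rw [e5.1, e5.2, ← hqq, ← hqe] at hqe'
          have hpos : 0 < q.2.1 := by
            rcases Nat.eq_zero_or_pos q.2.1 with h0 | h0
            · rw [h0, zero_mul] at hqe; omega
            · exact h0
          have h15 : q'.1.2 = q.1.2 := Nat.eq_of_mul_eq_mul_left hpos hqe'
          apply Prod.ext
          · exact Prod.ext (e4.1.trans e5.1.symm) h15.symm
          · exact Prod.ext hqq (e4.2.trans e5.2.symm)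
      exact_mod_cast h12
    have hDv0 : 0 ≤ Dv := by
      obtain ⟨⟨a, n⟩, hz⟩ := hZn
      rw [hZ, mem_product, mem_Icc] at hz
      obtain ⟨haP, hn1, hnH⟩ := hz
      obtain ⟨ha1, haA, haN⟩ := hP a haP
      dsimp only at hn1 hnH ha1 haA
      have : 1 ≤ A * H := Nat.mul_pos (by omega) (by omega)
      exact le_trans (Nat.cast_nonneg _) (hDv 1 le_rfl this)
    set T := ∑ z ∈ Z, φ (U z) with hT
    have hT0 : 0 ≤ T := sum_nonneg fun _ _ => hφ0 _
    have h16 : T ^ (s + 1) ≤ (Z.card : ℝ) ^ s * ∑ u : ZMod N, ν u * φ u ^ (s + 1) := by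
      rw [← h6]
      linarith
    have h17 : (∑ u : ZMod N, ν u * φ u ^ (s + 1)) ^ 2 ≤ ((P.card : ℝ) * H * Dv) * M := by
      refine h7.trans ?_
      apply mul_le_mul h9 h8 (sum_nonneg fun _ _ => by positivity)
      positivity
    have h18 : (T ^ (s + 1)) ^ 2 ≤
        ((Z.card : ℝ) ^ s * ∑ u : ZMod N, ν u * φ u ^ (s + 1)) ^ 2 :=
      pow_le_pow_left₀ (by positivity) h16 2
    calc T ^ (2 * (s + 1)) = (T ^ (s + 1)) ^ 2 := by rw [← pow_mul, mul_comm]
      _ ≤ ((Z.card : ℝ) ^ s * ∑ u : ZMod N, ν u * φ u ^ (s + 1)) ^ 2 := h18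
      _ = ((Z.card : ℝ) ^ s) ^ 2 * (∑ u : ZMod N, ν u * φ u ^ (s + 1)) ^ 2 := by rw [mul_pow]
      _ ≤ ((Z.card : ℝ) ^ s) ^ 2 * (((P.card : ℝ) * H * Dv) * M) :=
          mul_le_mul_of_nonneg_left h17 (by positivity)
      _ = ((P.card : ℝ) * H) ^ (2 * (s + 1) - 1) * Dv * M := by
          rw [hZcard, show 2 * (s + 1) - 1 = s * 2 + 1 by omega]
          ring

end Pool.Agent.Lib.Burgess
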