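import Pool.Agent.Lib.DigitChanges.InertPrimes

/-!
# Reciprocals of primes in an interval
-/

set_option autoImplicit false
open Finset ArithmeticFunction

namespace Pool.Agent.Lib.Burgess

/-- partial sums of `Λ(d) / d` -/
noncomputable def SL (n : ℕ) : ℝ := ∑ d ∈ Ioc 0 n, vonMangoldt d / d

lemma SL_succ (n : ℕ) : SL (n + 1) = SL n + vonMangoldt (n + 1) / (n + 1 : ℕ) := by
  unfold SL
  rw [sum_Ioc_succ_top (by omega)]

lemma log_log_step (v : ℕ) (hv : 2 ≤ v) :
    (Real.log (v + 1 : ℕ) - Real.log v) / Real.log (v + 1 : ℕ) ≤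
      Real.log (Real.log (v + 1 : ℕ)) - Real.log (Real.log v) := by
  have hv' : (2 : ℝ) ≤ v := by exact_mod_cast hv
  have h1 : 0 < Real.log v := Real.log_pos (by linarith)
  have h2 : Real.log v ≤ Real.log (v + 1 : ℕ) := by
    apply Real.log_le_log (by linarith)
    push_cast; linarith
  have h3 : 0 < Real.log (v + 1 : ℕ) := by linarith
  have h4 : Real.log (Real.log v / Real.log (v + 1 : ℕ)) ≤
      Real.log v / Real.log (v + 1 : ℕ) - 1 := Real.log_le_sub_one_of_pos (by positivity)
  rw [Real.log_div h1.ne' h3.ne'] at h4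
  rw [sub_div, div_self h3.ne']
  linarith

lemma weighted_le (u v : ℕ) (hu : 2 ≤ u) (huv : u ≤ v) :
    ∑ n ∈ Ioc u v, vonMangoldt n / n / Real.log n ≤
      Real.log (Real.log v) - Real.log (Real.log u) + (SL v - Real.log v) / Real.log v -
        (SL u - Real.log u) / Real.log u + 6 * (1 / Real.log u - 1 / Real.log v) := by
  induction v, huv using Nat.le_induction with
  | base => simp
  | succ v huv ih =>
    have hv2 : 2 ≤ v := hu.trans huv
    have hv' : (2 : ℝ) ≤ v := by exact_mod_cast hv2
    rw [sum_Ioc_succ_top (by omega)]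
    have h1 : 0 < Real.log v := Real.log_pos (by linarith)
    have h2 : Real.log v ≤ Real.log (v + 1 : ℕ) := by
      apply Real.log_le_log (by linarith)
      push_cast; linarith
    have h3 : 0 < Real.log (v + 1 : ℕ) := by linarith
    have h4 := log_log_step v hv2
    have h5 : SL v ≤ Real.log v + 6 := Pool.Agent.DigitChanges.mertens_upper v (by omega)
    rw [SL_succ]
    set a : ℝ := vonMangoldt (v + 1) / (v + 1 : ℕ) with ha
    set L := Real.log v with hL
    set L' := Real.log (v + 1 : ℕ) with hL'
    have h6 : 1 / L' ≤ 1 / L := one_div_le_one_div_of_le h1 h2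
    have h7 : 0 ≤ (6 - (SL v - L)) * (1 / L - 1 / L') := by
      apply mul_nonneg <;> linarith
    have e1 : (SL v + a - L') / L' = (SL v - L) * (1 / L') + a / L' - (L' - L) / L' := by
      field_simp; ring
    have e2 : (SL v - L) / L = (SL v - L) * (1 / L) := by ring
    rw [e1]
    rw [e2] at ih
    nlinarith

/-- Mertens' second theorem for intervals, upper bound with the sharp main term. -/
theorem recip_primes_le (u v : ℕ) (hu : 2 ≤ u) (huv : u ≤ v) :
    ∑ l ∈ (Ioc u v).filter Nat.Prime, (1 : ℝ) / l ≤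
      Real.log (Real.log v / Real.log u) + 7 / Real.log u := by
  have hu' : (2 : ℝ) ≤ u := by exact_mod_cast hu
  have hv' : (u : ℝ) ≤ v := by exact_mod_cast huv
  have h1 : 0 < Real.log u := Real.log_pos (by linarith)
  have h2 : Real.log u ≤ Real.log v := Real.log_le_log (by linarith) hv'
  have h3 : 0 < Real.log v := by linarith
  have h4 : ∑ l ∈ (Ioc u v).filter Nat.Prime, (1 : ℝ) / l ≤
      ∑ n ∈ Ioc u v, vonMangoldt n / n / Real.log n := by
    have h5 : ∑ l ∈ (Ioc u v).filter Nat.Prime, (1 : ℝ) / l =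
        ∑ n ∈ (Ioc u v).filter Nat.Prime, vonMangoldt n / n / Real.log n := by
      apply sum_congr rfl
      intro l hl
      rw [mem_filter] at hl
      have hl2 : (2 : ℝ) ≤ l := by exact_mod_cast hl.2.two_le
      have hlog : 0 < Real.log l := Real.log_pos (by linarith)
      rw [vonMangoldt_apply_prime hl.2]
      field_simp
    rw [h5]
    apply sum_le_sum_of_subset_of_nonneg (filter_subset _ _)
    intro n hn _
    rw [mem_Ioc] at hn
    have : (1 : ℝ) ≤ n := by exact_mod_cast (by omega : 1 ≤ n)
    exact div_nonneg (div_nonneg vonMangoldt_nonneg (by linarith)) (Real.log_nonneg this)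
  have h6 := weighted_le u v hu huv
  have h7 : SL v ≤ Real.log v + 6 := Pool.Agent.DigitChanges.mertens_upper v (by omega)
  have h8 : Real.log u - 1 ≤ SL u := Pool.Agent.DigitChanges.mertens_lower u (by omega)
  have h9 : (SL v - Real.log v) / Real.log v ≤ 6 / Real.log v :=
    div_le_div_of_nonneg_right (by linarith) h3.le
  have h10 : (-1) / Real.log u ≤ (SL u - Real.log u) / Real.log u :=
    div_le_div_of_nonneg_right (by linarith) h1.le
  rw [Real.log_div h3.ne' h1.ne']
  have e1 : (7 : ℝ) / Real.log u = 1 / Real.log u + 6 * (1 / Real.log u) := by ring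
  have e2 : (6 : ℝ) / Real.log v = 6 * (1 / Real.log v) := by ring
  have e3 : (-1 : ℝ) / Real.log u = - (1 / Real.log u) := by ring
  rw [e1]
  rw [e2] at h9
  rw [e3] at h10
  linarith

end Pool.Agent.Lib.Burgess
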