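import Pool.Agent.Lib.Burgess.CompleteSum

/-!
# The moments of short character sums
-/

set_option autoImplicit false
open Finset ComplexConjugate

namespace Pool.Agent.Lib.Burgess

/-- tuples of shifts without a value occurring exactly once are few -/
lemma factor_of_not_uniq {r B : ℕ} (β β' : Fin r → ℕ) (hβ : ∀ i, β i < B) (hβ' : ∀ i, β' i < B)
    (h1 : ¬ UniqL β β') (h2 : ¬ UniqL β' β) :
    ∃ s : Fin r → ℕ, (∀ i, s i < B) ∧ ∃ τ : Fin r ⊕ Fin r → Fin r,
      (∀ i, β i = s (τ (Sum.inl i))) ∧ ∀ i, β' i = s (τ (Sum.inr i)) := by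
  classical
  set γ : Fin r ⊕ Fin r → ℕ := Sum.elim β β' with hγ
  have htwo : ∀ j, ∃ j', j' ≠ j ∧ γ j' = γ j := by
    intro j
    rcases j with i0 | i0
    · by_contra hcon
      push Not at hcon
      apply h1
      refine ⟨i0, fun i hi h => ?_, fun i h => ?_⟩
      · exact hcon (Sum.inl i) (fun h' => hi (Sum.inl_injective h')) h
      · exact hcon (Sum.inr i) (by simp) h
    · by_contra hcon
      push Not at hcon
      apply h2
      refine ⟨i0, fun i hi h => ?_, fun i h => ?_⟩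
      · exact hcon (Sum.inr i) (fun h' => hi (Sum.inr_injective h')) h
      · exact hcon (Sum.inl i) (by simp) h
  set I := univ.image γ with hI
  have hcard : I.card ≤ r := by
    have e1 : ∑ v ∈ I, (univ.filter fun j => γ j = v).card = (univ : Finset (Fin r ⊕ Fin r)).card :=
      (card_eq_sum_card_fiberwise fun j _ => mem_image_of_mem γ (mem_univ j)).symm
    have e2 : ∀ v ∈ I, 2 ≤ (univ.filter fun j => γ j = v).card := by
      intro v hv
      rw [hI, mem_image] at hv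
      obtain ⟨j, _, hj⟩ := hv
      obtain ⟨j', hne, hj'⟩ := htwo j
      have : ({j, j'} : Finset (Fin r ⊕ Fin r)) ⊆ univ.filter fun j => γ j = v := by
        intro k hk
        rw [mem_insert, mem_singleton] at hk
        rcases hk with rfl | rfl
        · simp [hj]
        · simp [hj', hj]
      calc 2 = ({j, j'} : Finset (Fin r ⊕ Fin r)).card := (card_pair hne.symm).symm
        _ ≤ _ := card_le_card this
    have e3 : I.card * 2 ≤ ∑ v ∈ I, (univ.filter fun j => γ j = v).card := by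
      rw [← smul_eq_mul]
      exact card_nsmul_le_sum I _ 2 e2
    rw [e1, card_univ, Fintype.card_sum, Fintype.card_fin] at e3
    omega
  obtain ⟨e⟩ : Nonempty (I ↪ Fin r) := by
    apply Function.Embedding.nonempty_of_card_le
    rw [Fintype.card_coe, Fintype.card_fin]
    exact hcard
  have hmem : ∀ j, γ j ∈ I := fun j => mem_image_of_mem γ (mem_univ j)
  have hlt : ∀ j, γ j < B := by
    intro j
    rcases j with i | i
    · exact hβ i
    · exact hβ' i
  refine ⟨fun k => if h : ∃ v : I, e v = k then (h.choose : ℕ) else β k, ?_,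
    fun j => e ⟨γ j, hmem j⟩, ?_, ?_⟩
  · intro k
    have hIB : ∀ v : I, (v : ℕ) < B := by
      intro v
      have hv := v.2
      obtain ⟨j, _, hj⟩ := mem_image.1 hv
      rw [← hj]; exact hlt j
    dsimp only
    split_ifs with h
    · exact hIB _
    · exact hβ k
  · intro i
    dsimp only
    have h : ∃ v : I, e v = e ⟨γ (Sum.inl i), hmem _⟩ := ⟨_, rfl⟩
    rw [dif_pos h]
    have := e.injective h.choose_spec
    rw [this]; rfl
  · intro i
    dsimp only
    have h : ∃ v : I, e v = e ⟨γ (Sum.inr i), hmem _⟩ := ⟨_, rfl⟩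
    rw [dif_pos h]
    have := e.injective h.choose_spec
    rw [this]; rfl

lemma card_bad_le (r B : ℕ) (W : Finset ((Fin r → ℕ) × (Fin r → ℕ)))
    (hW : ∀ w ∈ W, (∀ i, w.1 i < B) ∧ (∀ i, w.2 i < B) ∧ ¬ UniqL w.1 w.2 ∧ ¬ UniqL w.2 w.1) :
    W.card ≤ B ^ r * r ^ (r + r) := by
  classical
  set S := (Fintype.piFinset fun _ : Fin r => range B) ×ˢ
    (univ : Finset (Fin r ⊕ Fin r → Fin r)) with hS
  have h1 : W ⊆ S.image fun z => (fun i => z.1 (z.2 (Sum.inl i)), fun i => z.1 (z.2 (Sum.inr i))) := by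
    intro w hw
    obtain ⟨a1, a2, a3, a4⟩ := hW w hw
    obtain ⟨s, hs, τ, t1, t2⟩ := factor_of_not_uniq w.1 w.2 a1 a2 a3 a4
    rw [mem_image]
    refine ⟨(s, τ), ?_, ?_⟩
    · rw [hS, mem_product]
      refine ⟨?_, mem_univ _⟩
      rw [Fintype.mem_piFinset]
      intro i; exact mem_range.2 (hs i)
    · exact Prod.ext (funext fun i => (t1 i).symm) (funext fun i => (t2 i).symm)
  refine (card_le_card h1).trans (card_image_le.trans ?_)
  rw [hS, card_product, Fintype.card_piFinset, card_univ, Fintype.card_fun, Fintype.card_sum]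
  simp

variable {N : ℕ} [NeZero N]

lemma TT_norm_le (χ : ZMod N →* ℂ) (hχ : ∀ x, ‖χ x‖ ≤ 1) {r : ℕ} (β β' : Fin r → ℕ) :
    ‖TT χ β β'‖ ≤ N := by
  unfold TT
  refine (norm_sum_le _ _).trans ?_
  have h1 : ∀ x ∈ (univ : Finset (ZMod N)),
      ‖(∏ i, χ (x + β i)) * ∏ i, conj (χ (x + β' i))‖ ≤ 1 := by
    intro x _
    rw [norm_mul, norm_prod, norm_prod]
    apply mul_le_one₀
    · exact prod_le_one (fun _ _ => norm_nonneg _) fun i _ => hχ _
    · exact prod_nonneg fun _ _ => norm_nonneg _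
    · apply prod_le_one (fun _ _ => norm_nonneg _)
      intro i _
      rw [RCLike.norm_conj]; exact hχ _
  refine (sum_le_sum h1).trans ?_
  rw [sum_const, nsmul_eq_mul, mul_one, card_univ, ZMod.card]

/-- The `2r`-th moment of character sums of length `B`. -/
theorem moment_le (χ : ZMod N →* ℂ) (hχ : ∀ x, ‖χ x‖ ≤ 1) (r B : ℕ) (K : ℝ) (hK : 0 ≤ K)
    (hcs : ∀ β β' : Fin r → ℕ, (∀ i, β i < B) → (∀ i, β' i < B) → UniqL β β' →
      ‖TT χ β β'‖ ≤ K * √N) :
    ∑ u : ZMod N, ‖∑ b ∈ range B, χ (u + b)‖ ^ (2 * r) ≤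
      (B : ℝ) ^ r * (r : ℝ) ^ (2 * r) * N + (B : ℝ) ^ (2 * r) * (K * √N) := by
  classical
  set Pi := Fintype.piFinset fun _ : Fin r => range B with hPi
  have hexp : ∀ u : ZMod N, (∑ b ∈ range B, χ (u + b)) ^ r = ∑ β ∈ Pi, ∏ i, χ (u + β i) := by
    intro u
    have := prod_univ_sum (fun _ : Fin r => range B) (fun _ b => χ (u + (b : ZMod N)))
    rw [prod_const, card_univ, Fintype.card_fin] at this
    exact this
  have hterm : ∀ u : ZMod N, ((‖∑ b ∈ range B, χ (u + b)‖ ^ (2 * r) : ℝ) : ℂ) =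
      ∑ w ∈ Pi ×ˢ Pi, (∏ i, χ (u + w.1 i)) * ∏ i, conj (χ (u + w.2 i)) := by
    intro u
    rw [sum_product]
    simp only [← mul_sum, ← sum_mul]
    have e1 : ∑ β' ∈ Pi, ∏ i, conj (χ (u + β' i)) = conj ((∑ b ∈ range B, χ (u + b)) ^ r) := by
      rw [hexp, map_sum]
      apply sum_congr rfl
      intro β' _
      rw [map_prod]
    rw [e1, ← hexp, Complex.mul_conj, Complex.normSq_eq_norm_sq, norm_pow, ← pow_mul]
    congr 2
    ring
  have hsum : ((∑ u : ZMod N, ‖∑ b ∈ range B, χ (u + b)‖ ^ (2 * r) : ℝ) : ℂ) =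
      ∑ w ∈ Pi ×ˢ Pi, TT χ w.1 w.2 := by
    rw [Complex.ofReal_sum, sum_congr rfl fun u _ => hterm u, sum_comm]
    rfl
  have hnonneg : 0 ≤ ∑ u : ZMod N, ‖∑ b ∈ range B, χ (u + b)‖ ^ (2 * r) :=
    sum_nonneg fun _ _ => by positivity
  have h1 : ∑ u : ZMod N, ‖∑ b ∈ range B, χ (u + b)‖ ^ (2 * r) ≤
      ∑ w ∈ Pi ×ˢ Pi, ‖TT χ w.1 w.2‖ := by
    have h2 := norm_sum_le (Pi ×ˢ Pi) fun w => TT χ w.1 w.2
    rw [← hsum, Complex.norm_real, Real.norm_of_nonneg hnonneg] at h2
    exact h2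
  refine h1.trans ?_
  set W := (Pi ×ˢ Pi).filter fun w => ¬ UniqL w.1 w.2 ∧ ¬ UniqL w.2 w.1 with hW
  have hWcard : (W.card : ℝ) ≤ (B : ℝ) ^ r * (r : ℝ) ^ (2 * r) := by
    have : W.card ≤ B ^ r * r ^ (r + r) := by
      apply card_bad_le
      intro w hw
      rw [hW, mem_filter, mem_product, hPi, Fintype.mem_piFinset, Fintype.mem_piFinset] at hw
      exact ⟨fun i => mem_range.1 (hw.1.1 i), fun i => mem_range.1 (hw.1.2 i), hw.2.1, hw.2.2⟩
    rw [two_mul]
    exact_mod_cast this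
  rw [← sum_filter_add_sum_filter_not (Pi ×ˢ Pi) fun w => ¬ UniqL w.1 w.2 ∧ ¬ UniqL w.2 w.1]
  apply add_le_add
  · have h3 : ∑ w ∈ W, ‖TT χ w.1 w.2‖ ≤ W.card * N := by
      refine (sum_le_sum fun w _ => TT_norm_le χ hχ w.1 w.2).trans ?_
      rw [sum_const, nsmul_eq_mul]
    refine h3.trans ?_
    exact mul_le_mul_of_nonneg_right hWcard (Nat.cast_nonneg _)
  · have h4 : ∀ w ∈ (Pi ×ˢ Pi).filter fun w => ¬ (¬ UniqL w.1 w.2 ∧ ¬ UniqL w.2 w.1),
        ‖TT χ w.1 w.2‖ ≤ K * √N := by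
      intro w hw
      rw [mem_filter, mem_product, hPi, Fintype.mem_piFinset, Fintype.mem_piFinset] at hw
      have g1 : ∀ i, w.1 i < B := fun i => mem_range.1 (hw.1.1 i)
      have g2 : ∀ i, w.2 i < B := fun i => mem_range.1 (hw.1.2 i)
      by_cases hu : UniqL w.1 w.2
      · exact hcs _ _ g1 g2 hu
      · have hu2 : UniqL w.2 w.1 := by
          by_contra h
          exact hw.2 ⟨hu, h⟩
        have := hcs _ _ g2 g1 hu2
        rwa [TT_conj χ w.1 w.2, RCLike.norm_conj] at this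
    refine (sum_le_sum h4).trans ?_
    rw [sum_const, nsmul_eq_mul]
    apply mul_le_mul_of_nonneg_right _ (by positivity)
    have h5 : ((Pi ×ˢ Pi).filter fun w => ¬ (¬ UniqL w.1 w.2 ∧ ¬ UniqL w.2 w.1)).card ≤
        B ^ (2 * r) := by
      refine (card_filter_le _ _).trans ?_
      rw [card_product, hPi, Fintype.card_piFinset]
      simp only [card_range, prod_const, card_univ, Fintype.card_fin]
      rw [← pow_add, two_mul]
    exact_mod_cast h5

end Pool.Agent.Lib.Burgess
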