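import Pool.Agent.Lib.Burgess.Count

/-!
# Multiplicative character sums of polynomial values
-/

set_option autoImplicit false
open Polynomial Finset

namespace Pool.Agent.Lib.Burgess

variable {p : ℕ} [hp : Fact p.Prime]

/-- Weil type bound (with a larger constant) for `∑ χ (f x)`, where `f` has a simple root
at `0`. -/
theorem char_sum_poly (χ : MulChar (ZMod p) ℂ) (hχ : χ ≠ 1) (d : ℕ) (hd : χ ^ d = 1)
    (hdp : d ∣ p - 1) (m : ℕ) (f f1 : (ZMod p)[X]) (hf : f = X * f1) (hf1 : f1.coeff 0 ≠ 0)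
    (hm : f.natDegree ≤ m) :
    ‖∑ x : ZMod p, χ (f.eval x)‖ ≤ 2 * d * ((5 * m + 8) * √p) + m := by
  classical
  have hp2 := hp.out.two_le
  obtain ⟨D, hD⟩ := hdp
  have hdpos : 0 < d := by
    rcases Nat.eq_zero_or_pos d with h | h
    · rw [h, zero_mul] at hD; omega
    · exact h
  have hDpos : 0 < D := by
    rcases Nat.eq_zero_or_pos D with h | h
    · rw [h, mul_zero] at hD; omega
    · exact h
  obtain ⟨g, hg⟩ := IsCyclic.exists_generator (α := (ZMod p)ˣ)
  have hog : orderOf g = d * D := by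
    rw [orderOf_eq_card_of_forall_mem_zpowers hg, Nat.card_eq_fintype_card, ZMod.card_units, hD]
  set G : ZMod p := (g : ZMod p) with hG
  have hpow : ∀ y : ZMod p, y ≠ 0 → ∃ n : ℕ, y = G ^ n := by
    intro y hy
    have h1 := hg (Units.mk0 y hy)
    rw [← mem_powers_iff_mem_zpowers] at h1
    obtain ⟨n, hn⟩ := h1
    refine ⟨n, ?_⟩
    have h2 : ((g ^ n : (ZMod p)ˣ) : ZMod p) = y := by
      have := congrArg (fun u : (ZMod p)ˣ => (u : ZMod p)) hn
      simpa using this
    rw [← h2, Units.val_pow_eq_pow_val]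
  have hoG : orderOf G = d * D := by rw [hG, orderOf_units, hog]
  set γ : ZMod p := G ^ D with hγ
  have hoγ : orderOf γ = d := by
    rw [hγ, orderOf_pow_of_dvd hDpos.ne' (by rw [hoG]; exact Dvd.intro_left d rfl), hoG,
      Nat.mul_div_cancel _ hDpos]
  set ζ : ℂ := χ G with hζ
  have hζd : ζ ^ d = 1 := by
    have h1 : (χ ^ d) G = 1 := by
      rw [hd]
      exact MulChar.one_apply (Units.isUnit g)
    rwa [MulChar.pow_apply' χ hdpos.ne'] at h1
  have hζnorm : ‖ζ‖ = 1 := by
    have h1 : ‖ζ‖ ^ d = 1 := by rw [← norm_pow, hζd, norm_one]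
    exact (pow_eq_one_iff_of_nonneg (norm_nonneg _) hdpos.ne').1 h1
  have hζ1 : ζ ≠ 1 := by
    intro h1
    apply hχ
    apply MulChar.ext
    intro u
    obtain ⟨n, hn⟩ := hpow (u : ZMod p) u.ne_zero
    rw [hn, map_pow, ← hζ, h1, one_pow, MulChar.one_apply]
    rw [← hn]; exact u.isUnit
  have hgeom : ∑ k ∈ range d, ζ ^ k = 0 := by
    have h1 := mul_geom_sum ζ d
    rw [hζd, sub_self, mul_eq_zero] at h1
    rcases h1 with h | h
    · exact absurd (sub_eq_zero.1 h) hζ1
    · exact h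
  -- values
  have hval : ∀ y : ZMod p, y ≠ 0 → ∀ k < d, (y ^ D = γ ^ k → χ y = ζ ^ k) := by
    intro y hy k hk hyk
    obtain ⟨n, rfl⟩ := hpow y hy
    rw [map_pow, ← hζ]
    have h1 : γ ^ n = γ ^ k := by
      rw [← hyk, hγ, ← pow_mul, ← pow_mul, mul_comm]
    have h2 : n % d = k := by
      have h3 : γ ^ (n % d) = γ ^ k := by
        rw [← h1, ← hoγ, pow_mod_orderOf]
      have h4 := pow_injOn_Iio_orderOf (x := γ)
        (show n % d ∈ Set.Iio (orderOf γ) by rw [hoγ]; exact Nat.mod_lt _ hdpos)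
        (show k ∈ Set.Iio (orderOf γ) by rw [hoγ]; exact hk) h3
      exact h4
    rw [← h2]
    conv_lhs => rw [← Nat.div_add_mod n d, pow_add, pow_mul, hζd, one_pow, one_mul]
  have hex : ∀ y : ZMod p, y ≠ 0 → ∃ k < d, y ^ D = γ ^ k := by
    intro y hy
    obtain ⟨n, rfl⟩ := hpow y hy
    refine ⟨n % d, Nat.mod_lt _ hdpos, ?_⟩
    rw [← hoγ, pow_mod_orderOf, hγ, ← pow_mul, ← pow_mul, mul_comm]
  have huniq : ∀ k < d, ∀ k' < d, γ ^ k = γ ^ k' → k = k' := by
    intro k hk k' hk' h
    exact pow_injOn_Iio_orderOf (x := γ)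
        (show k ∈ Set.Iio (orderOf γ) by rw [hoγ]; exact hk)
        (show k' ∈ Set.Iio (orderOf γ) by rw [hoγ]; exact hk') h
  set N : ℕ → ℕ := fun k =>
    (univ.filter fun x : ZMod p => f.eval x ≠ 0 ∧ f.eval x ^ D = γ ^ k).card with hN
  have hpoint : ∀ x : ZMod p, χ (f.eval x) =
      ∑ k ∈ range d, if f.eval x ≠ 0 ∧ f.eval x ^ D = γ ^ k then ζ ^ k else 0 := by
    intro x
    by_cases h0 : f.eval x = 0
    · rw [h0, MulChar.map_zero]
      symm
      apply sum_eq_zero
      intro k _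
      rw [if_neg]
      rintro ⟨h1, _⟩
      exact h1 rfl
    · obtain ⟨k, hk, hyk⟩ := hex _ h0
      rw [sum_eq_single k, if_pos ⟨h0, hyk⟩]
      · exact hval _ h0 k hk hyk
      · intro k' hk' hne
        rw [if_neg]
        rintro ⟨_, h2⟩
        exact hne (huniq k' (mem_range.1 hk') k hk (h2.symm.trans hyk))
      · intro h; exact absurd (mem_range.2 hk) h
  have hsum : ∑ x : ZMod p, χ (f.eval x) = ∑ k ∈ range d, (N k : ℂ) * ζ ^ k := by
    rw [sum_congr rfl fun x _ => hpoint x, sum_comm]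
    apply sum_congr rfl
    intro k _
    rw [← sum_filter, sum_const, nsmul_eq_mul]
  have htotal : p ≤ ∑ k ∈ range d, N k + m := by
    have h1 : (univ : Finset (ZMod p)).card ≤
        (univ.filter fun x : ZMod p => f.eval x = 0).card + ∑ k ∈ range d, N k := by
      have h2 : (univ : Finset (ZMod p)) ⊆ (univ.filter fun x : ZMod p => f.eval x = 0) ∪
          (range d).biUnion fun k =>
            univ.filter fun x : ZMod p => f.eval x ≠ 0 ∧ f.eval x ^ D = γ ^ k := by
        intro x _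
        rw [mem_union]
        by_cases h0 : f.eval x = 0
        · left; simp [h0]
        · right
          obtain ⟨k, hk, hyk⟩ := hex _ h0
          rw [mem_biUnion]
          exact ⟨k, mem_range.2 hk, by simp [h0, hyk]⟩
      refine (card_le_card h2).trans ((card_union_le _ _).trans ?_)
      exact Nat.add_le_add_left card_biUnion_le _
    have h3 : (univ.filter fun x : ZMod p => f.eval x = 0).card ≤ m := by
      have hfne : f ≠ 0 := by
        rw [hf]
        apply mul_ne_zero X_ne_zero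
        intro h
        rw [h, coeff_zero] at hf1
        exact hf1 rfl
      have h4 : (univ.filter fun x : ZMod p => f.eval x = 0) ⊆ f.roots.toFinset := by
        intro x hx
        rw [Multiset.mem_toFinset, mem_roots hfne, IsRoot.def]
        simpa using hx
      exact ((card_le_card h4).trans (Multiset.toFinset_card_le _)).trans
        ((card_roots' f).trans hm)
    rw [card_univ, ZMod.card] at h1
    omega
  set E : ℝ := (5 * m + 8) * √p with hE
  have hE0 : 0 ≤ E := by positivity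
  have hNle : ∀ k, (N k : ℝ) ≤ p / d + E := fun k =>
    stepanov d D m hD.symm f f1 hf hf1 hm (γ ^ k)
  have hrew : ∑ k ∈ range d, (N k : ℂ) * ζ ^ k =
      ∑ k ∈ range d, ((N k : ℂ) - (p / d : ℝ)) * ζ ^ k := by
    simp only [sub_mul, sum_sub_distrib, ← mul_sum]
    rw [hgeom, mul_zero, sub_zero]
  rw [hsum, hrew]
  have hbound : ∀ k ∈ range d, ‖((N k : ℂ) - (p / d : ℝ)) * ζ ^ k‖ ≤ 2 * E + (p / d - N k) := by
    intro k _
    rw [norm_mul, norm_pow, hζnorm, one_pow, mul_one]
    have h1 : ((N k : ℂ) - (p / d : ℝ)) = (((N k : ℝ) - p / d : ℝ) : ℂ) := by push_cast; ring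
    rw [h1, Complex.norm_real, Real.norm_eq_abs]
    have h2 := hNle k
    rw [abs_le]
    constructor <;> linarith
  refine (norm_sum_le _ _).trans ((sum_le_sum hbound).trans ?_)
  rw [sum_add_distrib, sum_sub_distrib, sum_const, sum_const, card_range, nsmul_eq_mul,
    nsmul_eq_mul]
  have hdR : (0 : ℝ) < d := by exact_mod_cast hdpos
  have h5 : (d : ℝ) * (p / d) = p := by field_simp
  have h6 : (p : ℝ) ≤ ∑ k ∈ range d, (N k : ℝ) + m := by exact_mod_cast htotal
  rw [h5]
  nlinarith

end Pool.Agent.Lib.Burgess
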