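import Pool.Agent.Lib.Burgess.Ineq

/-!
# Vinogradov's trick
-/

set_option autoImplicit false
open Finset

namespace Pool.Agent.Lib.Burgess

variable {N : ℕ} [NeZero N]

open Classical in
/-- the primes in `(B, H]` at which the character is not equal to one -/
noncomputable def bad (χ : ZMod N →* ℂ) (B H : ℕ) : Finset ℕ :=
  (Ioc B H).filter fun l => l.Prime ∧ χ (l : ZMod N) ≠ 1

omit [NeZero N] in
lemma mem_bad {χ : ZMod N →* ℂ} {B H l : ℕ} :
    l ∈ bad χ B H ↔ (B < l ∧ l ≤ H) ∧ l.Prime ∧ χ (l : ZMod N) ≠ 1 := by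
  unfold bad
  rw [mem_filter, mem_Ioc]

omit [NeZero N] in
lemma exists_bad_factor (χ : ZMod N →* ℂ) (n : ℕ) (hn : n ≠ 0) (h : χ (n : ZMod N) ≠ 1) :
    ∃ l : ℕ, l.Prime ∧ l ∣ n ∧ χ (l : ZMod N) ≠ 1 := by
  induction n using Nat.strong_induction_on with
  | _ n ih =>
    by_cases h1 : n = 1
    · rw [h1, Nat.cast_one, map_one] at h
      exact absurd rfl h
    · obtain ⟨l, hl, k, hk⟩ := Nat.exists_prime_and_dvd h1
      by_cases hχ : χ (l : ZMod N) = 1
      · have hk0 : k ≠ 0 := by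
          rintro rfl
          rw [mul_zero] at hk; exact hn hk
        have hkn : k < n := by
          rw [hk]
          have := hl.two_le
          have : 0 < k := Nat.pos_of_ne_zero hk0
          nlinarith
        have hk1 : χ (k : ZMod N) ≠ 1 := by
          intro h2
          apply h
          rw [hk, Nat.cast_mul, map_mul, hχ, h2, one_mul]
        obtain ⟨l', hl', hd, hne⟩ := ih k hkn hk0 hk1
        exact ⟨l', hl', hd.trans ⟨l, by rw [hk, mul_comm]⟩, hne⟩
      · exact ⟨l, hl, ⟨k, hk⟩, hχ⟩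

omit [NeZero N] in
/-- Vinogradov's trick. -/
theorem vinogradov (χ : ZMod N →* ℂ) (hχ : ∀ x, ‖χ x‖ ≤ 1) (B H : ℕ)
    (hB : ∀ l : ℕ, l.Prime → l ≤ B → χ (l : ZMod N) = 1) (κ : ℝ) (hH : 1 ≤ H)
    (hS : ‖SS χ H‖ ≤ κ * H) :
    (1 - κ) / 2 ≤ ∑ l ∈ bad χ B H, (1 : ℝ) / l := by
  classical
  have hHR : (1 : ℝ) ≤ H := by exact_mod_cast hH
  set V := (Icc 1 H).filter fun n : ℕ => χ (n : ZMod N) ≠ 1 with hV
  have h1 : V ⊆ (bad χ B H).biUnion fun l => (Ioc 0 H).filter fun n : ℕ => l ∣ n := by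
    intro n hn
    rw [hV, mem_filter, mem_Icc] at hn
    obtain ⟨⟨hn1, hnH⟩, hne⟩ := hn
    obtain ⟨l, hl, hd, hlne⟩ := exists_bad_factor χ n (by omega) hne
    rw [mem_biUnion]
    refine ⟨l, ?_, ?_⟩
    · rw [mem_bad]
      refine ⟨⟨?_, ?_⟩, hl, hlne⟩
      · by_contra hcon
        exact hlne (hB l hl (by omega))
      · exact (Nat.le_of_dvd (by omega) hd).trans hnH
    · rw [mem_filter, mem_Ioc]
      exact ⟨⟨by omega, hnH⟩, hd⟩
  have h2 : (V.card : ℝ) ≤ H * ∑ l ∈ bad χ B H, (1 : ℝ) / l := by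
    have h3 : V.card ≤ ∑ l ∈ bad χ B H, H / l := by
      refine (card_le_card h1).trans (card_biUnion_le.trans ?_)
      apply sum_le_sum
      intro l _
      rw [Nat.Ioc_filter_dvd_card_eq_div]
    have h4 : (V.card : ℝ) ≤ ∑ l ∈ bad χ B H, ((H / l : ℕ) : ℝ) := by exact_mod_cast h3
    refine h4.trans ?_
    rw [mul_sum]
    apply sum_le_sum
    intro l _
    refine Nat.cast_div_le.trans (le_of_eq ?_)
    ring
  have h5 : (H : ℝ) - 2 * V.card ≤ ‖SS χ H‖ := by
    have e1 : SS χ H = (H : ℂ) - ∑ n ∈ Icc 1 H, (1 - χ (n : ZMod N)) := by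
      unfold SS
      rw [sum_sub_distrib, sum_const, Nat.card_Icc, Nat.add_sub_cancel, nsmul_eq_mul, mul_one]
      ring
    have e2 : ‖∑ n ∈ Icc 1 H, (1 - χ (n : ZMod N))‖ ≤ 2 * V.card := by
      have e3 : ∑ n ∈ Icc 1 H, (1 - χ (n : ZMod N)) = ∑ n ∈ V, (1 - χ (n : ZMod N)) := by
        rw [hV]
        symm
        apply sum_filter_of_ne
        intro n _ hne h
        apply hne
        rw [h, sub_self]
      rw [e3]
      have e4 : ∀ n ∈ V, ‖1 - χ (n : ZMod N)‖ ≤ 2 := by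
        intro n _
        refine (norm_sub_le _ _).trans ?_
        rw [norm_one]
        have := hχ (n : ZMod N)
        linarith
      refine (norm_sum_le _ _).trans ((sum_le_sum e4).trans ?_)
      rw [sum_const, nsmul_eq_mul, mul_comm]
    rw [e1]
    have e5 := norm_sub_norm_le (H : ℂ) (∑ n ∈ Icc 1 H, (1 - χ (n : ZMod N)))
    rw [Complex.norm_natCast] at e5
    linarith
  set T := ∑ l ∈ bad χ B H, (1 : ℝ) / l with hT
  have h6 : H * (1 - κ) ≤ H * (2 * T) := by nlinarith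
  have h7 := le_of_mul_le_mul_left h6 (by linarith)
  linarith

end Pool.Agent.Lib.Burgess
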