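import Pool.Agent.Lib.Burgess.CharSmall
import Pool.Agent.Lib.Burgess.Vinogradov
import Pool.Agent.Lib.Burgess.Mertens

/-!
# Quadratic characters and the least nonresidue argument in logarithmic form
-/

set_option autoImplicit false
open Finset

namespace Pool.Agent.Lib.Burgess

/-- the complex valued quadratic character modulo `p` -/
noncomputable def qc (p : ℕ) [Fact p.Prime] : MulChar (ZMod p) ℂ :=
  (quadraticChar (ZMod p)).ringHomComp (Int.castRingHom ℂ)

lemma qc_apply (p : ℕ) [hp : Fact p.Prime] (b : ℕ) :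
    qc p (b : ZMod p) = ((jacobiSym (b : ℤ) p : ℤ) : ℂ) := by
  unfold qc
  rw [MulChar.ringHomComp_apply, ← jacobiSym.legendreSym.to_jacobiSym]
  unfold legendreSym
  simp

lemma qc_ne_one (p : ℕ) [hp : Fact p.Prime] (hp2 : p ≠ 2) : qc p ≠ 1 := by
  unfold qc
  rw [MulChar.ringHomComp_ne_one_iff (RingHom.injective_int _)]
  apply quadraticChar_ne_one
  rwa [ZMod.ringChar_zmod_n]

lemma qc_sq (p : ℕ) [hp : Fact p.Prime] : qc p ^ 2 = 1 := by
  unfold qc
  rw [MulChar.ringHomComp_pow, (quadraticChar_isQuadratic (ZMod p)).sq_eq_one,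
    MulChar.ringHomComp_one]

/-- the mass of the bad primes is bounded by the mass of all primes -/
lemma bad_mass_le {N : ℕ} (χ : ZMod N →* ℂ) (B H : ℕ) :
    ∑ l ∈ bad χ B H, (1 : ℝ) / l ≤ ∑ l ∈ (Ioc B H).filter Nat.Prime, (1 : ℝ) / l := by
  apply sum_le_sum_of_subset_of_nonneg
  · intro l hl
    rw [mem_bad] at hl
    rw [mem_filter, mem_Ioc]
    exact ⟨hl.1, hl.2.1⟩
  · intro l _ _; positivity

/-- logarithmic form of the bound for a single character -/
lemma log_of_mass (B H : ℕ) (hB : 2 ≤ B) (t : ℝ) (ht : 0 < t)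
    (h : t ≤ ∑ l ∈ (Ioc B H).filter Nat.Prime, (1 : ℝ) / l) :
    B ≤ H ∧ t ≤ Real.log (Real.log H / Real.log B) + 7 / Real.log B := by
  have hBH : B ≤ H := by
    by_contra hcon
    have : (Ioc B H).filter Nat.Prime = ∅ := by
      apply filter_eq_empty_iff.2
      intro l hl
      rw [mem_Ioc] at hl
      omega
    rw [this, sum_empty] at h
    linarith
  exact ⟨hBH, h.trans (recip_primes_le B H hB hBH)⟩

/-- from the inequality for logarithms to a ratio -/
lemma ratio_ge (B H : ℕ) (hB : 2 ≤ B) (hBH : B ≤ H) (t : ℝ)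
    (h : t ≤ Real.log (Real.log H / Real.log B) + 7 / Real.log B) :
    Real.exp (t - 7 / Real.log B) ≤ Real.log H / Real.log B := by
  have hBR : (2 : ℝ) ≤ B := by exact_mod_cast hB
  have hHR : (B : ℝ) ≤ H := by exact_mod_cast hBH
  have h1 : 0 < Real.log B := Real.log_pos (by linarith)
  have h2 : Real.log B ≤ Real.log H := Real.log_le_log (by linarith) hHR
  have h3 : 0 < Real.log H / Real.log B := by
    apply div_pos <;> linarith
  rw [← Real.exp_log h3]
  apply Real.exp_le_exp.2
  linarith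

end Pool.Agent.Lib.Burgess
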