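import Pool.Agent.Lib.Burgess.Asymp

/-!
# A crude lower bound for the number of smooth integers
-/

set_option autoImplicit false
open Finset

namespace Pool.Agent.Lib.Burgess

/-- `B`-smooth integers up to `X` -/
noncomputable def SM (B X : ℕ) : Finset ℕ :=
  @Finset.filter ℕ (fun m => ∀ p : ℕ, p.Prime → p ∣ m → p ≤ B) (Classical.decPred _) (Icc 1 X)

lemma mem_SM {B X m : ℕ} : m ∈ SM B X ↔ (1 ≤ m ∧ m ≤ X) ∧ ∀ p : ℕ, p.Prime → p ∣ m → p ≤ B := by
  unfold SM
  rw [@mem_filter ℕ _ (Classical.decPred _), mem_Icc]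

lemma SM_count (B X k : ℕ) (hB : 1 ≤ B) (hk' : X < B ^ (k + 1)) (D : ℕ)
    (hD : ∀ m, 1 ≤ m → m ≤ X → m.divisors.card ≤ D) :
    B ^ k * (X / B ^ k) ≤ D ^ k * (SM B X).card := by
  classical
  set Dom := (Fintype.piFinset fun _ : Fin k => Icc 1 B) ×ˢ Icc 1 (X / B ^ k) with hDom
  set f : (Fin k → ℕ) × ℕ → ℕ := fun z => (∏ i, z.1 i) * z.2 with hf
  have hcard : Dom.card = B ^ k * (X / B ^ k) := by
    rw [hDom, card_product, Fintype.card_piFinset]
    simp
  have hmaps : ∀ z ∈ Dom, f z ∈ SM B X := by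
    rintro ⟨b, a⟩ hz
    rw [hDom, mem_product, Fintype.mem_piFinset, mem_Icc] at hz
    obtain ⟨hb, ha1, ha2⟩ := hz
    have hb' : ∀ i, 1 ≤ b i ∧ b i ≤ B := fun i => mem_Icc.1 (hb i)
    dsimp only at ha1 ha2
    rw [mem_SM]
    have hprod : ∏ i, b i ≤ B ^ k := by
      calc ∏ i, b i ≤ ∏ _i : Fin k, B := prod_le_prod' fun i _ => (hb' i).2
        _ = B ^ k := by simp
    have hpos : 0 < ∏ i, b i := prod_pos fun i _ => (hb' i).1
    refine ⟨⟨Nat.mul_pos hpos ha1, ?_⟩, ?_⟩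
    · calc (∏ i, b i) * a ≤ B ^ k * (X / B ^ k) := Nat.mul_le_mul hprod ha2
        _ ≤ X := Nat.mul_div_le X (B ^ k)
    · intro p hp hpd
      rcases (Nat.Prime.dvd_mul hp).1 hpd with h | h
      · rw [Prime.dvd_finsetProd_iff hp.prime] at h
        obtain ⟨i, _, hi⟩ := h
        exact (Nat.le_of_dvd (hb' i).1 hi).trans (hb' i).2
      · have h1 : p ≤ a := Nat.le_of_dvd ha1 h
        have h2 : X / B ^ k < B := by
          rw [Nat.div_lt_iff_lt_mul (by positivity)]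
          rw [pow_succ, mul_comm] at hk'
          exact hk'
        omega
  have hfib : ∀ m ∈ SM B X, (Dom.filter fun z => f z = m).card ≤ D ^ k := by
    intro m hm
    rw [mem_SM] at hm
    have hm1 := hm.1.1
    have h1 : (Dom.filter fun z => f z = m).card ≤
        (Fintype.piFinset fun _ : Fin k => m.divisors).card := by
      apply card_le_card_of_injOn (fun z => z.1)
      · rintro ⟨b, a⟩ hz
        have hz' := mem_filter.1 (mem_coe.1 hz)
        rw [mem_coe, Fintype.mem_piFinset]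
        intro i
        rw [Nat.mem_divisors]
        refine ⟨?_, by omega⟩
        rw [← hz'.2]
        exact Dvd.dvd.mul_right (dvd_prod_of_mem _ (mem_univ i)) _
      · rintro ⟨b, a⟩ hz ⟨b', a'⟩ hz' hbb
        have h2 := mem_filter.1 (mem_coe.1 hz)
        have h3 := mem_filter.1 (mem_coe.1 hz')
        dsimp only at hbb
        subst hbb
        have h4 : (∏ i, b i) * a = (∏ i, b i) * a' := h2.2.trans h3.2.symm
        have hpos : 0 < ∏ i, b i := by
          have := h2.1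
          rw [hDom, mem_product, Fintype.mem_piFinset] at this
          exact prod_pos fun i _ => (mem_Icc.1 (this.1 i)).1
        rw [Nat.eq_of_mul_eq_mul_left hpos h4]
    refine h1.trans ?_
    rw [Fintype.card_piFinset]
    simp only [prod_const, card_univ, Fintype.card_fin]
    exact Nat.pow_le_pow_left (hD m hm1 hm.1.2) k
  rw [← hcard, card_eq_sum_card_fiberwise (f := f) (t := SM B X) fun z hz => hmaps z hz]
  calc ∑ m ∈ SM B X, (Dom.filter fun z => f z = m).card ≤ ∑ _m ∈ SM B X, D ^ k :=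
        sum_le_sum hfib
    _ = D ^ k * (SM B X).card := by rw [sum_const, smul_eq_mul, mul_comm]

/-- For fixed `c`, `ε > 0` there are at least `X ^ (1 - ε)` integers up to `X` all of whose
prime factors are at most `B`, if `B ≥ X ^ c` and `X` is large. -/
theorem smooth_crude (c ε : ℝ) (hc : 0 < c) (hε : 0 < ε) :
    ∃ X₀ : ℝ, 1 ≤ X₀ ∧ ∀ X B : ℕ, X₀ ≤ X → (X : ℝ) ^ c ≤ B →
      (X : ℝ) ^ (1 - ε) ≤ (SM B X).card := by
  obtain ⟨K, hK⟩ := exists_nat_ge (1 / c)
  obtain ⟨C, hC, hdiv⟩ := Pool.Agent.Lib.MP0b15c0.divisor_bound (ε := ε / (2 * (K + 1)))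
    (by positivity)
  obtain ⟨X1, hX11, hX1⟩ := exists_rpow_ge (ε / 2) (2 * (C + 2) ^ K) (by positivity)
  obtain ⟨X2, hX21, hX2⟩ := exists_rpow_ge c 2 hc
  refine ⟨max X1 X2, hX11.trans (le_max_left _ _), ?_⟩
  intro X B hX hB
  have hX1' : (1 : ℝ) ≤ X := hX11.trans ((le_max_left _ _).trans hX)
  have hXpos : (0 : ℝ) < X := by linarith
  have hB2 : (2 : ℝ) ≤ B := (hX2 X ((le_max_right _ _).trans hX)).trans hB
  have hB2' : 2 ≤ B := by exact_mod_cast hB2
  -- choose k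
  have hX0 : X ≠ 0 := by
    rintro rfl
    rw [Nat.cast_zero] at hX1'
    linarith
  set k := Nat.log B X with hk
  have hk1 : B ^ k ≤ X := Nat.pow_log_le_self B hX0
  have hk2 : X < B ^ (k + 1) := Nat.lt_pow_succ_log_self (by omega) X
  have hkK : k ≤ K := by
    have h1 : ((X : ℝ) ^ c) ^ k ≤ X := by
      calc ((X : ℝ) ^ c) ^ k ≤ (B : ℝ) ^ k := pow_le_pow_left₀ (by positivity) hB k
        _ ≤ X := by exact_mod_cast hk1
    have hX1s : (1 : ℝ) < X := by
      by_contra hcon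
      have h2 : (X : ℝ) = 1 := le_antisymm (not_lt.1 hcon) hX1'
      have h3 := hX2 X ((le_max_right _ _).trans hX)
      rw [h2, Real.one_rpow] at h3
      linarith
    rw [← Real.rpow_natCast, ← Real.rpow_mul hXpos.le] at h1
    have h2 : (X : ℝ) ^ (c * k) ≤ (X : ℝ) ^ (1 : ℝ) := by rwa [Real.rpow_one]
    have h3 := (Real.rpow_le_rpow_left_iff hX1s).1 h2
    have h4 : (k : ℝ) ≤ 1 / c := by
      rw [le_div_iff₀ hc]; linarith
    exact_mod_cast h4.trans hK
  -- the divisor bound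
  set D : ℕ := ⌊C * (X : ℝ) ^ (ε / (2 * (K + 1)))⌋₊ with hD
  have hDbound : ∀ m, 1 ≤ m → m ≤ X → m.divisors.card ≤ D := by
    intro m hm1 hm2
    rw [hD]
    apply Nat.le_floor
    refine (hdiv m (by omega)).trans ?_
    apply mul_le_mul_of_nonneg_left _ hC.le
    apply Real.rpow_le_rpow (Nat.cast_nonneg _) _ (by positivity)
    exact_mod_cast hm2
  have hmain := SM_count B X k (by omega) hk2 D hDbound
  -- lower bound of the left side
  have h5 : (X : ℝ) / 2 ≤ ((B ^ k * (X / B ^ k) : ℕ) : ℝ) := by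
    have h6 : X < B ^ k * (X / B ^ k + 1) := Nat.lt_mul_div_succ X (by positivity)
    have h7 : 1 ≤ X / B ^ k := (Nat.one_le_div_iff (by positivity)).2 hk1
    have h8 : X < 2 * (B ^ k * (X / B ^ k)) := by
      have h9 : B ^ k * 1 ≤ B ^ k * (X / B ^ k) := Nat.mul_le_mul_left _ h7
      rw [mul_add, mul_one] at h6
      omega
    have h9 : (X : ℝ) < 2 * ((B ^ k * (X / B ^ k) : ℕ) : ℝ) := by exact_mod_cast h8
    linarith
  have h10 : (D : ℝ) ^ k ≤ (C + 2) ^ K * (X : ℝ) ^ (ε / 2) := by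
    have e1 : (D : ℝ) ≤ (C + 2) * (X : ℝ) ^ (ε / (2 * (K + 1))) := by
      refine (Nat.floor_le (by positivity)).trans ?_
      apply mul_le_mul_of_nonneg_right (by linarith) (by positivity)
    have e2 : 1 ≤ (C + 2) * (X : ℝ) ^ (ε / (2 * (K + 1))) := by
      have : 1 ≤ (X : ℝ) ^ (ε / (2 * (K + 1))) := Real.one_le_rpow hX1' (by positivity)
      nlinarith
    calc (D : ℝ) ^ k ≤ ((C + 2) * (X : ℝ) ^ (ε / (2 * (K + 1)))) ^ k :=
          pow_le_pow_left₀ (Nat.cast_nonneg _) e1 k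
      _ ≤ ((C + 2) * (X : ℝ) ^ (ε / (2 * (K + 1)))) ^ K := pow_le_pow_right₀ e2 hkK
      _ = (C + 2) ^ K * ((X : ℝ) ^ (ε / (2 * (K + 1)))) ^ K := mul_pow _ _ _
      _ ≤ (C + 2) ^ K * (X : ℝ) ^ (ε / 2) := by
          apply mul_le_mul_of_nonneg_left _ (by positivity)
          rw [← Real.rpow_natCast, ← Real.rpow_mul hXpos.le]
          apply Real.rpow_le_rpow_of_exponent_le hX1'
          rw [div_mul_eq_mul_div, div_le_div_iff₀ (by positivity) (by norm_num)]
          nlinarith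
  have h11 : (X : ℝ) / 2 ≤ (C + 2) ^ K * (X : ℝ) ^ (ε / 2) * (SM B X).card := by
    refine h5.trans ?_
    have e1 : ((B ^ k * (X / B ^ k) : ℕ) : ℝ) ≤ ((D ^ k * (SM B X).card : ℕ) : ℝ) := by
      exact_mod_cast hmain
    refine e1.trans ?_
    push_cast
    exact mul_le_mul_of_nonneg_right h10 (Nat.cast_nonneg _)
  have h12 : 2 * (C + 2) ^ K ≤ (X : ℝ) ^ (ε / 2) := hX1 X ((le_max_left _ _).trans hX)
  have h13 : (X : ℝ) = (X : ℝ) ^ (1 - ε) * ((X : ℝ) ^ (ε / 2) * (X : ℝ) ^ (ε / 2)) := by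
    rw [← Real.rpow_add hXpos, ← Real.rpow_add hXpos]
    conv_lhs => rw [← Real.rpow_one (X : ℝ)]
    congr 1; ring
  have hP : 0 < (X : ℝ) ^ (ε / 2) := by positivity
  have h14 : (X : ℝ) ≤ (X : ℝ) ^ (ε / 2) * (X : ℝ) ^ (ε / 2) * (SM B X).card := by
    have e1 : (X : ℝ) ≤ (2 * (C + 2) ^ K) * ((X : ℝ) ^ (ε / 2) * (SM B X).card) := by linarith
    refine e1.trans ?_
    calc (2 * (C + 2) ^ K) * ((X : ℝ) ^ (ε / 2) * (SM B X).card)
        ≤ (X : ℝ) ^ (ε / 2) * ((X : ℝ) ^ (ε / 2) * (SM B X).card) :=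
          mul_le_mul_of_nonneg_right h12 (mul_nonneg hP.le (Nat.cast_nonneg _))
      _ = _ := by ring
  have h15 : (X : ℝ) ^ (ε / 2) * (X : ℝ) ^ (ε / 2) * (X : ℝ) ^ (1 - ε) ≤
      (X : ℝ) ^ (ε / 2) * (X : ℝ) ^ (ε / 2) * (SM B X).card := by
    calc _ = (X : ℝ) := by
          conv_rhs => rw [h13]
          ring
      _ ≤ _ := h14
  exact le_of_mul_le_mul_left h15 (by positivity)

end Pool.Agent.Lib.Burgess
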