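import Mathlib

/-!
# Stepanov's method for power residues of polynomial values

For a prime `p`, `d * D = p - 1`, and a polynomial `f` over `ZMod p` with a simple root at `0`,
the number of `x` with `f x ^ D = ω` is at most `p / d + O(√p)`.
-/

set_option autoImplicit false
open Polynomial Finset

namespace Pool.Agent.Lib.Burgess

section Step
variable {p : ℕ} [hp : Fact p.Prime]

/-- the cofactor of `f ^ (E - k)` in the `k`-th derivative of `f ^ E * u` -/
noncomputable def vv (f u : (ZMod p)[X]) (E : ℕ) : ℕ → (ZMod p)[X]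
  | 0 => u
  | k + 1 => C ((E - k : ℕ) : ZMod p) * derivative f * vv f u E k + f * derivative (vv f u E k)

lemma iter_deriv_pow_mul (f u : (ZMod p)[X]) (E k : ℕ) (hk : k ≤ E) :
    derivative^[k] (f ^ E * u) = f ^ (E - k) * vv f u E k := by
  induction k with
  | zero => simp [vv]
  | succ k ih =>
    rw [Function.iterate_succ_apply', ih (by omega)]
    obtain ⟨n, hn⟩ : ∃ n, E - k = n + 1 := ⟨E - k - 1, by omega⟩
    have hn2 : E - (k + 1) = n := by omega
    rw [hn2, vv, hn, derivative_mul, derivative_pow_succ]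
    push_cast
    ring

lemma natDegree_vv (f u : (ZMod p)[X]) (E m : ℕ) (hm : f.natDegree ≤ m) (k : ℕ) :
    (vv f u E k).natDegree ≤ u.natDegree + k * m := by
  induction k with
  | zero => simp [vv]
  | succ k ih =>
    rw [vv]
    refine natDegree_add_le_of_degree_le ?_ ?_
    · have h1 : (C ((E - k : ℕ) : ZMod p) * derivative f * vv f u E k).natDegree ≤
          (derivative f).natDegree + (vv f u E k).natDegree := by
        refine natDegree_mul_le.trans ?_
        exact Nat.add_le_add_right (natDegree_C_mul_le _ _) _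
      have h2 : (derivative f).natDegree ≤ m := (natDegree_derivative_le f).trans (by omega)
      have h3 : u.natDegree + (k + 1) * m = m + (u.natDegree + k * m) := by ring
      omega
    · have h1 : (f * derivative (vv f u E k)).natDegree ≤
          f.natDegree + (derivative (vv f u E k)).natDegree := natDegree_mul_le
      have h2 : (derivative (vv f u E k)).natDegree ≤ (vv f u E k).natDegree :=
        (natDegree_derivative_le _).trans (by omega)
      have h3 : u.natDegree + (k + 1) * m = m + (u.natDegree + k * m) := by ring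
      omega

lemma iter_deriv_X_pow_mul (w : (ZMod p)[X]) (j k : ℕ) :
    derivative^[k] (X ^ (j * p) * w) = X ^ (j * p) * derivative^[k] w := by
  induction k with
  | zero => rfl
  | succ k ih =>
    rw [Function.iterate_succ_apply', ih, Function.iterate_succ_apply', derivative_mul]
    have : derivative (X ^ (j * p) : (ZMod p)[X]) = 0 := by
      rw [derivative_X_pow]
      simp
    rw [this, zero_mul, zero_add]

lemma sum_ne_zero_of_injective {T : Type*} [Fintype T] (e : T → ℕ) (he : Function.Injective e)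
    (c : T → ZMod p) (hc : c ≠ 0) (g : T → (ZMod p)[X]) (hg : ∀ t, (g t).coeff 0 ≠ 0) :
    ∑ t, C (c t) * (X ^ e t * g t) ≠ 0 := by
  classical
  intro h0
  obtain ⟨t1, ht1⟩ : ∃ t, c t ≠ 0 := by
    by_contra hcon
    push Not at hcon
    exact hc (funext hcon)
  obtain ⟨t0, ht0, hmin⟩ := exists_min_image (univ.filter fun t => c t ≠ 0) e
    ⟨t1, by simp [ht1]⟩
  have hc0 : c t0 ≠ 0 := by simpa using ht0
  have h2 : (∑ t, C (c t) * (X ^ e t * g t)).coeff (e t0) = c t0 * (g t0).coeff 0 := by
    rw [finsetSum_coeff, Finset.sum_eq_single t0]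
    · rw [coeff_C_mul]
      congr 1
      have := coeff_X_pow_mul (g t0) (e t0) 0
      rwa [zero_add] at this
    · intro t _ ht
      rw [coeff_C_mul]
      by_cases hct : c t = 0
      · rw [hct, zero_mul]
      · have h3 : e t0 ≤ e t := hmin t (by simp [hct])
        have h4 : e t0 ≠ e t := fun h => ht (he h).symm
        rw [coeff_X_pow_mul', if_neg (by omega), mul_zero]
    · intro h; exact absurd (mem_univ _) h
  rw [h0, coeff_zero] at h2
  exact mul_ne_zero hc0 (hg t0) h2.symm

/-- Stepanov's bound in parametric form. -/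
theorem stepanov_aux (d D m l J : ℕ) (hdD : d * D = p - 1) (f f1 : (ZMod p)[X])
    (hf : f = X * f1) (hf1 : f1.coeff 0 ≠ 0) (hm : f.natDegree ≤ m) (ω : ZMod p)
    (hl : l ≤ p) (hdim : l * (D + m * l + J) < d * (J * D)) :
    l * (univ.filter fun x : ZMod p => f.eval x ≠ 0 ∧ f.eval x ^ D = ω).card ≤
      m * l + m * (p - 1) + D + J * p := by
  classical
  have hp1 := hp.out.two_le
  set M := D + m * l + J with hM
  set T := Fin d × Fin J × Fin D with hT
  -- the polynomials `P_k`
  set P : (T → ZMod p) → ℕ → (ZMod p)[X] := fun c k =>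
    ∑ t : T, C (c t) * (C (ω ^ (t.1 : ℕ)) * X ^ (t.2.1 : ℕ) *
      vv f (X ^ (t.2.2 : ℕ)) (l + t.1 * D) k) with hP
  set L : (T → ZMod p) →ₗ[ZMod p] (Fin l × Fin M → ZMod p) :=
    { toFun := fun c kt => (P c kt.1).coeff kt.2
      map_add' := by
        intro c c'
        funext kt
        simp only [hP, Pi.add_apply, map_add, add_mul, sum_add_distrib, coeff_add]
      map_smul' := by
        intro a c
        funext kt
        simp only [hP, Pi.smul_apply, smul_eq_mul, map_mul, RingHom.id_apply, mul_assoc,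
          ← mul_sum, coeff_C_mul] } with hL
  have hker : LinearMap.ker L ≠ ⊥ := by
    apply LinearMap.ker_ne_bot_of_finrank_lt
    rw [Module.finrank_fintype_fun_eq_card, Module.finrank_fintype_fun_eq_card]
    simp only [hT, Fintype.card_prod, Fintype.card_fin]
    exact hdim
  obtain ⟨c, hcL, hc0⟩ := (Submodule.ne_bot_iff _).1 hker
  have hcoef : ∀ (k : Fin l) (t : Fin M), (P c k).coeff t = 0 := by
    intro k t
    have := congrFun (LinearMap.mem_ker.1 hcL) (k, t)
    simpa [hL] using this
  have hPzero : ∀ k : ℕ, k < l → P c k = 0 := by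
    intro k hk
    ext s
    rw [coeff_zero]
    by_cases hs : s < M
    · exact hcoef ⟨k, hk⟩ ⟨s, hs⟩
    · apply coeff_eq_zero_of_natDegree_lt
      have hs' : M ≤ s := not_lt.1 hs
      have hMpos : 0 < M := by
        by_contra h0
        have : J = 0 := by omega
        rw [this] at hdim
        simp at hdim
      have : (P c k).natDegree ≤ M - 1 := by
        apply natDegree_sum_le_of_forall_le
        intro t _
        have hD : (t.2.2 : ℕ) < D := t.2.2.2
        have hJ : (t.2.1 : ℕ) < J := t.2.1.2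
        refine (natDegree_C_mul_le _ _).trans ?_
        refine natDegree_mul_le.trans ?_
        have h1 : (C (ω ^ (t.1 : ℕ)) * X ^ (t.2.1 : ℕ) : (ZMod p)[X]).natDegree ≤ t.2.1 :=
          natDegree_C_mul_X_pow_le _ _
        have h2 := natDegree_vv f (X ^ (t.2.2 : ℕ)) (l + t.1 * D) m hm k
        have h3 : (X ^ (t.2.2 : ℕ) : (ZMod p)[X]).natDegree ≤ t.2.2 := natDegree_X_pow_le _
        have h4 : k * m ≤ m * l := by
          rw [mul_comm]; exact Nat.mul_le_mul_left m hk.le
        omega
      omega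
  -- the auxiliary polynomial
  set R : (ZMod p)[X] := ∑ t : T, C (c t) *
    (X ^ ((t.2.1 : ℕ) * p) * (f ^ (l + t.1 * D) * X ^ (t.2.2 : ℕ))) with hR
  have hRne : R ≠ 0 := by
    have h1 : R = ∑ t : T, C (c t) * (X ^ (l + (t.1 * D + t.2.2 + t.2.1 * p)) *
        f1 ^ (l + t.1 * D)) := by
      rw [hR]
      apply sum_congr rfl
      intro t _
      rw [hf]
      ring
    rw [h1]
    apply sum_ne_zero_of_injective _ _ c hc0
    · intro t
      rw [coeff_zero_eq_eval_zero, eval_pow, ← coeff_zero_eq_eval_zero]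
      exact pow_ne_zero _ hf1
    · intro t t' htt
      simp only [Nat.add_left_cancel_iff] at htt
      have hD : (t.2.2 : ℕ) < D := t.2.2.2
      have hD' : (t'.2.2 : ℕ) < D := t'.2.2.2
      have hi : (t.1 : ℕ) < d := t.1.2
      have hi' : (t'.1 : ℕ) < d := t'.1.2
      have hlt : (t.1 : ℕ) * D + t.2.2 < p := by
        have : ((t.1 : ℕ) + 1) * D ≤ d * D := Nat.mul_le_mul_right D hi
        rw [hdD, add_mul, one_mul] at this
        omega
      have hlt' : (t'.1 : ℕ) * D + t'.2.2 < p := by
        have : ((t'.1 : ℕ) + 1) * D ≤ d * D := Nat.mul_le_mul_right D hi'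
        rw [hdD, add_mul, one_mul] at this
        omega
      have h2 : (t.2.1 : ℕ) = t'.2.1 := by
        have e1 : ((t.1 : ℕ) * D + t.2.2 + t.2.1 * p) / p = t.2.1 := by
          rw [Nat.add_mul_div_right _ _ (by omega), Nat.div_eq_of_lt hlt, zero_add]
        have e2 : ((t'.1 : ℕ) * D + t'.2.2 + t'.2.1 * p) / p = t'.2.1 := by
          rw [Nat.add_mul_div_right _ _ (by omega), Nat.div_eq_of_lt hlt', zero_add]
        rw [← e1, ← e2, htt]
      have h3 : (t.1 : ℕ) * D + t.2.2 = t'.1 * D + t'.2.2 := by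
        rw [h2] at htt; omega
      have h4 : (t.1 : ℕ) = t'.1 := by
        have e1 : ((t.2.2 : ℕ) + t.1 * D) / D = t.1 := by
          rw [Nat.add_mul_div_right _ _ (by omega), Nat.div_eq_of_lt hD, zero_add]
        have e2 : ((t'.2.2 : ℕ) + t'.1 * D) / D = t'.1 := by
          rw [Nat.add_mul_div_right _ _ (by omega), Nat.div_eq_of_lt hD', zero_add]
        rw [← e1, ← e2, add_comm, h3, add_comm]
      have h5 : (t.2.2 : ℕ) = t'.2.2 := by rw [h4] at h3; omega
      exact Prod.ext (Fin.ext h4) (Prod.ext (Fin.ext h2) (Fin.ext h5))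
  have hderiv : ∀ k : ℕ, k ≤ l → derivative^[k] R = ∑ t : T, C (c t) *
      (X ^ ((t.2.1 : ℕ) * p) * (f ^ (l + t.1 * D - k) *
        vv f (X ^ (t.2.2 : ℕ)) (l + t.1 * D) k)) := by
    intro k hk
    rw [hR, Polynomial.iterate_derivative_sum]
    apply sum_congr rfl
    intro t _
    rw [Polynomial.iterate_derivative_C_mul, iter_deriv_X_pow_mul,
      iter_deriv_pow_mul _ _ _ _ (by omega)]
  set S := univ.filter fun x : ZMod p => f.eval x ≠ 0 ∧ f.eval x ^ D = ω with hS
  have hroot : ∀ x ∈ S, ∀ k < l, (derivative^[k] R).IsRoot x := by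
    intro x hx k hk
    rw [hS, mem_filter] at hx
    obtain ⟨_, hx0, hxω⟩ := hx
    rw [IsRoot.def, hderiv k hk.le, eval_finsetSum]
    have h1 : ∀ t : T, (C (c t) * (X ^ ((t.2.1 : ℕ) * p) * (f ^ (l + t.1 * D - k) *
        vv f (X ^ (t.2.2 : ℕ)) (l + t.1 * D) k))).eval x =
        (f.eval x) ^ (l - k) * (C (c t) * (C (ω ^ (t.1 : ℕ)) * X ^ (t.2.1 : ℕ) *
          vv f (X ^ (t.2.2 : ℕ)) (l + t.1 * D) k)).eval x := by
      intro t
      have e1 : l + t.1 * D - k = (l - k) + t.1 * D := by omega
      simp only [eval_mul, eval_C, eval_pow, eval_X]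
      rw [e1, pow_add, mul_comm (t.1 : ℕ) D, pow_mul (eval x f), hxω, mul_comm (t.2.1 : ℕ) p,
        pow_mul x, ZMod.pow_card]
      ring
    rw [sum_congr rfl fun t _ => h1 t, ← mul_sum, ← eval_finsetSum]
    have h2 : ∑ t : T, C (c t) * (C (ω ^ (t.1 : ℕ)) * X ^ (t.2.1 : ℕ) *
          vv f (X ^ (t.2.2 : ℕ)) (l + t.1 * D) k) = P c k := rfl
    rw [h2, hPzero k hk, eval_zero, mul_zero]
  have hmult : ∀ x ∈ S, l ≤ R.rootMultiplicity x := by
    intro x hx
    rcases Nat.eq_zero_or_pos l with h0 | h0
    · omega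
    · obtain ⟨n, hn⟩ : ∃ n, l = n + 1 := ⟨l - 1, by omega⟩
      rw [hn]
      apply lt_rootMultiplicity_of_isRoot_iterate_derivative_of_mem_nonZeroDivisors' hRne
      · intro k hk
        exact hroot x hx k (by omega)
      · intro k hk hk0
        apply mem_nonZeroDivisors_of_ne_zero
        intro h
        rw [ZMod.natCast_eq_zero_iff] at h
        have := Nat.le_of_dvd (by omega) h
        omega
  have hcount : l * S.card ≤ R.natDegree := by
    calc l * S.card = ∑ x ∈ S, l := by rw [sum_const, smul_eq_mul, mul_comm]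
      _ ≤ ∑ x ∈ S, R.rootMultiplicity x := sum_le_sum hmult
      _ = ∑ x ∈ S, R.roots.count x := by simp only [count_roots]
      _ ≤ Multiset.card R.roots := by
          rw [← Multiset.toFinset_sum_count_eq]
          apply sum_le_sum_of_ne_zero
          intro x _ hx
          rw [Multiset.mem_toFinset]
          exact Multiset.count_ne_zero.1 hx
      _ ≤ R.natDegree := card_roots' R
  refine hcount.trans ?_
  rw [hR]
  apply natDegree_sum_le_of_forall_le
  intro t _
  have hD : (t.2.2 : ℕ) < D := t.2.2.2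
  have hJ : (t.2.1 : ℕ) < J := t.2.1.2
  have hi : (t.1 : ℕ) < d := t.1.2
  refine (natDegree_C_mul_le _ _).trans ?_
  refine natDegree_mul_le.trans ?_
  have h1 : (X ^ ((t.2.1 : ℕ) * p) : (ZMod p)[X]).natDegree ≤ t.2.1 * p := natDegree_X_pow_le _
  have h2 : (f ^ (l + t.1 * D) * X ^ (t.2.2 : ℕ) : (ZMod p)[X]).natDegree ≤
      (l + t.1 * D) * m + t.2.2 := by
    refine natDegree_mul_le.trans ?_
    apply Nat.add_le_add _ (natDegree_X_pow_le _)
    refine natDegree_pow_le.trans ?_
    exact Nat.mul_le_mul_left _ hm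
  have h3 : (t.1 : ℕ) * D ≤ p - 1 := by
    rw [← hdD]; exact Nat.mul_le_mul_right D hi.le
  have h4 : (l + t.1 * D) * m ≤ m * l + m * (p - 1) := by
    rw [← mul_add, mul_comm]
    exact Nat.mul_le_mul_left m (by omega)
  have h5 : (t.2.1 : ℕ) * p ≤ J * p := Nat.mul_le_mul_right p hJ.le
  omega

end Step

end Pool.Agent.Lib.Burgess
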