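import Pool.Agent.Lib.Burgess.WitConst

/-!
# Characters which are trivial on all small primes
-/

set_option autoImplicit false
open Finset

namespace Pool.Agent.Lib.Burgess

/-- the length of the sum attached to a conductor -/
noncomputable def Hf (δ : ℝ) (N : ℕ) : ℕ := ⌈(N : ℝ) ^ (1 / 4 + δ)⌉₊

lemma Hf_ge (δ : ℝ) (N : ℕ) : (N : ℝ) ^ (1 / 4 + δ) ≤ Hf δ N := Nat.le_ceil _

lemma Hf_mono (δ : ℝ) (hδ : 0 ≤ δ) {M N : ℕ} (h : M ≤ N) : Hf δ M ≤ Hf δ N := by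
  unfold Hf
  apply Nat.ceil_le_ceil
  apply Real.rpow_le_rpow (Nat.cast_nonneg _) (by exact_mod_cast h) (by linarith)

lemma Hf_le (δ : ℝ) (hδ : 0 ≤ δ) (N : ℕ) (hN : 1 ≤ N) :
    (Hf δ N : ℝ) ≤ 2 * (N : ℝ) ^ (1 / 4 + δ) := by
  have h1 : (1 : ℝ) ≤ N := by exact_mod_cast hN
  have h2 : 1 ≤ (N : ℝ) ^ (1 / 4 + δ) := Real.one_le_rpow h1 (by linarith)
  have h3 := Nat.ceil_lt_add_one (a := (N : ℝ) ^ (1 / 4 + δ)) (by positivity)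
  unfold Hf
  linarith

lemma Hf_sq (δ : ℝ) (hδ : 0 ≤ δ) (hδ1 : δ ≤ 1 / 80) (N : ℕ) (hN : (256 : ℝ) ≤ N) :
    (Hf δ N : ℝ) ^ 2 ≤ N := by
  have hN1 : (1 : ℝ) ≤ N := by linarith
  have hN1' : 1 ≤ N := by exact_mod_cast hN1
  have hpos : (0 : ℝ) < N := by linarith
  have h1 := Hf_le δ hδ N hN1'
  have h2 : (4 : ℝ) ≤ (N : ℝ) ^ (1 / 2 - 2 * δ) := by
    calc (4 : ℝ) = (256 : ℝ) ^ (1 / 4 : ℝ) := by
          rw [show (256 : ℝ) = 4 ^ (4 : ℝ) by norm_num, ← Real.rpow_mul (by norm_num)]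
          norm_num
      _ ≤ (N : ℝ) ^ (1 / 4 : ℝ) := Real.rpow_le_rpow (by norm_num) hN (by norm_num)
      _ ≤ _ := Real.rpow_le_rpow_of_exponent_le hN1 (by linarith)
  have h0 : (0 : ℝ) ≤ Hf δ N := Nat.cast_nonneg _
  calc (Hf δ N : ℝ) ^ 2 ≤ (2 * (N : ℝ) ^ (1 / 4 + δ)) ^ 2 := pow_le_pow_left₀ h0 h1 2
    _ = 4 * ((N : ℝ) ^ (1 / 4 + δ) * (N : ℝ) ^ (1 / 4 + δ)) := by ring
    _ ≤ (N : ℝ) ^ (1 / 2 - 2 * δ) * ((N : ℝ) ^ (1 / 4 + δ) * (N : ℝ) ^ (1 / 4 + δ)) :=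
        mul_le_mul_of_nonneg_right h2 (by positivity)
    _ = N := by
        rw [← Real.rpow_add hpos, ← Real.rpow_add hpos]
        conv_rhs => rw [← Real.rpow_one (N : ℝ)]
        congr 1; ring

lemma Hf_pos (δ : ℝ) (hδ : 0 ≤ δ) (N : ℕ) (hN : 1 ≤ N) : 1 ≤ Hf δ N := by
  have h1 : (1 : ℝ) ≤ N := by exact_mod_cast hN
  have h2 : 1 ≤ (N : ℝ) ^ (1 / 4 + δ) := Real.one_le_rpow h1 (by linarith)
  have h3 := h2.trans (Hf_ge δ N)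
  exact_mod_cast h3

theorem prime_mass (δ κ : ℝ) (hδ : 0 < δ) (hδ1 : δ ≤ 1 / 80) (hκ : 0 < κ) (hκ1 : κ ≤ 1) :
    ∃ N₀ : ℝ, 1 ≤ N₀ ∧ ∀ q : ℕ, ∀ _ : Fact q.Prime, N₀ ≤ q → ∀ χ : MulChar (ZMod q) ℂ, χ ≠ 1 →
      ∀ d : ℕ, χ ^ d = 1 → d ∣ q - 1 → (d : ℝ) ≤ (q : ℝ) ^ (δ / 16) → ∀ B : ℕ,
      (∀ l : ℕ, l.Prime → l ≤ B → χ (l : ZMod q) = 1) →
      (1 - κ) / 2 ≤ ∑ l ∈ bad (χ : ZMod q →* ℂ) B (Hf δ q), (1 : ℝ) / l := by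
  obtain ⟨N₀, hN₀, h⟩ := sum_small_prime δ κ hδ hκ hκ1
  refine ⟨max N₀ 256, le_max_of_le_left hN₀, ?_⟩
  intro q hq hN χ hχ d hd hdq hdle B hB
  have hq256 : (256 : ℝ) ≤ q := (le_max_right _ _).trans hN
  have hq1 : 1 ≤ q := hq.out.one_lt.le
  have hNZ : NeZero q := ⟨hq.out.ne_zero⟩
  exact vinogradov (χ : ZMod q →* ℂ) (fun x => mulChar_norm_le χ x) B (Hf δ q) hB κ
    (Hf_pos δ hδ.le q hq1)
    (h q hq ((le_max_left _ _).trans hN) χ hχ d hd hdq hdle _ (Hf_ge δ q)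
      (Hf_sq δ hδ.le hδ1 q hq256))

lemma prodChar_norm_le {p q : ℕ} [NeZero p] [NeZero q] (χ : MulChar (ZMod p) ℂ)
    (ψ : MulChar (ZMod q) ℂ) (x : ZMod (p * q)) :
    ‖prodChar (χ : ZMod p →* ℂ) (ψ : ZMod q →* ℂ) x‖ ≤ 1 := by
  rw [prodChar_apply, norm_mul]
  have h1 := mulChar_norm_le χ (ZMod.castHom (Dvd.intro _ rfl) (ZMod p) x)
  have h2 := mulChar_norm_le ψ (ZMod.castHom (Dvd.intro_left _ rfl) (ZMod q) x)
  exact mul_le_one₀ h1 (norm_nonneg _) h2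

theorem two_mass (δ κ : ℝ) (hδ : 0 < δ) (hδ1 : δ ≤ 1 / 80) (hκ : 0 < κ) (hκ1 : κ ≤ 1) :
    ∃ N₀ : ℝ, 1 ≤ N₀ ∧ ∀ p q : ℕ, ∀ _ : Fact p.Prime, ∀ _ : Fact q.Prime, p ≠ q →
      N₀ ≤ (p * q : ℕ) → ((p * q : ℕ) : ℝ) ^ (1 / 12 : ℝ) < p →
      ((p * q : ℕ) : ℝ) ^ (1 / 12 : ℝ) < q →
      ∀ χ : MulChar (ZMod p) ℂ, ∀ ψ : MulChar (ZMod q) ℂ, χ ≠ 1 → ψ ≠ 1 → χ ^ 2 = 1 → ψ ^ 2 = 1 →
      ∀ B : ℕ, (∀ l : ℕ, l.Prime → l ≤ B →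
        prodChar (χ : ZMod p →* ℂ) (ψ : ZMod q →* ℂ) (l : ZMod (p * q)) = 1) →
      (1 - κ) / 2 ≤ ∑ l ∈ bad (prodChar (χ : ZMod p →* ℂ) (ψ : ZMod q →* ℂ)) B (Hf δ (p * q)),
        (1 : ℝ) / l := by
  obtain ⟨N₀, hN₀, h⟩ := sum_small_two δ κ hδ hκ hκ1
  refine ⟨max N₀ 256, le_max_of_le_left hN₀, ?_⟩
  intro p q hp hq hpq hN hp12 hq12 χ ψ hχ hψ hχ2 hψ2 B hB
  have hq256 : (256 : ℝ) ≤ (p * q : ℕ) := (le_max_right _ _).trans hN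
  have hNZp : NeZero p := ⟨hp.out.ne_zero⟩
  have hNZq : NeZero q := ⟨hq.out.ne_zero⟩
  have hq1 : 1 ≤ p * q := Nat.mul_pos hp.out.pos hq.out.pos
  exact vinogradov _ (fun x => prodChar_norm_le χ ψ x) B (Hf δ (p * q)) hB κ
    (Hf_pos δ hδ.le _ hq1)
    (h p q hp hq hpq ((le_max_left _ _).trans hN) hp12 hq12 χ ψ hχ hψ hχ2 hψ2 _ (Hf_ge δ _)
      (Hf_sq δ hδ.le hδ1 _ hq256))

lemma pc_apply (p q : ℕ) [Fact p.Prime] [Fact q.Prime] (l : ℕ) :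
    prodChar (qc p : ZMod p →* ℂ) (qc q : ZMod q →* ℂ) (l : ZMod (p * q)) =
      ((jacobiSym (l : ℤ) p * jacobiSym (l : ℤ) q : ℤ) : ℂ) := by
  rw [prodChar_apply, map_natCast (ZMod.castHom (Dvd.intro _ rfl) (ZMod p)),
    map_natCast (ZMod.castHom (Dvd.intro_left _ rfl) (ZMod q)), Int.cast_mul,
    ← qc_apply p l, ← qc_apply q l]
  rfl

/-- the length is small compared with the conductor bound -/
lemma Hf_le_nu (ε : ℝ) (hε : 0 < ε) (n : ℝ) (hn : 1 ≤ n) (N : ℕ) (hN1 : 1 ≤ N)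
    (hN : (N : ℝ) ≤ n ^ nu) : (Hf (ε / 8) N : ℝ) ≤ 2 * n ^ (nu * (1 / 4 + ε / 8)) := by
  refine (Hf_le (ε / 8) (by positivity) N hN1).trans ?_
  apply mul_le_mul_of_nonneg_left _ (by norm_num)
  rw [Real.rpow_mul (by linarith)]
  exact Real.rpow_le_rpow (Nat.cast_nonneg _) hN (by positivity)

/-- no character of small order and of conductor at most `n ^ nu` is trivial on the primes up to
`n ^ (th + ε / 2)` -/
theorem prime_contra (ε : ℝ) (hε : 0 < ε) (hε1 : ε ≤ 1 / 10) :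
    ∃ n₀ : ℝ, 1 ≤ n₀ ∧ ∀ (n : ℝ) (B q : ℕ) (_ : Fact q.Prime), n₀ ≤ n →
      n ^ (th + ε / 2) ≤ B → B < q → (q : ℝ) ≤ n ^ nu →
      ∀ χ : MulChar (ZMod q) ℂ, χ ≠ 1 → ∀ d : ℕ, χ ^ d = 1 → d ∣ q - 1 →
      (d : ℝ) ≤ (q : ℝ) ^ (ε / 8 / 16) →
      (∀ l : ℕ, l.Prime → l ≤ B → χ (l : ZMod q) = 1) → False := by
  obtain ⟨N₀, hN₀, h⟩ := prime_mass (ε / 8) (ε / 8) (by positivity) (by linarith) (by positivity)
    (by linarith)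
  obtain ⟨n1, hn11, hn1⟩ := exists_rpow_ge (th + ε / 2) N₀ (by have := th_pos; positivity)
  refine ⟨max n1 (Real.exp (1000 / ε ^ 2)), le_max_of_le_left hn11, ?_⟩
  intro n B q hq hn hB hBq hqn χ hχ d hd hdq hdle htriv
  have hn1' : 1 ≤ n := hn11.trans ((le_max_left _ _).trans hn)
  have hqN : N₀ ≤ q := by
    refine (hn1 n ((le_max_left _ _).trans hn)).trans (hB.trans ?_)
    exact_mod_cast hBq.le
  have hm := h q hq hqN χ hχ d hd hdq hdle B htriv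
  exact final_single ε hε hε1 n ((le_max_right _ _).trans hn) B (Hf (ε / 8) q) hB
    (Hf_le_nu ε hε n hn1' q hq.out.one_lt.le hqn) (hm.trans (bad_mass_le _ _ _))

/-- the twelfth root condition -/
lemma twelfth (ε : ℝ) (hε : 0 < ε) (n : ℝ) (hn : 1 ≤ n) (B p N : ℕ) (hB : n ^ (th + ε / 2) ≤ B)
    (hBp : B < p) (hN : (N : ℝ) ≤ n) : (N : ℝ) ^ (1 / 12 : ℝ) < p := by
  have h1 : (N : ℝ) ^ (1 / 12 : ℝ) ≤ n ^ (1 / 12 : ℝ) :=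
    Real.rpow_le_rpow (Nat.cast_nonneg _) hN (by norm_num)
  have h2 : n ^ (1 / 12 : ℝ) ≤ n ^ (th + ε / 2) :=
    Real.rpow_le_rpow_of_exponent_le hn (by linarith [th_gt])
  have h3 : (B : ℝ) < p := by exact_mod_cast hBp
  linarith

theorem two_contra (ε : ℝ) (hε : 0 < ε) (hε1 : ε ≤ 1 / 10) :
    ∃ n₀ : ℝ, 1 ≤ n₀ ∧ ∀ (n : ℝ) (B p q : ℕ) (_ : Fact p.Prime) (_ : Fact q.Prime), n₀ ≤ n →
      n ^ (th + ε / 2) ≤ B → B < p → B < q → 2 < p → 2 < q → p ≠ q →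
      ((p * q : ℕ) : ℝ) ≤ n ^ nu →
      (∀ l : ℕ, l.Prime → l ≤ B → jacobiSym (l : ℤ) p = jacobiSym (l : ℤ) q) → False := by
  obtain ⟨N₀, hN₀, h⟩ := two_mass (ε / 8) (ε / 8) (by positivity) (by linarith) (by positivity)
    (by linarith)
  obtain ⟨n1, hn11, hn1⟩ := exists_rpow_ge (th + ε / 2) N₀ (by have := th_pos; positivity)
  refine ⟨max n1 (Real.exp (1000 / ε ^ 2)), le_max_of_le_left hn11, ?_⟩
  intro n B p q hp hq hn hB hBp hBq hp2 hq2 hpq hpqn htriv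
  have hn1' : 1 ≤ n := hn11.trans ((le_max_left _ _).trans hn)
  have hpqle : p ≤ p * q := Nat.le_mul_of_pos_right _ hq.out.pos
  have hqN : N₀ ≤ (p * q : ℕ) := by
    refine (hn1 n ((le_max_left _ _).trans hn)).trans (hB.trans ?_)
    exact_mod_cast (hBp.le.trans hpqle)
  have hpqn' : ((p * q : ℕ) : ℝ) ≤ n := by
    refine hpqn.trans ?_
    calc n ^ nu ≤ n ^ (1 : ℝ) := Real.rpow_le_rpow_of_exponent_le hn1' nu_lt.le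
      _ = n := Real.rpow_one _
  have hcop : ∀ (r l : ℕ), r.Prime → B < r → l.Prime → l ≤ B → IsCoprime (l : ℤ) (r : ℤ) := by
    intro r l hr hBr hl hlB
    rw [Nat.isCoprime_iff_coprime, Nat.coprime_primes hl hr]
    omega
  have htriv' : ∀ l : ℕ, l.Prime → l ≤ B →
      prodChar (qc p : ZMod p →* ℂ) (qc q : ZMod q →* ℂ) (l : ZMod (p * q)) = 1 := by
    intro l hl hlB
    rw [pc_apply, htriv l hl hlB, ← sq]
    have := jacobiSym.sq_one (a := (l : ℤ)) (b := q)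
      (by
        have := (Nat.coprime_primes hl hq.out).2 (by omega)
        simpa using this)
    rw [this]; norm_num
  have hm := h p q hp hq hpq hqN (twelfth ε hε n hn1' B p _ hB hBp hpqn')
    (twelfth ε hε n hn1' B q _ hB hBq hpqn') (qc p) (qc q) (qc_ne_one p (by omega))
    (qc_ne_one q (by omega)) (qc_sq p) (qc_sq q) B htriv'
  exact final_single ε hε hε1 n ((le_max_right _ _).trans hn) B (Hf (ε / 8) (p * q)) hB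
    (Hf_le_nu ε hε n hn1' _ (Nat.mul_pos hp.out.pos hq.out.pos) hpqn)
    (hm.trans (bad_mass_le _ _ _))

lemma not_all_bad (p1 p2 p3 l : ℕ) [h1 : Fact p1.Prime] [h2 : Fact p2.Prime] [h3 : Fact p3.Prime]
    (hl : l.Prime) (hl1 : l ≠ p1) (hl2 : l ≠ p2) (hl3 : l ≠ p3)
    (h12 : prodChar (qc p1 : ZMod p1 →* ℂ) (qc p2 : ZMod p2 →* ℂ) (l : ZMod (p1 * p2)) ≠ 1)
    (h13 : prodChar (qc p1 : ZMod p1 →* ℂ) (qc p3 : ZMod p3 →* ℂ) (l : ZMod (p1 * p3)) ≠ 1)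
    (h23 : prodChar (qc p2 : ZMod p2 →* ℂ) (qc p3 : ZMod p3 →* ℂ) (l : ZMod (p2 * p3)) ≠ 1) :
    False := by
  rw [pc_apply] at h12 h13 h23
  have hval : ∀ p : ℕ, p.Prime → l ≠ p → jacobiSym (l : ℤ) p = 1 ∨ jacobiSym (l : ℤ) p = -1 := by
    intro p hp hlp
    apply jacobiSym.eq_one_or_neg_one
    have := (Nat.coprime_primes hl hp).2 hlp
    simpa using this
  have key : ∀ a b : ℤ, a = b → (a = 1 ∨ a = -1) → ((a * b : ℤ) : ℂ) = 1 := by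
    rintro a b rfl (h | h) <;> rw [h] <;> norm_num
  have v1 := hval p1 h1.out hl1
  have v2 := hval p2 h2.out hl2
  have v3 := hval p3 h3.out hl3
  have n12 : jacobiSym (l : ℤ) p1 ≠ jacobiSym (l : ℤ) p2 := fun h => h12 (key _ _ h v1)
  have n13 : jacobiSym (l : ℤ) p1 ≠ jacobiSym (l : ℤ) p3 := fun h => h13 (key _ _ h v1)
  have n23 : jacobiSym (l : ℤ) p2 ≠ jacobiSym (l : ℤ) p3 := fun h => h23 (key _ _ h v2)
  omega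

end Pool.Agent.Lib.Burgess
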