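import Pool.Agent.Lib.Burgess.Quad
import Pool.Agent.Lib.Burgess.SmoothCrude

/-!
# Numerical constants and final inequalities for the least witness
-/

set_option autoImplicit false
open Finset

namespace Pool.Agent.Lib.Burgess

/-- the exponent -/
noncomputable def th : ℝ := 1 / (2 * Real.exp (1 / 2) + 4 * Real.exp (3 / 4))

/-- the threshold for conductors -/
noncomputable def nu : ℝ := 4 * Real.exp (1 / 2) * th

lemma exp_quarter_bounds : 1.25 < Real.exp (1 / 4) ∧ Real.exp (1 / 4) < 1.29 := by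
  have h : Real.exp (1 / 4) ^ 4 = Real.exp 1 := by
    rw [← Real.exp_nat_mul]; norm_num
  have h1 := Real.exp_one_gt_d9
  have h2 := Real.exp_one_lt_d9
  have hpos := Real.exp_pos (1 / 4)
  constructor
  · by_contra hcon
    push Not at hcon
    have h3 : Real.exp (1 / 4) ^ 4 ≤ 1.25 ^ 4 := pow_le_pow_left₀ hpos.le hcon 4
    rw [h] at h3
    norm_num at h3
    linarith
  · by_contra hcon
    push Not at hcon
    have h3 : (1.29 : ℝ) ^ 4 ≤ Real.exp (1 / 4) ^ 4 := pow_le_pow_left₀ (by norm_num) hcon 4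
    rw [h] at h3
    norm_num at h3
    linarith

lemma exp_half_eq : Real.exp (1 / 2) = Real.exp (1 / 4) ^ 2 := by
  rw [← Real.exp_nat_mul]; norm_num

lemma exp_tq_eq : Real.exp (3 / 4) = Real.exp (1 / 4) ^ 3 := by
  rw [← Real.exp_nat_mul]; norm_num

lemma th_den : 10 < 2 * Real.exp (1 / 2) + 4 * Real.exp (3 / 4) ∧
    2 * Real.exp (1 / 2) + 4 * Real.exp (3 / 4) < 12 := by
  rw [exp_half_eq, exp_tq_eq]
  obtain ⟨h1, h2⟩ := exp_quarter_bounds
  set x := Real.exp (1 / 4)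
  have hx : 0 < x := Real.exp_pos _
  constructor
  · have a1 : (1.25 : ℝ) ^ 2 ≤ x ^ 2 := pow_le_pow_left₀ (by norm_num) h1.le 2
    have a2 : (1.25 : ℝ) ^ 3 ≤ x ^ 3 := pow_le_pow_left₀ (by norm_num) h1.le 3
    norm_num at a1 a2
    linarith
  · have a1 : x ^ 2 ≤ (1.29 : ℝ) ^ 2 := pow_le_pow_left₀ hx.le h2.le 2
    have a2 : x ^ 3 ≤ (1.29 : ℝ) ^ 3 := pow_le_pow_left₀ hx.le h2.le 3
    norm_num at a1 a2
    linarith

lemma th_gt : 1 / 12 < th := by
  unfold th
  obtain ⟨h1, h2⟩ := th_den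
  exact one_div_lt_one_div_of_lt (by linarith) h2

lemma th_lt : th < 1 / 10 := by
  unfold th
  obtain ⟨h1, h2⟩ := th_den
  exact one_div_lt_one_div_of_lt (by norm_num) h1

lemma th_pos : 0 < th := by linarith [th_gt]

lemma nu_gt : 0.55 < nu := by
  unfold nu th
  obtain ⟨h1, h2⟩ := exp_quarter_bounds
  rw [exp_half_eq, exp_tq_eq]
  set x := Real.exp (1 / 4)
  have hx : 0 < x := Real.exp_pos _
  rw [mul_one_div, lt_div_iff₀ (by positivity)]
  have hx2 : 0 < x ^ 2 := by positivity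
  nlinarith

lemma nu_lt : nu < 1 := by
  unfold nu th
  obtain ⟨h1, h2⟩ := exp_quarter_bounds
  rw [exp_half_eq, exp_tq_eq]
  set x := Real.exp (1 / 4)
  have hx : 0 < x := Real.exp_pos _
  rw [mul_one_div, div_lt_iff₀ (by positivity)]
  have hx2 : 0 < x ^ 2 := by positivity
  nlinarith

lemma inv_two_th : (Real.exp (1 / 2) + 2 * Real.exp (3 / 4)) * (2 * th) = 1 := by
  unfold th
  have h := th_den.1
  have h0 : (2 * Real.exp (1 / 2) + 4 * Real.exp (3 / 4)) ≠ 0 := by linarith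
  field_simp
  ring

lemma logB_ge (ε : ℝ) (hε : 0 < ε) (n : ℝ) (hn : Real.exp (1000 / ε ^ 2) ≤ n) (B : ℕ)
    (hB : n ^ (th + ε / 2) ≤ B) :
    1000 / ε ^ 2 ≤ Real.log n ∧ (th + ε / 2) * Real.log n ≤ Real.log B ∧
      500 / ε ≤ Real.log B := by
  have hn0 : 0 < n := lt_of_lt_of_le (Real.exp_pos _) hn
  have h1 : 1000 / ε ^ 2 ≤ Real.log n := (Real.le_log_iff_exp_le hn0).2 hn
  have h2 : (th + ε / 2) * Real.log n ≤ Real.log B := by
    rw [← Real.log_rpow hn0]
    exact Real.log_le_log (by positivity) hB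
  refine ⟨h1, h2, ?_⟩
  have h3 : 500 / ε ≤ (ε / 2) * Real.log n := by
    calc 500 / ε = (ε / 2) * (1000 / ε ^ 2) := by field_simp; norm_num
      _ ≤ _ := mul_le_mul_of_nonneg_left h1 (by positivity)
  have h4 : 0 ≤ Real.log n := le_trans (by positivity) h1
  have h5 := th_pos
  nlinarith

theorem final_single (ε : ℝ) (hε : 0 < ε) (hε1 : ε ≤ 1 / 10) (n : ℝ)
    (hn : Real.exp (1000 / ε ^ 2) ≤ n) (B H : ℕ)
    (hB : n ^ (th + ε / 2) ≤ B) (hH : (H : ℝ) ≤ 2 * n ^ (nu * (1 / 4 + ε / 8)))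
    (hT : (1 - ε / 8) / 2 ≤ ∑ l ∈ (Ioc B H).filter Nat.Prime, (1 : ℝ) / l) : False := by
  obtain ⟨hL, hlB, hlB2⟩ := logB_ge ε hε n hn B hB
  have hn0 : 0 < n := lt_of_lt_of_le (Real.exp_pos _) hn
  set L := Real.log n with hLdef
  have h500 : 5000 ≤ 500 / ε := by
    rw [le_div_iff₀ hε]; linarith
  have hB2 : 2 ≤ B := by
    by_contra hcon
    have : B = 0 ∨ B = 1 := by omega
    rcases this with rfl | rfl
    · rw [Nat.cast_zero, Real.log_zero] at hlB2; linarith
    · rw [Nat.cast_one, Real.log_one] at hlB2; linarith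
  obtain ⟨hBH, h1⟩ := log_of_mass B H hB2 _ (by linarith) hT
  have h2 := ratio_ge B H hB2 hBH _ h1
  have hlBpos : 0 < Real.log B := by linarith
  have h7 : 7 / Real.log B ≤ ε / 16 := by
    rw [div_le_iff₀ hlBpos]
    have : ε / 16 * (500 / ε) ≤ ε / 16 * Real.log B :=
      mul_le_mul_of_nonneg_left hlB2 (by positivity)
    have e : ε / 16 * (500 / ε) = 500 / 16 := by field_simp
    rw [e] at this
    linarith
  have h3 : Real.exp (1 / 2) * (1 - ε / 8) ≤ Real.exp ((1 - ε / 8) / 2 - 7 / Real.log B) := by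
    calc Real.exp (1 / 2) * (1 - ε / 8) ≤ Real.exp (1 / 2) * Real.exp (-(ε / 8)) := by
          apply mul_le_mul_of_nonneg_left _ (Real.exp_pos _).le
          have := Real.add_one_le_exp (-(ε / 8))
          linarith
      _ = Real.exp (1 / 2 + -(ε / 8)) := by rw [Real.exp_add]
      _ ≤ _ := Real.exp_le_exp.2 (by linarith)
  have h4 : Real.exp (1 / 2) * (1 - ε / 8) * Real.log B ≤ Real.log H := by
    have := h3.trans h2
    rwa [le_div_iff₀ hlBpos] at this
  have hHpos : (0 : ℝ) < H := by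
    have : 0 < H := by omega
    exact_mod_cast this
  have h5 : Real.log H ≤ Real.log 2 + nu * (1 / 4 + ε / 8) * L := by
    rw [hLdef, ← Real.log_rpow hn0, ← Real.log_mul (by norm_num) (by positivity)]
    exact Real.log_le_log hHpos hH
  set E := Real.exp (1 / 2) with hE
  have hE1 : 1 ≤ E := by
    rw [hE]; exact Real.one_le_exp (by norm_num)
  have hnu : nu = 4 * E * th := rfl
  have hL0 : 0 < L := lt_of_lt_of_le (by positivity) hL
  have h6 : E * (1 - ε / 8) * ((th + ε / 2) * L) ≤ E * (1 - ε / 8) * Real.log B :=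
    mul_le_mul_of_nonneg_left hlB (mul_nonneg (by linarith) (by linarith))
  have h8 : E * (1 - ε / 8) * ((th + ε / 2) * L) ≤ Real.log 2 + nu * (1 / 4 + ε / 8) * L :=
    h6.trans (h4.trans h5)
  have h9 : E * (1 - ε / 8) * (th + ε / 2) - nu * (1 / 4 + ε / 8) ≥ 3 / 10 * ε := by
    have e1 : E * (1 - ε / 8) * (th + ε / 2) - nu * (1 / 4 + ε / 8) =
        E * (ε / 2 - ε / 8 * th - ε / 8 * (ε / 2)) - nu * (ε / 8) := by
      rw [hnu]; ring
    rw [e1]
    have hthl := th_lt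
    have hthp := th_pos
    have hnul := nu_lt
    have e2 : (0.48 : ℝ) * ε ≤ ε / 2 - ε / 8 * th - ε / 8 * (ε / 2) := by
      nlinarith
    have e3 : (0.48 : ℝ) * ε ≤ E * (ε / 2 - ε / 8 * th - ε / 8 * (ε / 2)) := by
      nlinarith
    nlinarith
  have h10 : 3 / 10 * ε * L ≤ Real.log 2 := by
    have : (E * (1 - ε / 8) * (th + ε / 2) - nu * (1 / 4 + ε / 8)) * L ≤ Real.log 2 := by
      linarith
    have h11 : 3 / 10 * ε * L ≤ (E * (1 - ε / 8) * (th + ε / 2) - nu * (1 / 4 + ε / 8)) * L :=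
      mul_le_mul_of_nonneg_right h9 hL0.le
    linarith
  have h12 : 3 / 10 * ε * (1000 / ε ^ 2) ≤ 3 / 10 * ε * L :=
    mul_le_mul_of_nonneg_left hL (by positivity)
  have h13 : 3 / 10 * ε * (1000 / ε ^ 2) = 300 / ε := by field_simp; norm_num
  have h14 : 3000 ≤ 300 / ε := by
    rw [le_div_iff₀ hε]; linarith
  have h15 := Real.log_two_lt_d9
  linarith

lemma amgm_exp (x y : ℝ) : 2 * Real.exp ((x + y) / 2) ≤ Real.exp x + Real.exp y := by
  have h1 : Real.exp ((x + y) / 2) = Real.exp (x / 2) * Real.exp (y / 2) := by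
    rw [← Real.exp_add]; congr 1; ring
  have h2 : Real.exp x = Real.exp (x / 2) ^ 2 := by
    rw [← Real.exp_nat_mul]; congr 1; push_cast; ring
  have h3 : Real.exp y = Real.exp (y / 2) ^ 2 := by
    rw [← Real.exp_nat_mul]; congr 1; push_cast; ring
  rw [h1, h2, h3]
  nlinarith [sq_nonneg (Real.exp (x / 2) - Real.exp (y / 2))]

theorem final_triple (ε : ℝ) (hε : 0 < ε) (hε1 : ε ≤ 1 / 10) (n : ℝ)
    (hn : Real.exp (1000 / ε ^ 2) ≤ n) (B H1 H2 H3 : ℕ)
    (hB : n ^ (th + ε / 2) ≤ B) (h12 : H1 ≤ H2) (h23 : H2 ≤ H3)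
    (hH : (H1 : ℝ) * H2 * H3 ≤ 8 * n ^ (1 / 2 + ε / 4))
    (hT1 : (1 - ε / 8) / 2 ≤ ∑ l ∈ (Ioc B H1).filter Nat.Prime, (1 : ℝ) / l)
    (hT23 : 3 * (1 - ε / 8) / 2 - 9 / B ≤ ∑ l ∈ (Ioc B H2).filter Nat.Prime, (1 : ℝ) / l +
      ∑ l ∈ (Ioc B H3).filter Nat.Prime, (1 : ℝ) / l) : False := by
  obtain ⟨hL, hlB, hlB2⟩ := logB_ge ε hε n hn B hB
  have hn0 : 0 < n := lt_of_lt_of_le (Real.exp_pos _) hn
  set L := Real.log n with hLdef
  have h500 : 5000 ≤ 500 / ε := by
    rw [le_div_iff₀ hε]; linarith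
  have hB2 : 2 ≤ B := by
    by_contra hcon
    have : B = 0 ∨ B = 1 := by omega
    rcases this with rfl | rfl
    · rw [Nat.cast_zero, Real.log_zero] at hlB2; linarith
    · rw [Nat.cast_one, Real.log_one] at hlB2; linarith
  obtain ⟨hBH1, h1⟩ := log_of_mass B H1 hB2 _ (by linarith) hT1
  have hBH2 := hBH1.trans h12
  have hBH3 := hBH2.trans h23
  have h2 := recip_primes_le B H2 hB2 hBH2
  have h3 := recip_primes_le B H3 hB2 hBH3
  have hlBpos : 0 < Real.log B := by linarith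
  have hBR : (2 : ℝ) ≤ B := by exact_mod_cast hB2
  have hpos : ∀ H : ℕ, B ≤ H → 0 < Real.log H / Real.log B := by
    intro H hH
    have : (B : ℝ) ≤ H := by exact_mod_cast hH
    have := Real.log_le_log (by linarith) this
    apply div_pos <;> linarith
  set a1 := Real.log (Real.log H1 / Real.log B) with ha1
  set a2 := Real.log (Real.log H2 / Real.log B) with ha2
  set a3 := Real.log (Real.log H3 / Real.log B) with ha3
  have e1 : Real.exp a1 = Real.log H1 / Real.log B := Real.exp_log (hpos H1 hBH1)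
  have e2 : Real.exp a2 = Real.log H2 / Real.log B := Real.exp_log (hpos H2 hBH2)
  have e3 : Real.exp a3 = Real.log H3 / Real.log B := Real.exp_log (hpos H3 hBH3)
  have hinv : 1 / Real.log B ≤ ε / 500 := by
    rw [div_le_div_iff₀ hlBpos (by norm_num)]
    rw [div_le_iff₀ hε] at hlB2
    linarith
  have h7 : 7 / Real.log B ≤ 7 * (ε / 500) := by
    calc 7 / Real.log B = 7 * (1 / Real.log B) := by ring
      _ ≤ _ := mul_le_mul_of_nonneg_left hinv (by norm_num)
  have h9 : 9 / (B : ℝ) ≤ 9 * (ε / 500) := by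
    have hle : Real.log B ≤ B := (Real.log_le_sub_one_of_pos (by linarith)).trans (by linarith)
    calc 9 / (B : ℝ) ≤ 9 / Real.log B := div_le_div_of_nonneg_left (by norm_num) hlBpos hle
      _ = 9 * (1 / Real.log B) := by ring
      _ ≤ _ := mul_le_mul_of_nonneg_left hinv (by norm_num)
  have hb1 : 1 / 2 - ε / 4 ≤ a1 := by linarith
  have hb23 : 3 / 4 - ε / 4 ≤ (a2 + a3) / 2 := by linarith
  have hstep : ∀ c x : ℝ, c - ε / 4 ≤ x → Real.exp c * (1 - ε / 4) ≤ Real.exp x := by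
    intro c x hx
    calc Real.exp c * (1 - ε / 4) ≤ Real.exp c * Real.exp (-(ε / 4)) := by
          apply mul_le_mul_of_nonneg_left _ (Real.exp_pos _).le
          have := Real.add_one_le_exp (-(ε / 4))
          linarith
      _ = Real.exp (c + -(ε / 4)) := by rw [Real.exp_add]
      _ ≤ _ := Real.exp_le_exp.2 (by linarith)
  have hc1 := hstep _ _ hb1
  have hc2 := hstep _ _ hb23
  have hc3 := amgm_exp a2 a3
  have hsum : (Real.exp (1 / 2) + 2 * Real.exp (3 / 4)) * (1 - ε / 4) ≤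
      (Real.log H1 + Real.log H2 + Real.log H3) / Real.log B := by
    rw [add_div, add_div, ← e1, ← e2, ← e3]
    linarith
  rw [le_div_iff₀ hlBpos] at hsum
  have hH1pos : (0 : ℝ) < H1 := by
    have : 0 < H1 := by omega
    exact_mod_cast this
  have hH2pos : (0 : ℝ) < H2 := by
    have : 0 < H2 := by omega
    exact_mod_cast this
  have hH3pos : (0 : ℝ) < H3 := by
    have : 0 < H3 := by omega
    exact_mod_cast this
  have hlog : Real.log H1 + Real.log H2 + Real.log H3 ≤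
      3 * Real.log 2 + (1 / 2 + ε / 4) * L := by
    rw [← Real.log_mul (by positivity) (by positivity), ← Real.log_mul (by positivity)
      (by positivity)]
    have h8 : 3 * Real.log 2 = Real.log 8 := by
      rw [show (8 : ℝ) = 2 ^ 3 by norm_num, Real.log_pow]; norm_num
    rw [h8, hLdef, ← Real.log_rpow hn0, ← Real.log_mul (by norm_num) (by positivity)]
    exact Real.log_le_log (by positivity) hH
  have hL0 : 0 < L := lt_of_lt_of_le (by positivity) hL
  set S := Real.exp (1 / 2) + 2 * Real.exp (3 / 4) with hS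
  have hSth : S * (2 * th) = 1 := inv_two_th
  have hSpos : 0 < S := by positivity
  have hS5 : 5 < S := by
    have := th_den.1
    rw [hS]; linarith
  have hk : S * (1 - ε / 4) * ((th + ε / 2) * L) ≤ 3 * Real.log 2 + (1 / 2 + ε / 4) * L := by
    refine le_trans (mul_le_mul_of_nonneg_left hlB ?_) (hsum.trans hlog)
    exact mul_nonneg hSpos.le (by linarith)
  have hk2 : S * (1 - ε / 4) * (th + ε / 2) - (1 / 2 + ε / 4) ≥ ε := by
    have e4 : S * (1 - ε / 4) * (th + ε / 2) = (1 - ε / 4) * (1 / 2 + S * (ε / 2)) := by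
      have : S * th = 1 / 2 := by linarith
      calc S * (1 - ε / 4) * (th + ε / 2) = (1 - ε / 4) * (S * th + S * (ε / 2)) := by ring
        _ = _ := by rw [this]
    rw [e4]
    have e5 : 5 / 2 * ε ≤ S * (ε / 2) := by nlinarith
    have e6 : (1 - ε / 4) * (1 / 2 + 5 / 2 * ε) ≤ (1 - ε / 4) * (1 / 2 + S * (ε / 2)) :=
      mul_le_mul_of_nonneg_left (by linarith) (by linarith)
    nlinarith
  have hk3 : ε * L ≤ 3 * Real.log 2 := by
    have h11 : ε * L ≤ (S * (1 - ε / 4) * (th + ε / 2) - (1 / 2 + ε / 4)) * L :=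
      mul_le_mul_of_nonneg_right hk2 hL0.le
    linarith
  have hk4 : ε * (1000 / ε ^ 2) ≤ ε * L := mul_le_mul_of_nonneg_left hL hε.le
  have hk5 : ε * (1000 / ε ^ 2) = 1000 / ε := by field_simp
  have hk6 : 10000 ≤ 1000 / ε := by
    rw [le_div_iff₀ hε]; linarith
  have := Real.log_two_lt_d9
  linarith

end Pool.Agent.Lib.Burgess
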