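import Pool.Agent.Lib.Burgess.WitMain

/-!
# The least witness: conclusion
-/

set_option autoImplicit false
open Finset Pool.Agent.Lib.MP0b15c0

namespace Pool.Agent.Lib.Burgess

/-- the condition on a pair of prime factors with different two-adic valuations -/
theorem val_contra (ε : ℝ) (hε : 0 < ε) (hε1 : ε ≤ 1 / 10) : ∃ n₀ : ℝ, 1 ≤ n₀ ∧
    ∀ n B j d p q : ℕ, n₀ ≤ (n : ℝ) → AllPass n B j d → (n : ℝ) ^ (th + ε / 2) ≤ B → p.Prime →
      q.Prime → p ∣ n → q ∣ n → padicValNat 2 (p - 1) < padicValNat 2 (q - 1) →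
      (q : ℝ) ≤ (n : ℝ) ^ nu → False := by
  obtain ⟨n₁, hn₁, hpc⟩ := prime_contra ε hε hε1
  obtain ⟨X2, hX21, hX2⟩ := exists_rpow_ge (ε / 8 / 16) 2 (by positivity)
  obtain ⟨n2, hn21, hn2⟩ := exists_rpow_ge (th + ε / 2) (X2 + 2) (by have := th_pos; positivity)
  refine ⟨max n₁ n2, le_max_of_le_left hn₁, ?_⟩
  intro n B j d p q hn hP hB hp hq hpn hqn hval hqnu
  have hBX : X2 + 2 ≤ (B : ℝ) := (hn2 n ((le_max_right _ _).trans hn)).trans hB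
  have hB3 : (3 : ℝ) ≤ B := by linarith
  have hB3' : 3 ≤ B := by exact_mod_cast hB3
  have hBp := hP.big hp hpn
  have hBq := hP.big hq hqn
  have hFq : Fact q.Prime := ⟨hq⟩
  have hqX : X2 ≤ (q : ℝ) := by
    have : (B : ℝ) ≤ q := by exact_mod_cast hBq.le
    linarith
  have hqodd : Odd q := hq.odd_of_ne_two (by omega)
  apply hpc n B q hFq ((le_max_left _ _).trans hn) hB hBq hqnu (qc q) (qc_ne_one q (by omega)) 2
    (qc_sq q)
  · obtain ⟨k, hk⟩ := hqodd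
    exact ⟨k, by omega⟩
  · push_cast
    exact hX2 q hqX
  · intro l hl hlB
    rw [qc_apply]
    have h1 := jac_pass hq (by omega) hp (by omega) hqn hpn hP.hd (hP.pass l hl hlB)
      hval.le
    rw [if_neg hval.ne'] at h1
    rw [h1]; norm_num

theorem jac_eq_of_val {n B j d p q : ℕ} (hP : AllPass n B j d) (hp : p.Prime) (hq : q.Prime)
    (hp2 : p ≠ 2) (hq2 : q ≠ 2)
    (hpn : p ∣ n) (hqn : q ∣ n) (hval : padicValNat 2 (p - 1) = padicValNat 2 (q - 1)) (l : ℕ)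
    (hl : l.Prime) (hlB : l ≤ B) : jacobiSym (l : ℤ) p = jacobiSym (l : ℤ) q := by
  have h1 := jac_pass hp hp2 hq hq2 hpn hqn hP.hd (hP.pass l hl hlB) hval.ge
  rwa [if_pos hval] at h1

theorem pair_contra (ε : ℝ) (hε : 0 < ε) (hε1 : ε ≤ 1 / 10) : ∃ n₀ : ℝ, 1 ≤ n₀ ∧
    ∀ n B j d p q : ℕ, n₀ ≤ (n : ℝ) → AllPass n B j d → (n : ℝ) ^ (th + ε / 2) ≤ B → p.Prime →
      q.Prime → p ≠ q → p ∣ n → q ∣ n → ((p * q : ℕ) : ℝ) ≤ (n : ℝ) ^ nu → False := by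
  obtain ⟨n₁, hn₁, hv⟩ := val_contra ε hε hε1
  obtain ⟨n₂, hn₂, ht⟩ := two_contra ε hε hε1
  obtain ⟨n3, hn31, hn3⟩ := exists_rpow_ge (th + ε / 2) 3 (by have := th_pos; positivity)
  refine ⟨max n₁ (max n₂ n3), le_max_of_le_left hn₁, ?_⟩
  intro n B j d p q hn hP hB hp hq hpq hpn hqn hnu
  have hnn1 : n₁ ≤ n := (le_max_left _ _).trans hn
  have hnn2 : n₂ ≤ n := ((le_max_left _ _).trans (le_max_right _ _)).trans hn
  have hnn3 : n3 ≤ n := ((le_max_right _ _).trans (le_max_right _ _)).trans hn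
  have hB3 : (3 : ℝ) ≤ B := (hn3 n hnn3).trans hB
  have hB3' : 3 ≤ B := by exact_mod_cast hB3
  have hBp := hP.big hp hpn
  have hBq := hP.big hq hqn
  have hple : (p : ℝ) ≤ (n : ℝ) ^ nu := by
    refine le_trans ?_ hnu
    exact_mod_cast Nat.le_mul_of_pos_right p hq.pos
  have hqle : (q : ℝ) ≤ (n : ℝ) ^ nu := by
    refine le_trans ?_ hnu
    exact_mod_cast Nat.le_mul_of_pos_left q hp.pos
  rcases lt_trichotomy (padicValNat 2 (p - 1)) (padicValNat 2 (q - 1)) with h | h | h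
  · exact hv n B j d p q hnn1 hP hB hp hq hpn hqn h hqle
  · exact ht n B p q ⟨hp⟩ ⟨hq⟩ hnn2 hB hBp hBq (by omega) (by omega) hpq hnu
      (jac_eq_of_val hP hp hq (by omega) (by omega) hpn hqn h)
  · exact hv n B j d q p hnn1 hP hB hq hp hqn hpn h hple

theorem case_three (ε : ℝ) (hε : 0 < ε) (hε1 : ε ≤ 1 / 10) : ∃ n₀ : ℝ, 1 ≤ n₀ ∧
    ∀ n B j d p1 p2 p3 : ℕ, n₀ ≤ (n : ℝ) → AllPass n B j d → (n : ℝ) ^ (th + ε / 2) ≤ B →
      p1.Prime → p2.Prime → p3.Prime → p1 < p2 → p2 < p3 → n = p1 * p2 * p3 → False := by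
  obtain ⟨n₁, hn₁, hv⟩ := val_contra ε hε hε1
  obtain ⟨n₂, hn₂, hpair⟩ := pair_contra ε hε hε1
  obtain ⟨n₃, hn₃, ht⟩ := triple_contra ε hε hε1
  obtain ⟨n4, hn41, hn4⟩ := exists_rpow_ge (th + ε / 2) 3 (by have := th_pos; positivity)
  refine ⟨max (max n₁ n₂) (max n₃ n4), (hn₁.trans (le_max_left _ _)).trans (le_max_left _ _), ?_⟩
  intro n B j d p1 p2 p3 hn hP hB hp1 hp2 hp3 h12 h23 hnp
  have hnn1 : n₁ ≤ n := ((le_max_left _ _).trans (le_max_left _ _)).trans hn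
  have hnn2 : n₂ ≤ n := ((le_max_right _ _).trans (le_max_left _ _)).trans hn
  have hnn3 : n₃ ≤ n := ((le_max_left _ _).trans (le_max_right _ _)).trans hn
  have hnn4 : n4 ≤ n := ((le_max_right _ _).trans (le_max_right _ _)).trans hn
  have hB3 : (3 : ℝ) ≤ B := (hn4 n hnn4).trans hB
  have hB3' : 3 ≤ B := by exact_mod_cast hB3
  have hp1n : p1 ∣ n := ⟨p2 * p3, by rw [hnp, mul_assoc]⟩
  have hp2n : p2 ∣ n := ⟨p1 * p3, by rw [hnp]; ring⟩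
  have hp3n : p3 ∣ n := ⟨p1 * p2, by rw [hnp]; ring⟩
  have hB1 := hP.big hp1 hp1n
  have hn1R : (1 : ℝ) ≤ n := hn₁.trans hnn1
  have hnpos : (0 : ℝ) < n := by linarith
  by_cases hnu : ((p1 * p2 : ℕ) : ℝ) ≤ (n : ℝ) ^ nu
  · exact hpair n B j d p1 p2 hnn2 hP hB hp1 hp2 h12.ne hp1n hp2n hnu
  · push Not at hnu
    have h3 : (p3 : ℝ) ≤ (n : ℝ) ^ nu := by
      by_contra hcon
      push Not at hcon
      have e1 : (n : ℝ) ^ nu * (n : ℝ) ^ nu < ((p1 * p2 : ℕ) : ℝ) * p3 :=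
        mul_lt_mul'' hnu hcon (by positivity) (by positivity)
      have e2 : ((p1 * p2 : ℕ) : ℝ) * p3 = n := by rw [hnp]; push_cast; ring
      rw [e2, ← Real.rpow_add hnpos] at e1
      have e3 : (n : ℝ) ^ (1 : ℝ) ≤ (n : ℝ) ^ (nu + nu) :=
        Real.rpow_le_rpow_of_exponent_le hn1R (by linarith [nu_gt])
      rw [Real.rpow_one] at e3
      linarith
    have h2 : (p2 : ℝ) ≤ (n : ℝ) ^ nu := by
      refine le_trans ?_ h3
      exact_mod_cast h23.le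
    have h1 : (p1 : ℝ) ≤ (n : ℝ) ^ nu := by
      refine le_trans ?_ h2
      exact_mod_cast h12.le
    rcases lt_trichotomy (padicValNat 2 (p1 - 1)) (padicValNat 2 (p2 - 1)) with h | h | h
    · exact hv n B j d p1 p2 hnn1 hP hB hp1 hp2 hp1n hp2n h h2
    · rcases lt_trichotomy (padicValNat 2 (p1 - 1)) (padicValNat 2 (p3 - 1)) with h' | h' | h'
      · exact hv n B j d p1 p3 hnn1 hP hB hp1 hp3 hp1n hp3n h' h3
      · apply ht B p1 p2 p3 ⟨hp1⟩ ⟨hp2⟩ ⟨hp3⟩ (by rw [← hnp]; exact hnn3) (by rw [← hnp]; exact hB)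
          hB1 (by omega) h12 h23
        · exact jac_eq_of_val hP hp1 hp2 (by omega) (by omega) hp1n hp2n h
        · exact jac_eq_of_val hP hp1 hp3 (by omega) (by omega) hp1n hp3n h'
      · exact hv n B j d p3 p1 hnn1 hP hB hp3 hp1 hp3n hp1n h' h1
    · exact hv n B j d p2 p1 hnn1 hP hB hp2 hp1 hp2n hp1n h h1

theorem main_contra (ε : ℝ) (hε : 0 < ε) (hε1 : ε ≤ 1 / 10) : ∃ n₀ : ℝ, 1 ≤ n₀ ∧
    ∀ n B j d : ℕ, n₀ ≤ (n : ℝ) → ¬ n.Prime → AllPass n B j d →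
      (n : ℝ) ^ (th + ε / 2) ≤ B → False := by
  obtain ⟨n₁, hn₁, hsq⟩ := case_square th th_pos
  obtain ⟨n₂, hn₂, htwo⟩ := case_two ε hε hε1
  obtain ⟨n₃, hn₃, hthree⟩ := case_three ε hε hε1
  obtain ⟨n₄, hn₄, hpair⟩ := pair_contra ε hε hε1
  refine ⟨max (max n₁ n₂) (max n₃ n₄), (hn₁.trans (le_max_left _ _)).trans (le_max_left _ _), ?_⟩
  intro n B j d hn hnp hP hB
  have hnn1 : n₁ ≤ n := ((le_max_left _ _).trans (le_max_left _ _)).trans hn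
  have hnn2 : n₂ ≤ n := ((le_max_right _ _).trans (le_max_left _ _)).trans hn
  have hnn3 : n₃ ≤ n := ((le_max_left _ _).trans (le_max_right _ _)).trans hn
  have hnn4 : n₄ ≤ n := ((le_max_right _ _).trans (le_max_right _ _)).trans hn
  have hn1R : (1 : ℝ) ≤ n := hn₁.trans hnn1
  have hnpos : (0 : ℝ) < n := by linarith
  have hn1 := hP.hn
  -- squarefree
  have hsf : ∀ p : ℕ, p.Prime → ¬ p ^ 2 ∣ n := by
    intro p hp hpn
    refine hsq n B j d p hnn1 hP ?_ hp hpn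
    exact (Real.rpow_le_rpow_of_exponent_le hn1R (by linarith)).trans hB
  have hne : ∀ p q m : ℕ, p.Prime → q.Prime → p ≤ q → n = p * q * m → p < q := by
    intro p q m hp hq hpq hnm
    refine lt_of_le_of_ne hpq ?_
    rintro rfl
    exact hsf p hp ⟨m, by rw [hnm]; ring⟩
  -- first prime factor
  obtain ⟨p1, hp1, m1, hm1, hmin1⟩ : ∃ p1 : ℕ, p1.Prime ∧ ∃ m1 : ℕ, n = p1 * m1 ∧
      ∀ q : ℕ, q.Prime → q ∣ n → p1 ≤ q := by
    obtain ⟨m1, hm1⟩ := Nat.minFac_dvd n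
    exact ⟨n.minFac, Nat.minFac_prime (by omega), m1, hm1,
      fun q hq hqn => Nat.minFac_le_of_dvd hq.two_le hqn⟩
  have hm1ne : m1 ≠ 1 := by
    rintro rfl
    rw [mul_one] at hm1
    exact hnp (hm1 ▸ hp1)
  obtain ⟨p2, hp2, m2, hm2, hmin2⟩ : ∃ p2 : ℕ, p2.Prime ∧ ∃ m2 : ℕ, m1 = p2 * m2 ∧
      ∀ q : ℕ, q.Prime → q ∣ m1 → p2 ≤ q := by
    obtain ⟨m2, hm2⟩ := Nat.minFac_dvd m1
    exact ⟨m1.minFac, Nat.minFac_prime hm1ne, m2, hm2,
      fun q hq hqn => Nat.minFac_le_of_dvd hq.two_le hqn⟩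
  have hn2 : n = p1 * p2 * m2 := by rw [hm1, hm2, mul_assoc]
  have hp2n : p2 ∣ n := ⟨p1 * m2, by rw [hn2]; ring⟩
  have h12 : p1 < p2 := hne p1 p2 m2 hp1 hp2 (hmin1 p2 hp2 hp2n) hn2
  by_cases hm2ne : m2 = 1
  · rw [hm2ne, mul_one] at hn2
    exact htwo n B j d p1 p2 hnn2 hP hB hp1 hp2 h12 hn2
  obtain ⟨p3, hp3, m3, hm3, hmin3⟩ : ∃ p3 : ℕ, p3.Prime ∧ ∃ m3 : ℕ, m2 = p3 * m3 ∧
      ∀ q : ℕ, q.Prime → q ∣ m2 → p3 ≤ q := by
    obtain ⟨m3, hm3⟩ := Nat.minFac_dvd m2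
    exact ⟨m2.minFac, Nat.minFac_prime hm2ne, m3, hm3,
      fun q hq hqn => Nat.minFac_le_of_dvd hq.two_le hqn⟩
  have hn3 : n = p1 * p2 * p3 * m3 := by rw [hn2, hm3]; ring
  have hp3m1 : p3 ∣ m1 := ⟨p2 * m3, by rw [hm2, hm3]; ring⟩
  have h23 : p2 < p3 := hne p2 p3 (p1 * m3) hp2 hp3 (hmin2 p3 hp3 hp3m1) (by rw [hn3]; ring)
  by_cases hm3ne : m3 = 1
  · rw [hm3ne, mul_one] at hn3
    exact hthree n B j d p1 p2 p3 hnn3 hP hB hp1 hp2 hp3 h12 h23 hn3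
  -- at least four primes
  have hm30 : m3 ≠ 0 := by
    rintro rfl
    rw [mul_zero] at hn3; omega
  have hm3ge : p3 ≤ m3 := by
    obtain ⟨q, hq, hqm⟩ := Nat.exists_prime_and_dvd hm3ne
    exact (hmin3 q hq (hm3 ▸ Dvd.dvd.mul_left hqm p3)).trans (Nat.le_of_dvd (by omega) hqm)
  have h4 : (p1 * p2) ^ 2 ≤ n := by
    rw [hn3, sq, mul_assoc (p1 * p2) p3 m3]
    apply Nat.mul_le_mul_left
    exact Nat.mul_le_mul (h12.trans h23).le (h23.le.trans hm3ge)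
  apply hpair n B j d p1 p2 hnn4 hP hB hp1 hp2 h12.ne ⟨m1, hm1⟩ hp2n
  have h5 : ((p1 * p2 : ℕ) : ℝ) ^ 2 ≤ n := by exact_mod_cast h4
  calc ((p1 * p2 : ℕ) : ℝ) ≤ (n : ℝ) ^ (1 / 2 : ℝ) := by
        rw [← Real.sqrt_eq_rpow]
        exact Real.le_sqrt_of_sq_le h5
    _ ≤ (n : ℝ) ^ nu := Real.rpow_le_rpow_of_exponent_le hn1R (by linarith [nu_gt])

/-- the uniform bound for the least witness -/
theorem witness_bound (ε : ℝ) (hε : 0 < ε) : ∃ C : ℝ, ∀ n : ℕ, 1 < n → ¬ n.Prime →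
    ∃ b : ℕ, b.Prime ∧ (b : ℝ) ≤ C * (n : ℝ) ^ (th + ε) ∧
      ∀ j d : ℕ, n - 1 = 2 ^ j * d → Odd d →
        ((b : ZMod n) ^ d ≠ 1 ∧ ∀ i : ℕ, i < j → (b : ZMod n) ^ (2 ^ i * d) ≠ -1) := by
  set η := min ε (1 / 10) with hη
  have hη0 : 0 < η := lt_min hε (by norm_num)
  have hη1 : η ≤ 1 / 10 := min_le_right _ _
  have hηε : η ≤ ε := min_le_left _ _
  obtain ⟨n₁, hn₁, hmain⟩ := main_contra η hη0 hη1
  obtain ⟨n2, hn21, hn2⟩ := exists_rpow_ge (η / 2) 2 (by positivity)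
  refine ⟨max n₁ n2, ?_⟩
  intro n hn1 hnp
  have hn1R : (1 : ℝ) ≤ n := by exact_mod_cast hn1.le
  have hnpos : (0 : ℝ) < n := by linarith
  set C := max n₁ n2 with hC
  have hC1 : 1 ≤ C := hn₁.trans (le_max_left _ _)
  have hpw1 : 1 ≤ (n : ℝ) ^ (th + ε) := Real.one_le_rpow hn1R (by have := th_pos; positivity)
  rcases lt_or_ge (n : ℝ) C with hlt | hge
  · refine ⟨n.minFac, Nat.minFac_prime (by omega), ?_, ?_⟩
    · have h1 : ((n.minFac : ℕ) : ℝ) ≤ n := by exact_mod_cast Nat.minFac_le (by omega)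
      nlinarith
    · intro j d _ hd
      have h2 := share_fail (n := n) (j := j) (b := n.minFac) hd (Nat.minFac_prime (by omega))
        (Nat.minFac_dvd n) dvd_rfl
      unfold Pass at h2
      push Not at h2
      exact h2
  · by_contra hcon
    push Not at hcon
    obtain ⟨j, d, hd, hjd⟩ : ∃ j d : ℕ, ¬ 2 ∣ d ∧ n - 1 = 2 ^ j * d :=
      Nat.exists_eq_pow_mul_and_not_dvd (by omega) 2 (by norm_num)
    have hd' : Odd d := by
      rw [Nat.odd_iff]; omega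
    have hP : AllPass n ⌊(n : ℝ) ^ (th + η)⌋₊ j d := by
      refine ⟨hn1, hjd, hd', ?_⟩
      intro b hb hbB
      apply pass_of_not hjd hd'
      intro hall
      have hbR : (b : ℝ) ≤ C * (n : ℝ) ^ (th + ε) := by
        have h3 : (b : ℝ) ≤ (n : ℝ) ^ (th + η) :=
          le_trans (by exact_mod_cast hbB) (Nat.floor_le (by positivity))
        have h4 : (n : ℝ) ^ (th + η) ≤ (n : ℝ) ^ (th + ε) :=
          Real.rpow_le_rpow_of_exponent_le hn1R (by linarith)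
        nlinarith
      obtain ⟨j', d', h1, h2, h3⟩ := hcon b hb hbR
      obtain ⟨h4, h5⟩ := hall j' d' h1 h2
      obtain ⟨i, hi, h6⟩ := h3 h4
      exact h5 i hi h6
    refine hmain n _ j d ((le_max_left _ _).trans hge) hnp hP ?_
    have h3 : 2 ≤ (n : ℝ) ^ (η / 2) := hn2 n ((le_max_right _ _).trans hge)
    have h4 : 1 ≤ (n : ℝ) ^ (th + η / 2) :=
      Real.one_le_rpow hn1R (by have := th_pos; positivity)
    have h5 : (n : ℝ) ^ (th + η) = (n : ℝ) ^ (th + η / 2) * (n : ℝ) ^ (η / 2) := by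
      rw [← Real.rpow_add hnpos]; congr 1; ring
    have h6 := Nat.lt_floor_add_one ((n : ℝ) ^ (th + η))
    nlinarith

end Pool.Agent.Lib.Burgess
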