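import Pool.Agent.Lib.Burgess.WitTriple
import Pool.Agent.Lib.MP_0b15c0_nt.Struct

/-!
# The least witness: arithmetic part
-/

set_option autoImplicit false
open Finset Pool.Agent.Lib.MP0b15c0

namespace Pool.Agent.Lib.Burgess

/-- all prime bases up to `B` pass the strong test -/
structure AllPass (n B j d : ℕ) : Prop where
  hn : 1 < n
  hjd : n - 1 = 2 ^ j * d
  hd : Odd d
  pass : ∀ b : ℕ, b.Prime → b ≤ B → Pass n j d b

lemma AllPass.big {n B j d p : ℕ} (h : AllPass n B j d) (hp : p.Prime) (hpn : p ∣ n) :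
    B < p := by
  by_contra hcon
  exact share_fail h.hd hp hpn dvd_rfl (h.pass p hp (not_lt.1 hcon))

lemma AllPass.fermat {n B j d b : ℕ} (h : AllPass n B j d) (hb : b.Prime) (hbB : b ≤ B) :
    (b : ZMod n) ^ (n - 1) = 1 := by
  rcases h.pass b hb hbB with h1 | ⟨i, hi, h1⟩
  · rw [h.hjd, mul_comm, pow_mul, h1, one_pow]
  · obtain ⟨k, hk⟩ := Nat.exists_eq_add_of_lt hi
    have e : n - 1 = (2 ^ i * d) * (2 * 2 ^ k) := by rw [h.hjd, hk]; ring
    rw [e, pow_mul, h1, pow_mul]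
    norm_num

lemma AllPass.smooth {n B j d m : ℕ} (h : AllPass n B j d) (hm : 1 ≤ m)
    (hsm : ∀ p : ℕ, p.Prime → p ∣ m → p ≤ B) : (m : ZMod n) ^ (n - 1) = 1 :=
  smooth_pow (fun _ hl hlB => h.fermat hl hlB) m hm hsm

lemma AllPass.smooth_dvd {n B j d m r : ℕ} (h : AllPass n B j d) (hr : r ∣ n) (hm : 1 ≤ m)
    (hsm : ∀ p : ℕ, p.Prime → p ∣ m → p ≤ B) : (m : ZMod r) ^ (n - 1) = 1 := by
  have h1 := congrArg (ZMod.castHom hr (ZMod r)) (h.smooth hm hsm)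
  rwa [map_pow, map_one, map_natCast] at h1

lemma sq_inj {n p m m' : ℕ} (hp : p.Prime) (hn : 1 < n) (hpn : p ∣ n)
    (h1 : (m : ZMod (p ^ 2)) ^ (n - 1) = 1) (h2 : (m' : ZMod (p ^ 2)) ^ (n - 1) = 1)
    (h : m ≡ m' [MOD p]) (hm : m < p ^ 2) (hm' : m' < p ^ 2) : m = m' := by
  have hu1 : IsUnit (m : ZMod (p ^ 2)) := IsUnit.of_pow_eq_one h1 (by omega)
  have hu2 : IsUnit (m' : ZMod (p ^ 2)) := IsUnit.of_pow_eq_one h2 (by omega)
  obtain ⟨u, hu⟩ := hu1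
  obtain ⟨v, hv⟩ := hu2
  have hpow : (m : ZMod (p ^ 2)) ^ p = (m' : ZMod (p ^ 2)) ^ p := by
    have h3 : (p : ℤ) ∣ (m' : ℤ) - m := (Nat.modEq_iff_dvd).1 h
    have h4 := dvd_sub_pow_of_dvd_sub h3 1
    rw [pow_one] at h4
    have h5 : (((p ^ 2 : ℕ) : ℤ)) ∣ (m' : ℤ) ^ p - (m : ℤ) ^ p := by
      push_cast
      exact h4
    have h6 := (ZMod.intCast_eq_intCast_iff_dvd_sub ((m : ℤ) ^ p) ((m' : ℤ) ^ p) (p ^ 2)).2 h5
    push_cast at h6
    exact h6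
  have e1 : (u * v⁻¹) ^ p = 1 := by
    rw [mul_pow, inv_pow, mul_inv_eq_one]
    apply Units.ext
    rw [Units.val_pow_eq_pow_val, Units.val_pow_eq_pow_val, hu, hv, hpow]
  have e2 : (u * v⁻¹) ^ (n - 1) = 1 := by
    rw [mul_pow, inv_pow, mul_inv_eq_one]
    apply Units.ext
    rw [Units.val_pow_eq_pow_val, Units.val_pow_eq_pow_val, hu, hv, h1, h2]
  have hcop : Nat.gcd p (n - 1) = 1 := by
    rw [← Nat.coprime_iff_gcd_eq_one, Nat.Prime.coprime_iff_not_dvd hp]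
    intro hdvd
    have h7 : p ∣ n - (n - 1) := Nat.dvd_sub hpn hdvd
    have h8 : n - (n - 1) = 1 := by omega
    rw [h8, Nat.dvd_one] at h7
    exact hp.one_lt.ne' h7
  have e3 : (u * v⁻¹) ^ Nat.gcd p (n - 1) = 1 := pow_gcd_eq_one.2 ⟨e1, e2⟩
  rw [hcop, pow_one, mul_inv_eq_one] at e3
  have e4 : (m : ZMod (p ^ 2)) = (m' : ZMod (p ^ 2)) := by rw [← hu, ← hv, e3]
  rw [ZMod.natCast_eq_natCast_iff] at e4
  exact Nat.ModEq.eq_of_lt_of_lt e4 hm hm'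

/-- `n` is squarefree -/
theorem case_square (c : ℝ) (hc : 0 < c) : ∃ n₀ : ℝ, 1 ≤ n₀ ∧ ∀ n B j d p : ℕ, n₀ ≤ (n : ℝ) →
    AllPass n B j d → (n : ℝ) ^ c ≤ B → p.Prime → p ^ 2 ∣ n → False := by
  obtain ⟨X₀, hX₀, h⟩ := smooth_crude c (1 / 4) hc (by norm_num)
  obtain ⟨n1, hn11, hn1⟩ := exists_rpow_ge c (X₀ + 2) hc
  refine ⟨n1, hn11, ?_⟩
  intro n B j d p hn hP hB hp hpn
  have hpn' : p ∣ n := dvd_trans (dvd_pow_self p (by norm_num)) hpn
  have hBp := hP.big hp hpn'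
  have hn0 := hP.hn
  have hBX : X₀ + 2 ≤ (B : ℝ) := (hn1 n hn).trans hB
  have hpR : (B : ℝ) + 1 ≤ p := by exact_mod_cast hBp
  have hp3R : (3 : ℝ) ≤ p := by linarith
  have hp3 : 3 ≤ p := by exact_mod_cast hp3R
  have hsq : p + 1 ≤ p ^ 2 := by nlinarith
  have hXle : p ≤ p ^ 2 - 1 := by omega
  have hXn : p ^ 2 - 1 ≤ n := (Nat.sub_le _ _).trans (Nat.le_of_dvd (by omega) hpn)
  have hXR : (p : ℝ) ≤ ((p ^ 2 - 1 : ℕ) : ℝ) := by exact_mod_cast hXle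
  have hXc : ((p ^ 2 - 1 : ℕ) : ℝ) ^ c ≤ B := by
    refine (Real.rpow_le_rpow (Nat.cast_nonneg _) ?_ hc.le).trans hB
    exact_mod_cast hXn
  have h1 := h (p ^ 2 - 1) B (by linarith) hXc
  have h2 : (SM B (p ^ 2 - 1)).card ≤ p - 1 := by
    have h3 : (SM B (p ^ 2 - 1)).card ≤ (Icc 1 (p - 1)).card := by
      apply card_le_card_of_injOn (fun m => m % p)
      · intro m hm
        have hm' := mem_SM.1 (mem_coe.1 hm)
        rw [mem_coe, mem_Icc]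
        have hlt : m % p < p := Nat.mod_lt _ (by omega)
        dsimp only
        refine ⟨?_, by omega⟩
        by_contra hcon
        have h0 : m % p = 0 := by omega
        have := hm'.2 p hp (Nat.dvd_of_mod_eq_zero h0)
        omega
      · intro m hm m' hm' heq
        have k := mem_SM.1 (mem_coe.1 hm)
        have k' := mem_SM.1 (mem_coe.1 hm')
        have hlt : p ^ 2 - 1 < p ^ 2 := Nat.sub_lt (by positivity) one_pos
        exact sq_inj hp hn0 hpn' (hP.smooth_dvd hpn k.1.1 k.2) (hP.smooth_dvd hpn k'.1.1 k'.2)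
          heq (lt_of_le_of_lt k.1.2 hlt) (lt_of_le_of_lt k'.1.2 hlt)
    rwa [Nat.card_Icc, Nat.add_sub_cancel] at h3
  have h4 : ((SM B (p ^ 2 - 1)).card : ℝ) ≤ (p : ℝ) - 1 := by
    have : ((SM B (p ^ 2 - 1)).card : ℝ) ≤ ((p - 1 : ℕ) : ℝ) := by exact_mod_cast h2
    rwa [Nat.cast_sub (by omega), Nat.cast_one] at this
  have h5 : ((p : ℝ) - 1) ^ 2 ≤ ((p ^ 2 - 1 : ℕ) : ℝ) := by
    rw [Nat.cast_sub (by omega)]
    push_cast
    nlinarith
  have h6 : ((p : ℝ) - 1) ^ (3 / 2 : ℝ) ≤ ((p ^ 2 - 1 : ℕ) : ℝ) ^ (1 - 1 / 4 : ℝ) := by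
    calc ((p : ℝ) - 1) ^ (3 / 2 : ℝ) = (((p : ℝ) - 1) ^ 2) ^ (1 - 1 / 4 : ℝ) := by
          rw [← Real.rpow_natCast, ← Real.rpow_mul (by linarith)]
          congr 1; norm_num
      _ ≤ _ := Real.rpow_le_rpow (by positivity) h5 (by norm_num)
  have h7 : (p : ℝ) - 1 < ((p : ℝ) - 1) ^ (3 / 2 : ℝ) := by
    calc (p : ℝ) - 1 = ((p : ℝ) - 1) ^ (1 : ℝ) := (Real.rpow_one _).symm
      _ < _ := Real.rpow_lt_rpow_of_exponent_lt (by linarith) (by norm_num)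
  linarith

/-- `n` is not a product of two primes -/
theorem case_two (ε : ℝ) (hε : 0 < ε) (hε1 : ε ≤ 1 / 10) : ∃ n₀ : ℝ, 1 ≤ n₀ ∧
    ∀ n B j d p q : ℕ, n₀ ≤ (n : ℝ) → AllPass n B j d → (n : ℝ) ^ (th + ε / 2) ≤ B → p.Prime →
      q.Prime → p < q → n = p * q → False := by
  obtain ⟨X₀, hX₀, h⟩ := smooth_crude th (ε / 128) th_pos (by positivity)
  obtain ⟨n₁, hn₁, hpc⟩ := prime_contra ε hε hε1
  obtain ⟨n2, hn21, hn2⟩ := exists_rpow_ge th (X₀ + 2) th_pos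
  obtain ⟨n3, hn31, hn3⟩ := exists_rpow_ge (1 / 50) 2 (by norm_num)
  refine ⟨max n₁ (max n2 n3), le_max_of_le_left hn₁, ?_⟩
  intro n B j d p q hn hP hB hp hq hpq hnpq
  have hnn1 : n₁ ≤ n := (le_max_left _ _).trans hn
  have hnn2 : n2 ≤ n := ((le_max_left _ _).trans (le_max_right _ _)).trans hn
  have hnn3 : n3 ≤ n := ((le_max_right _ _).trans (le_max_right _ _)).trans hn
  have hn1R : (1 : ℝ) ≤ n := hn₁.trans hnn1
  have hpn : p ∣ n := ⟨q, hnpq⟩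
  have hqn : q ∣ n := ⟨p, by rw [hnpq, mul_comm]⟩
  have hBp := hP.big hp hpn
  have hBq := hP.big hq hqn
  have hp2 := hp.two_le
  have hFq : Fact q.Prime := ⟨hq⟩
  have hBth : (n : ℝ) ^ th ≤ B := by
    refine le_trans (Real.rpow_le_rpow_of_exponent_le hn1R (by linarith)) hB
  have hBX : X₀ + 2 ≤ (B : ℝ) := (hn2 n hnn2).trans hBth
  have hqR : (B : ℝ) + 1 ≤ q := by exact_mod_cast hBq
  have hqcast : ((q - 1 : ℕ) : ℝ) = (q : ℝ) - 1 := by
    rw [Nat.cast_sub (by omega), Nat.cast_one]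
  have hnlt : 1 < n := hP.hn
  have hq1n : q - 1 ≤ n := (Nat.sub_le _ _).trans (Nat.le_of_dvd (by omega) hqn)
  have hX1 : ((q - 1 : ℕ) : ℝ) ^ th ≤ B := by
    refine (Real.rpow_le_rpow (Nat.cast_nonneg _) ?_ th_pos.le).trans hBth
    exact_mod_cast hq1n
  have h1 := h (q - 1) B (by rw [hqcast]; linarith) hX1
  obtain ⟨g, hg⟩ : ∃ g, g = Nat.gcd (q - 1) (n - 1) := ⟨_, rfl⟩
  have hg0 : 0 < g := by
    rw [hg]; exact Nat.gcd_pos_of_pos_left _ (by omega)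
  have hpw : ∀ m : ℕ, 1 ≤ m → m ≤ q - 1 → (∀ p : ℕ, p.Prime → p ∣ m → p ≤ B) →
      (m : ZMod q) ^ g = 1 := by
    intro m hm1 hm2 hsm
    have hne : (m : ZMod q) ≠ 0 := by
      intro h0
      rw [ZMod.natCast_eq_zero_iff] at h0
      have := Nat.le_of_dvd (by omega) h0
      omega
    rw [hg]
    exact pow_gcd_eq_one.2 ⟨ZMod.pow_card_sub_one_eq_one hne, hP.smooth_dvd hqn hm1 hsm⟩
  have hcard : (SM B (q - 1)).card ≤ g := by
    apply card_le_of_pow hq hg0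
    · intro m hm; exact (mem_SM.1 hm).1
    · intro m hm
      have k := mem_SM.1 hm
      exact hpw m k.1.1 k.1.2 k.2
  have hgdvd : g ∣ p - 1 := by
    have e : n - 1 = (q - 1) * p + (p - 1) := by
      rw [hnpq, Nat.sub_mul, mul_comm p q, one_mul]
      have : p ≤ q * p := Nat.le_mul_of_pos_left p (by omega)
      omega
    have h4 : g ∣ n - 1 := by rw [hg]; exact Nat.gcd_dvd_right _ _
    have h5 : g ∣ (q - 1) * p := by rw [hg]; exact Dvd.dvd.mul_right (Nat.gcd_dvd_left _ _) p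
    exact (Nat.dvd_add_right h5).1 (e ▸ h4)
  have hgp : g ≤ p - 1 := Nat.le_of_dvd (by omega) hgdvd
  obtain ⟨k, hk⟩ : g ∣ q - 1 := by rw [hg]; exact Nat.gcd_dvd_left _ _
  set Q : ℝ := ((q - 1 : ℕ) : ℝ) with hQ
  have hQ2 : 2 ≤ Q := by rw [hqcast]; linarith
  have hgR : Q ^ (1 - ε / 128) ≤ g := h1.trans (by exact_mod_cast hcard)
  have hgpos : (0 : ℝ) < g := by exact_mod_cast hg0
  have hkR : (k : ℝ) ≤ Q ^ (ε / 128) := by
    have e1 : Q = g * k := by rw [hQ]; exact_mod_cast hk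
    have e2 : Q = Q ^ (1 - ε / 128) * Q ^ (ε / 128) := by
      rw [← Real.rpow_add (by linarith)]
      conv_lhs => rw [← Real.rpow_one Q]
      congr 1; ring
    have e3 : (g : ℝ) * k ≤ g * Q ^ (ε / 128) := by
      rw [← e1]
      conv_lhs => rw [e2]
      exact mul_le_mul_of_nonneg_right hgR (by positivity)
    exact le_of_mul_le_mul_left e3 hgpos
  have hkq : (k : ℝ) ≤ (q : ℝ) ^ (ε / 8 / 16) := by
    refine hkR.trans ?_
    rw [show ε / 8 / 16 = ε / 128 by ring]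
    apply Real.rpow_le_rpow (by linarith) _ (by positivity)
    rw [hqcast]; linarith
  have hqnu : (q : ℝ) ≤ (n : ℝ) ^ nu := by
    by_contra hcon
    push Not at hcon
    have hnpos : (0 : ℝ) < n := by linarith
    have f1 : (n : ℝ) ^ (0.55 : ℝ) ≤ (n : ℝ) ^ nu :=
      Real.rpow_le_rpow_of_exponent_le hn1R nu_gt.le
    have f2 : (n : ℝ) ^ (0.53 : ℝ) ≤ Q := by
      have f3 : (n : ℝ) ^ (0.53 : ℝ) * 2 ≤ (n : ℝ) ^ (0.55 : ℝ) := by
        calc (n : ℝ) ^ (0.53 : ℝ) * 2 ≤ (n : ℝ) ^ (0.53 : ℝ) * (n : ℝ) ^ (1 / 50 : ℝ) :=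
              mul_le_mul_of_nonneg_left (hn3 n hnn3) (by positivity)
          _ = _ := by rw [← Real.rpow_add hnpos]; congr 1; norm_num
      rw [hqcast]
      have : (2 : ℝ) ≤ q := by exact_mod_cast hq.two_le
      have f4 : (q : ℝ) ≤ 2 * (q - 1) := by linarith
      linarith
    have f5 : Q ^ (1.9 : ℝ) ≤ n := by
      calc Q ^ (1.9 : ℝ) ≤ Q ^ ((1 - ε / 128) + 1) :=
            Real.rpow_le_rpow_of_exponent_le (by linarith) (by linarith)
        _ = Q ^ (1 - ε / 128) * Q := by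
            rw [Real.rpow_add (by linarith), Real.rpow_one]
        _ ≤ p * q := by
            apply mul_le_mul _ _ (by linarith) (by positivity)
            · refine hgR.trans ?_
              exact_mod_cast hgp.trans (Nat.sub_le _ _)
            · rw [hqcast]; linarith
        _ = n := by rw [hnpq]; push_cast; ring
    have f6 : (n : ℝ) ^ (1.007 : ℝ) ≤ n := by
      calc (n : ℝ) ^ (1.007 : ℝ) = ((n : ℝ) ^ (0.53 : ℝ)) ^ (1.9 : ℝ) := by
            rw [← Real.rpow_mul hnpos.le]; norm_num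
        _ ≤ Q ^ (1.9 : ℝ) := Real.rpow_le_rpow (by positivity) f2 (by norm_num)
        _ ≤ n := f5
    have hn1s : (1 : ℝ) < n := by exact_mod_cast hP.hn
    have f7 : (n : ℝ) ^ (1 : ℝ) < (n : ℝ) ^ (1.007 : ℝ) :=
      Real.rpow_lt_rpow_of_exponent_lt hn1s (by norm_num)
    rw [Real.rpow_one] at f7
    linarith
  -- the character
  have hq1 : q - 1 ≠ 0 := by omega
  obtain ⟨ω, hω⟩ := MulChar.exists_mulChar_orderOf (ZMod q) (R := ℂ) (n := q - 1)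
    (by rw [ZMod.card]) (Complex.isPrimitiveRoot_exp (q - 1) hq1)
  apply hpc n B q hFq hnn1 hB hBq hqnu (ω ^ g) _ k _ ⟨g, by rw [hk, mul_comm]⟩ hkq
  · intro l hl hlB
    rw [MulChar.pow_apply' ω hg0.ne']
    have h8 := hpw l hl.one_lt.le (by omega) (fun r hr hrl => (Nat.le_of_dvd hl.pos hrl).trans hlB)
    rw [← map_pow, h8, map_one]
  · intro h0
    have h9 := orderOf_dvd_of_pow_eq_one h0
    rw [hω] at h9
    have := Nat.le_of_dvd hg0 h9
    omega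
  · rw [← pow_mul, ← hk, ← hω, pow_orderOf_eq_one]

end Pool.Agent.Lib.Burgess
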