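import Pool.Agent.Lib.Burgess.WitChar

/-!
# Three quadratic characters with trivial product
-/

set_option autoImplicit false
open Finset

namespace Pool.Agent.Lib.Burgess

/-- a prime outside the exceptional set is bad for at most two of three characters -/
lemma three_masses {N1 N2 N3 : ℕ} (χ1 : ZMod N1 →* ℂ) (χ2 : ZMod N2 →* ℂ) (χ3 : ZMod N3 →* ℂ)
    (B H1 H2 H3 : ℕ) (hB : 0 < B) (h12 : H1 ≤ H2) (h23 : H2 ≤ H3) (P : Finset ℕ)
    (hP : ∀ l ∈ P, B < l) (hP3 : P.card ≤ 3)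
    (h : ∀ l : ℕ, l.Prime → l ∉ P → χ1 (l : ZMod N1) ≠ 1 → χ2 (l : ZMod N2) ≠ 1 →
      χ3 (l : ZMod N3) ≠ 1 → False) :
    ∑ l ∈ bad χ1 B H1, (1 : ℝ) / l + ∑ l ∈ bad χ2 B H2, (1 : ℝ) / l +
      ∑ l ∈ bad χ3 B H3, (1 : ℝ) / l ≤
    ∑ l ∈ (Ioc B H2).filter Nat.Prime, (1 : ℝ) / l +
      ∑ l ∈ (Ioc B H3).filter Nat.Prime, (1 : ℝ) / l + 9 / B := by
  classical
  set S := (Ioc B H3).filter Nat.Prime with hS
  have hsub1 : bad χ1 B H1 ⊆ S := by
    intro l hl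
    rw [mem_bad] at hl
    rw [hS, mem_filter, mem_Ioc]
    exact ⟨⟨hl.1.1, hl.1.2.trans (h12.trans h23)⟩, hl.2.1⟩
  have hsub2 : bad χ2 B H2 ⊆ S := by
    intro l hl
    rw [mem_bad] at hl
    rw [hS, mem_filter, mem_Ioc]
    exact ⟨⟨hl.1.1, hl.1.2.trans h23⟩, hl.2.1⟩
  have hsub3 : bad χ3 B H3 ⊆ S := by
    intro l hl
    rw [mem_bad] at hl
    rw [hS, mem_filter, mem_Ioc]
    exact ⟨hl.1, hl.2.1⟩
  have hsub4 : (Ioc B H2).filter Nat.Prime ⊆ S := by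
    intro l hl
    rw [mem_filter, mem_Ioc] at hl
    rw [hS, mem_filter, mem_Ioc]
    exact ⟨⟨hl.1.1, hl.1.2.trans h23⟩, hl.2⟩
  have hrew : ∀ T : Finset ℕ, T ⊆ S → ∑ l ∈ T, (1 : ℝ) / l =
      ∑ l ∈ S, if l ∈ T then (1 : ℝ) / l else 0 := by
    intro T hT
    rw [sum_ite_mem, inter_eq_right.2 hT]
  have hPsum : ∑ l ∈ S, (if l ∈ P then (2 : ℝ) / l else 0) ≤ 9 / B := by
    have hBR : (0 : ℝ) < B := by exact_mod_cast hB
    rw [sum_ite_mem]
    calc ∑ l ∈ S ∩ P, (2 : ℝ) / l ≤ ∑ l ∈ P, (2 : ℝ) / l :=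
          sum_le_sum_of_subset_of_nonneg inter_subset_right fun l _ _ => by positivity
      _ ≤ ∑ _l ∈ P, (2 : ℝ) / B := by
          apply sum_le_sum
          intro l hl
          apply div_le_div_of_nonneg_left (by norm_num) hBR
          exact_mod_cast (hP l hl).le
      _ = P.card * (2 / B) := by rw [sum_const, nsmul_eq_mul]
      _ ≤ 3 * (2 / B) := by
          apply mul_le_mul_of_nonneg_right _ (by positivity)
          exact_mod_cast hP3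
      _ ≤ 9 / B := by
          rw [mul_div_assoc', div_le_div_iff_of_pos_right hBR]; norm_num
  have hmain : ∑ l ∈ S, ((if l ∈ bad χ1 B H1 then (1 : ℝ) / l else 0) +
      (if l ∈ bad χ2 B H2 then (1 : ℝ) / l else 0) +
      (if l ∈ bad χ3 B H3 then (1 : ℝ) / l else 0)) ≤
      ∑ l ∈ S, ((if l ∈ (Ioc B H2).filter Nat.Prime then (1 : ℝ) / l else 0) + 1 / l +
        (if l ∈ P then (2 : ℝ) / l else 0)) := by
    apply sum_le_sum
    intro l hl
    rw [hS, mem_filter, mem_Ioc] at hl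
    obtain ⟨⟨hl1, hl2⟩, hlp⟩ := hl
    have hpos : (0 : ℝ) ≤ 1 / l := by positivity
    have h2l : (2 : ℝ) / l = 1 / l + 1 / l := by ring
    rw [h2l]
    have m1 : l ∈ bad χ1 B H1 → l ∈ (Ioc B H2).filter Nat.Prime := by
      intro hl; rw [mem_bad] at hl; rw [mem_filter, mem_Ioc]
      exact ⟨⟨hl.1.1, hl.1.2.trans h12⟩, hl.2.1⟩
    have m2 : l ∈ bad χ2 B H2 → l ∈ (Ioc B H2).filter Nat.Prime := by
      intro hl; rw [mem_bad] at hl; rw [mem_filter, mem_Ioc]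
      exact ⟨hl.1, hl.2.1⟩
    have m3 : l ∉ P → l ∈ bad χ1 B H1 → l ∈ bad χ2 B H2 → l ∈ bad χ3 B H3 → False := by
      intro hlP k1 k2 k3
      rw [mem_bad] at k1 k2 k3
      exact h l hlp hlP k1.2.2 k2.2.2 k3.2.2
    by_cases b1 : l ∈ bad χ1 B H1
    · by_cases b2 : l ∈ bad χ2 B H2
      · by_cases b3 : l ∈ bad χ3 B H3
        · by_cases b4 : l ∈ P
          · rw [if_pos b1, if_pos b2, if_pos b3, if_pos b4, if_pos (m1 b1)]
            linarith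
          · exact absurd (m3 b4 b1 b2 b3) id
        · rw [if_pos b1, if_pos b2, if_neg b3, if_pos (m1 b1)]
          split_ifs <;> linarith
      · rw [if_pos b1, if_neg b2, if_pos (m1 b1)]
        split_ifs <;> linarith
    · by_cases b2 : l ∈ bad χ2 B H2
      · rw [if_neg b1, if_pos b2, if_pos (m2 b2)]
        split_ifs <;> linarith
      · rw [if_neg b1, if_neg b2]
        split_ifs <;> linarith
  rw [sum_add_distrib, sum_add_distrib, sum_add_distrib, sum_add_distrib] at hmain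
  rw [hrew _ hsub1, hrew _ hsub2, hrew _ hsub3, hrew _ hsub4]
  linarith

theorem triple_contra (ε : ℝ) (hε : 0 < ε) (hε1 : ε ≤ 1 / 10) :
    ∃ n₀ : ℝ, 1 ≤ n₀ ∧ ∀ (B p1 p2 p3 : ℕ) (_ : Fact p1.Prime) (_ : Fact p2.Prime)
      (_ : Fact p3.Prime), n₀ ≤ ((p1 * p2 * p3 : ℕ) : ℝ) →
      ((p1 * p2 * p3 : ℕ) : ℝ) ^ (th + ε / 2) ≤ B → B < p1 → 2 < p1 → p1 < p2 → p2 < p3 →
      (∀ l : ℕ, l.Prime → l ≤ B → jacobiSym (l : ℤ) p1 = jacobiSym (l : ℤ) p2) →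
      (∀ l : ℕ, l.Prime → l ≤ B → jacobiSym (l : ℤ) p1 = jacobiSym (l : ℤ) p3) → False := by
  obtain ⟨N₀, hN₀, h⟩ := two_mass (ε / 8) (ε / 8) (by positivity) (by linarith) (by positivity)
    (by linarith)
  obtain ⟨n1, hn11, hn1⟩ := exists_rpow_ge (th + ε / 2) N₀ (by have := th_pos; positivity)
  refine ⟨max n1 (Real.exp (1000 / ε ^ 2)), le_max_of_le_left hn11, ?_⟩
  intro B p1 p2 p3 hp1 hp2 hp3 hn hB hBp h2p h12 h23 htr12 htr13
  have hpos1 := hp1.out.pos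
  have hpos2 := hp2.out.pos
  have hpos3 := hp3.out.pos
  set n : ℝ := ((p1 * p2 * p3 : ℕ) : ℝ) with hndef
  have hn1' : 1 ≤ n := hn11.trans ((le_max_left _ _).trans hn)
  have hBN : ∀ N : ℕ, p1 ≤ N → N₀ ≤ (N : ℝ) := by
    intro N hN
    refine (hn1 n ((le_max_left _ _).trans hn)).trans (hB.trans ?_)
    exact_mod_cast (hBp.le.trans hN)
  have hB1 : 1 ≤ B := by
    have h1 : 1 ≤ n ^ (th + ε / 2) := Real.one_le_rpow hn1' (by have := th_pos; positivity)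
    exact_mod_cast h1.trans hB
  -- products
  have hq12 : p1 * p2 ≤ p1 * p3 := Nat.mul_le_mul_left _ h23.le
  have hq23 : p1 * p3 ≤ p2 * p3 := Nat.mul_le_mul_right _ h12.le
  have hq3n : p2 * p3 ≤ p1 * p2 * p3 := by
    rw [mul_assoc]; exact Nat.le_mul_of_pos_left _ hpos1
  have hle1 : p1 ≤ p1 * p2 := Nat.le_mul_of_pos_right _ hpos2
  have hcast : ∀ N : ℕ, N ≤ p1 * p2 * p3 → (N : ℝ) ≤ n := by
    intro N hN
    rw [hndef]; exact_mod_cast hN
  have hcop : ∀ (r l : ℕ), r.Prime → B < r → l.Prime → l ≤ B → jacobiSym (l : ℤ) r ^ 2 = 1 := by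
    intro r l hr hBr hl hlB
    apply jacobiSym.sq_one
    have := (Nat.coprime_primes hl hr).2 (by omega)
    simpa using this
  have htr : ∀ p q : ℕ, ∀ _ : Fact p.Prime, ∀ _ : Fact q.Prime, B < q →
      (∀ l : ℕ, l.Prime → l ≤ B → jacobiSym (l : ℤ) p = jacobiSym (l : ℤ) q) →
      ∀ l : ℕ, l.Prime → l ≤ B →
      prodChar (qc p : ZMod p →* ℂ) (qc q : ZMod q →* ℂ) (l : ZMod (p * q)) = 1 := by
    intro p q hp hq hBq hj l hl hlB
    rw [pc_apply, hj l hl hlB, ← sq, hcop q l hq.out hBq hl hlB]; norm_num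
  have hm12 := h p1 p2 hp1 hp2 h12.ne (hBN _ hle1)
    (twelfth ε hε n hn1' B p1 _ hB hBp (hcast _ (hq12.trans (hq23.trans hq3n))))
    (twelfth ε hε n hn1' B p2 _ hB (hBp.trans h12) (hcast _ (hq12.trans (hq23.trans hq3n))))
    (qc p1) (qc p2) (qc_ne_one p1 (by omega)) (qc_ne_one p2 (by omega)) (qc_sq p1) (qc_sq p2) B
    (htr p1 p2 hp1 hp2 (hBp.trans h12) htr12)
  have hm13 := h p1 p3 hp1 hp3 (h12.trans h23).ne (hBN _ (hle1.trans hq12))
    (twelfth ε hε n hn1' B p1 _ hB hBp (hcast _ (hq23.trans hq3n)))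
    (twelfth ε hε n hn1' B p3 _ hB (hBp.trans (h12.trans h23)) (hcast _ (hq23.trans hq3n)))
    (qc p1) (qc p3) (qc_ne_one p1 (by omega)) (qc_ne_one p3 (by omega)) (qc_sq p1) (qc_sq p3) B
    (htr p1 p3 hp1 hp3 (hBp.trans (h12.trans h23)) htr13)
  have hm23 := h p2 p3 hp2 hp3 h23.ne (hBN _ (hle1.trans (hq12.trans hq23)))
    (twelfth ε hε n hn1' B p2 _ hB (hBp.trans h12) (hcast _ hq3n))
    (twelfth ε hε n hn1' B p3 _ hB (hBp.trans (h12.trans h23)) (hcast _ hq3n))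
    (qc p2) (qc p3) (qc_ne_one p2 (by omega)) (qc_ne_one p3 (by omega)) (qc_sq p2) (qc_sq p3) B
    (htr p2 p3 hp2 hp3 (hBp.trans (h12.trans h23))
      (fun l hl hlB => (htr12 l hl hlB).symm.trans (htr13 l hl hlB)))
  have hmass := three_masses (prodChar (qc p1 : ZMod p1 →* ℂ) (qc p2 : ZMod p2 →* ℂ))
    (prodChar (qc p1 : ZMod p1 →* ℂ) (qc p3 : ZMod p3 →* ℂ))
    (prodChar (qc p2 : ZMod p2 →* ℂ) (qc p3 : ZMod p3 →* ℂ)) B (Hf (ε / 8) (p1 * p2))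
    (Hf (ε / 8) (p1 * p3)) (Hf (ε / 8) (p2 * p3)) (by omega)
    (Hf_mono _ (by positivity) hq12) (Hf_mono _ (by positivity) hq23) {p1, p2, p3}
    (by
      intro l hl
      rw [mem_insert, mem_insert, mem_singleton] at hl
      omega)
    card_le_three
    (by
      intro l hl hlP a1 a2 a3
      rw [mem_insert, mem_insert, mem_singleton] at hlP
      push Not at hlP
      exact not_all_bad p1 p2 p3 l hl hlP.1 hlP.2.1 hlP.2.2 a1 a2 a3)
  refine final_triple ε hε hε1 n ((le_max_right _ _).trans hn) B (Hf (ε / 8) (p1 * p2))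
    (Hf (ε / 8) (p1 * p3)) (Hf (ε / 8) (p2 * p3)) hB (Hf_mono _ (by positivity) hq12)
    (Hf_mono _ (by positivity) hq23) ?_ (hm12.trans (bad_mass_le _ _ _)) ?_
  · have e1 := Hf_le (ε / 8) (by positivity) (p1 * p2) (Nat.mul_pos hpos1 hpos2)
    have e2 := Hf_le (ε / 8) (by positivity) (p1 * p3) (Nat.mul_pos hpos1 hpos3)
    have e3 := Hf_le (ε / 8) (by positivity) (p2 * p3) (Nat.mul_pos hpos2 hpos3)
    have n0 : ∀ N : ℕ, (0 : ℝ) ≤ Hf (ε / 8) N := fun N => Nat.cast_nonneg _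
    calc (Hf (ε / 8) (p1 * p2) : ℝ) * Hf (ε / 8) (p1 * p3) * Hf (ε / 8) (p2 * p3)
        ≤ (2 * ((p1 * p2 : ℕ) : ℝ) ^ (1 / 4 + ε / 8)) *
            (2 * ((p1 * p3 : ℕ) : ℝ) ^ (1 / 4 + ε / 8)) *
            (2 * ((p2 * p3 : ℕ) : ℝ) ^ (1 / 4 + ε / 8)) := by
          apply mul_le_mul (mul_le_mul e1 e2 (n0 _) (by positivity)) e3 (n0 _) (by positivity)
      _ = 8 * (((p1 * p2 : ℕ) : ℝ) ^ (1 / 4 + ε / 8) * ((p1 * p3 : ℕ) : ℝ) ^ (1 / 4 + ε / 8) *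
            ((p2 * p3 : ℕ) : ℝ) ^ (1 / 4 + ε / 8)) := by ring
      _ = 8 * n ^ (1 / 2 + ε / 4) := by
          rw [← Real.mul_rpow (by positivity) (by positivity),
            ← Real.mul_rpow (by positivity) (by positivity)]
          have e4 : ((p1 * p2 : ℕ) : ℝ) * ((p1 * p3 : ℕ) : ℝ) * ((p2 * p3 : ℕ) : ℝ) = n ^ 2 := by
            rw [hndef]; push_cast; ring
          rw [e4, ← Real.rpow_natCast, ← Real.rpow_mul (by linarith)]
          congr 2; push_cast; ring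
  · have := hmass
    linarith

end Pool.Agent.Lib.Burgess
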